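import Pool.Agent.H48.MXN.Nil
import Pool.Agent.H70.MX.Exist

/-!
# Admissible pairs of generating sets and the laws of the lazy walks
-/

set_option autoImplicit false
set_option linter.unusedSectionVars false

namespace Pool.Agent.H48.MXN

open Finset Pool.Agent.H70.MX Pool.Agent.H85.Mix
open scoped Classical

variable {G : Type} [Group G] [Fintype G]

theorem nonempty_of_gen (S : Finset G) (hgen : Subgroup.closure (S : Set G) = ⊤)
    (hG : 2 ≤ Fintype.card G) : S.Nonempty := by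
  rw [Finset.nonempty_iff_ne_empty]
  rintro rfl
  have h1 : (⊥ : Subgroup G) = ⊤ := by
    rw [← hgen]
    simp
  have h2 : Fintype.card G ≤ 1 := by
    rw [Fintype.card_le_one_iff]
    intro x y
    have hx : x ∈ (⊥ : Subgroup G) := h1 ▸ Subgroup.mem_top x
    have hy : y ∈ (⊥ : Subgroup G) := h1 ▸ Subgroup.mem_top y
    rw [Subgroup.mem_bot] at hx hy
    rw [hx, hy]
  omega

/-- everything we use about the two one step laws -/
structure Pair (a : ℕ) (p q : G → ℝ) (T : ℕ) : Prop where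
  hp : IsP p
  hps : iv p = p
  hq : IsP q
  hqs : iv q = q
  hle : ∀ x, p x ≤ 2 ^ a * q x
  hq1 : 1 / 2 ≤ q 1
  hT : 1 ≤ T
  hmix : Mx p T

theorem pair_of_adm (a : ℕ) (S S' : Finset G) (hG : 2 ≤ Fintype.card G)
    (hs : ∀ s ∈ S, s⁻¹ ∈ S) (hgen : Subgroup.closure (S : Set G) = ⊤)
    (hs' : ∀ s ∈ S', s⁻¹ ∈ S') (hsub : S ⊆ S') (hcard : (S'.card : ℝ) ≤ 2 ^ a * (S.card : ℝ)) :
    Pair a (law S 1) (law S' 1) (tmix S) := by
  have hS := nonempty_of_gen S hgen hG
  have h2a : (1 : ℝ) ≤ 2 ^ a := one_le_pow₀ (by norm_num)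
  refine ⟨law_one_isP S hS, law_one_symm S hs, law_one_isP S' (hS.mono hsub), law_one_symm S' hs',
    law_one_le S S' hS hsub _ h2a hcard, law_one_one S', tmix_pos S hS hs hgen hG, ?_⟩
  have h := tmix_spec S hS hs hgen
  unfold tvDist at h
  unfold Mx
  rw [← law_eq_pw]
  linarith

theorem tmix_of_Mx (S : Finset G) (t : ℕ) (h : Mx (law S 1) t) : tmix S ≤ t := by
  apply tmix_le
  unfold tvDist
  unfold Mx at h
  rw [← law_eq_pw] at h
  linarith

theorem ninv_of_norm (N : Subgroup G) (S : Finset G) (h : ∀ n ∈ N, ∀ s ∈ S, n * s * n⁻¹ ∈ S) :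
    NInv N (law S 1) := by
  intro n hn x
  rw [law_one, law_one]
  have h1 : n * x * n⁻¹ = 1 ↔ x = 1 := by
    constructor
    · intro h1
      have : x = n⁻¹ * (n * x * n⁻¹) * n := by group
      rw [this, h1]
      group
    · rintro rfl
      group
  have h2 : n * x * n⁻¹ ∈ S ↔ x ∈ S := by
    constructor
    · intro h2
      have h3 := h n⁻¹ (N.inv_mem hn) _ h2
      have : x = n⁻¹ * (n * x * n⁻¹) * n⁻¹⁻¹ := by group
      rw [this]
      exact h3
    · exact fun h2 => h n hn x h2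
  simp only [h1, h2]

theorem comm_of_ninv {f g : G → ℝ} (h : NInv (⊤ : Subgroup G) f) : cv f g = cv g f := by
  rw [cv_eq_sum' f g, cv_eq_sum g f]
  funext x
  refine Finset.sum_congr rfl fun y _ => ?_
  rw [dl_comm h (Subgroup.mem_top y)]

/-- (1) the commuting case -/
theorem slow_comm (a : ℕ) (ha : 1 ≤ a) {p q : G → ℝ} {T : ℕ} (h : Pair a p q T)
    (hc : cv p q = cv q p) : ∃ t : ℕ, (t : ℝ) ≤ 35 * 2 ^ a * T ∧ Mx q t := by
  have h2a1 : (2 : ℝ) ≤ 2 ^ a := by
    calc (2 : ℝ) = 2 ^ 1 := by norm_num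
      _ ≤ 2 ^ a := pow_le_pow_right₀ (by norm_num) ha
  have hle' : ∀ x, 1 / 2 ^ a * p x ≤ q x := by
    intro x
    rw [one_div, inv_mul_le_iff₀ (by positivity)]
    exact h.hle x
  have hα1 : 1 / (2 : ℝ) ^ a < 1 := by
    rw [div_lt_one (by positivity)]
    linarith
  obtain ⟨t, ht1, ht2⟩ := comm_mix h.hp h.hps h.hq (1 / 2 ^ a) (by positivity) hα1 hle' hc T h.hT
    h.hmix
  refine ⟨t, ht1.trans (le_of_eq ?_), ht2⟩
  rw [div_div_eq_mul_div]
  ring

/-- (2) the reduction to `G ⧸ N` -/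
theorem slow_quot (a : ℕ) (ha : 1 ≤ a) {p q : G → ℝ} {T : ℕ} (h : Pair a p q T) (N : Subgroup G)
    [N.Normal] (hinv : NInv N p ∨ NInv N q) (r : ℕ) (hr : Mx (push (QuotientGroup.mk' N) q) r) :
    ∃ t : ℕ, (t : ℝ) ≤ 2 ^ (a + 10) * ((r + 1) * T *
      Real.log (3 + Real.log (Fintype.card G) / (r + 1))) ∧ Mx q t := by
  obtain ⟨t, ht1, ht2⟩ := reduce' N h.hp h.hps h.hq h.hqs a ha h.hle h.hq1 hinv T h.hT h.hmix r
    (2 * r) le_rfl hr
  refine ⟨t, ht1.trans ?_, ht2⟩
  have hA : 0 ≤ Real.log (Fintype.card G) := Real.log_natCast_nonneg _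
  have hr0 : (0 : ℝ) ≤ r := Nat.cast_nonneg r
  have h1 : Real.log (3 + Real.log (Fintype.card G) / (((2 * r : ℕ) : ℝ) + 1)) ≤
      Real.log (3 + Real.log (Fintype.card G) / ((r : ℝ) + 1)) := by
    have h2 : Real.log (Fintype.card G) / (((2 * r : ℕ) : ℝ) + 1) ≤
        Real.log (Fintype.card G) / ((r : ℝ) + 1) := by
      apply div_le_div_of_nonneg_left hA (by positivity)
      push_cast
      linarith
    have h3 : 0 ≤ Real.log (Fintype.card G) / (((2 * r : ℕ) : ℝ) + 1) := by positivity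
    exact Real.log_le_log (by linarith) (by linarith)
  have h0 : 0 ≤ Real.log (3 + Real.log (Fintype.card G) / (((2 * r : ℕ) : ℝ) + 1)) := by
    apply Real.log_nonneg
    have h3 : 0 ≤ Real.log (Fintype.card G) / (((2 * r : ℕ) : ℝ) + 1) := by positivity
    linarith
  have h3 : ((2 * r : ℕ) : ℝ) + 1 ≤ 2 * ((r : ℝ) + 1) := by
    push_cast
    linarith
  calc 2 ^ (a + 9) * ((((2 * r : ℕ) : ℝ) + 1) * T *
        Real.log (3 + Real.log (Fintype.card G) / (((2 * r : ℕ) : ℝ) + 1)))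
      ≤ 2 ^ (a + 9) * ((2 * ((r : ℝ) + 1)) * T *
        Real.log (3 + Real.log (Fintype.card G) / ((r : ℝ) + 1))) := by
        refine mul_le_mul_of_nonneg_left ?_ (by positivity)
        exact mul_le_mul (mul_le_mul_of_nonneg_right h3 (Nat.cast_nonneg T)) h1 h0 (by positivity)
    _ = 2 ^ (a + 10) * ((r + 1) * T *
        Real.log (3 + Real.log (Fintype.card G) / (r + 1))) := by
        rw [pow_succ 2 (a + 9)]
        ring

theorem loglog_pos (hG : 16 ≤ Fintype.card G) : 1 ≤ 2 * Real.log (Real.log (Fintype.card G)) ∧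
    1 ≤ Real.log (3 + Real.log (Fintype.card G)) ∧
    Real.log (3 + Real.log (Fintype.card G)) ≤ 2 * Real.log (Real.log (Fintype.card G)) := by
  have h16 : (16 : ℝ) ≤ Fintype.card G := by exact_mod_cast hG
  have hA : (2.77 : ℝ) ≤ Real.log (Fintype.card G) := by
    have h1 : Real.log 16 = 4 * Real.log 2 := by
      rw [show (16 : ℝ) = 2 ^ 4 by norm_num, Real.log_pow]
      norm_num
    have h2 := Real.log_two_gt_d9
    have h3 := Real.log_le_log (by norm_num) h16
    linarith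
  obtain ⟨A, hAd⟩ : ∃ A : ℝ, A = Real.log (Fintype.card G) := ⟨_, rfl⟩
  rw [← hAd] at hA ⊢
  have h3 : Real.log (3 + A) ≤ 2 * Real.log A := by
    have h4 : Real.log (A ^ 2) = 2 * Real.log A := by
      rw [Real.log_pow]
      norm_num
    rw [← h4]
    exact Real.log_le_log (by linarith) (by nlinarith)
  have h5 : 1 ≤ Real.log (3 + A) := by
    rw [Real.le_log_iff_exp_le (by linarith)]
    have := Real.exp_one_lt_d9
    linarith
  exact ⟨h5.trans h3, h5, h3⟩

/-- (3) iteration along the lower central series -/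
theorem slow_nil (a : ℕ) (ha : 1 ≤ a) (k : ℕ) : ∃ K : ℝ, 0 < K ∧
    ∀ (G : Type) (_ : Group G) (_ : Fintype G), 16 ≤ Fintype.card G →
    ∀ (p q : G → ℝ) (T : ℕ), Pair a p q T →
    (NInv ((⊤ : Subgroup G).lowerCentralSeries (k + 1)) p ∨
      NInv ((⊤ : Subgroup G).lowerCentralSeries (k + 1)) q) →
    ∃ t : ℕ, (t : ℝ) ≤ K * ((T : ℝ) ^ (k + 2) * Real.log (Real.log (Fintype.card G)) ^ k *
      Real.log (3 + Real.log (Fintype.card G) / (T : ℝ) ^ (k + 1))) ∧ Mx q t := by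
  obtain ⟨K, hK1, hnil⟩ := nil_mix a ha k
  refine ⟨2 ^ (a + 9) * (5 * (K * 2 ^ k)), by positivity, ?_⟩
  intro G _ _ hG p q T h hinv
  obtain ⟨hL1, hΛ1, hΛ2⟩ := loglog_pos (G := G) hG
  have hTR : (1 : ℝ) ≤ T := by exact_mod_cast h.hT
  obtain ⟨N, hNdef⟩ : ∃ N : Subgroup G, N = (⊤ : Subgroup G).lowerCentralSeries (k + 1) :=
    ⟨_, rfl⟩
  have hNn : N.Normal := by rw [hNdef]; infer_instance
  rw [← hNdef] at hinv
  have hsurj := QuotientGroup.mk'_surjective N
  have hquot : (⊤ : Subgroup (G ⧸ N)).lowerCentralSeries (k + 1) = ⊥ := by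
    rw [← Subgroup.map_top_of_surjective _ hsurj, ← Subgroup.map_lowerCentralSeries, ← hNdef,
      QuotientGroup.map_mk'_self]
  obtain ⟨L, hLdef⟩ : ∃ L : ℝ, L = Real.log (Real.log (Fintype.card G)) := ⟨_, rfl⟩
  rw [← hLdef] at hL1 hΛ2 ⊢
  have hcard : Real.log (3 + Real.log (Fintype.card (G ⧸ N))) ≤ 2 * L := by
    refine le_trans ?_ hΛ2
    have h1 : (Fintype.card (G ⧸ N) : ℝ) ≤ Fintype.card G := by
      exact_mod_cast Fintype.card_le_of_surjective _ hsurj
    have h2 : (0 : ℝ) < Fintype.card (G ⧸ N) := card_pos'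
    have h3 := Real.log_le_log h2 h1
    have h4 : 0 ≤ Real.log (Fintype.card (G ⧸ N)) := Real.log_natCast_nonneg _
    exact Real.log_le_log (by linarith) (by linarith)
  obtain ⟨r, hr1, hr2⟩ := hnil (G ⧸ N) _ _ hquot (push (QuotientGroup.mk' N) p)
    (push (QuotientGroup.mk' N) q) (push_isP _ h.hp) (by rw [← push_iv, h.hps]) (push_isP _ h.hq)
    (by rw [← push_iv, h.hqs])
    (fun y => by
      have h1 := push_le (QuotientGroup.mk' N) (p := p) (q := fun x => 2 ^ a * q x) 1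
        (fun x => by rw [one_mul]; exact h.hle x) y
      have h2 : push (QuotientGroup.mk' N) (fun x => 2 ^ a * q x) y =
          2 ^ a * push (QuotientGroup.mk' N) q y := by
        unfold push
        rw [Finset.mul_sum]
        refine Finset.sum_congr rfl fun x _ => ?_
        split_ifs
        · rfl
        · simp
      rw [one_mul, h2] at h1
      exact h1)
    (push_one_ge _ h.hq h.hq1) T h.hT (push_Mx _ hsurj p T h.hmix) (2 * L) hL1 hcard
  -- enlarge the waiting time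
  obtain ⟨x1, hx1⟩ : ∃ x1 : ℝ, x1 = K * ((T : ℝ) ^ (k + 1) * (2 * L) ^ k) := ⟨_, rfl⟩
  rw [← hx1] at hr1
  have hTk : 1 ≤ (T : ℝ) ^ (k + 1) := one_le_pow₀ hTR
  have hTx : (T : ℝ) ^ (k + 1) ≤ x1 := by
    have h2 : 1 ≤ (2 * L) ^ k := one_le_pow₀ hL1
    have h3 : (T : ℝ) ^ (k + 1) ≤ (T : ℝ) ^ (k + 1) * (2 * L) ^ k := by nlinarith
    rw [hx1]
    nlinarith
  obtain ⟨R, hR⟩ : ∃ R : ℕ, R = 2 * ⌈x1⌉₊ := ⟨_, rfl⟩
  have hR1 : 2 * x1 ≤ R := by
    rw [hR]
    push_cast
    linarith [Nat.le_ceil x1]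
  have hR2 : (R : ℝ) ≤ 2 * (x1 + 1) := by
    rw [hR]
    push_cast
    linarith [(Nat.ceil_lt_add_one (a := x1) (by linarith)).le]
  have hrR : 2 * r ≤ R := by
    have : ((2 * r : ℕ) : ℝ) ≤ R := by
      push_cast
      linarith
    exact_mod_cast this
  obtain ⟨t, ht1, ht2⟩ := reduce' N h.hp h.hps h.hq h.hqs a ha h.hle h.hq1 hinv T h.hT h.hmix r
    R hrR hr2
  refine ⟨t, ht1.trans ?_, ht2⟩
  have hA : 0 ≤ Real.log (Fintype.card G) := Real.log_natCast_nonneg _
  have hlog : Real.log (3 + Real.log (Fintype.card G) / ((R : ℝ) + 1)) ≤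
      Real.log (3 + Real.log (Fintype.card G) / (T : ℝ) ^ (k + 1)) := by
    have h2 : Real.log (Fintype.card G) / ((R : ℝ) + 1) ≤
        Real.log (Fintype.card G) / (T : ℝ) ^ (k + 1) := by
      apply div_le_div_of_nonneg_left hA (by positivity)
      linarith
    have h3 : 0 ≤ Real.log (Fintype.card G) / ((R : ℝ) + 1) := by positivity
    exact Real.log_le_log (by linarith) (by linarith)
  have hlog0 : 0 ≤ Real.log (3 + Real.log (Fintype.card G) / ((R : ℝ) + 1)) := by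
    apply Real.log_nonneg
    have h3 : 0 ≤ Real.log (Fintype.card G) / ((R : ℝ) + 1) := by positivity
    linarith
  have hR5 : (R : ℝ) + 1 ≤ 5 * x1 := by linarith
  have hx10 : 0 ≤ x1 := by linarith
  calc 2 ^ (a + 9) * (((R : ℝ) + 1) * T *
        Real.log (3 + Real.log (Fintype.card G) / ((R : ℝ) + 1)))
      ≤ 2 ^ (a + 9) * ((5 * x1) * T *
        Real.log (3 + Real.log (Fintype.card G) / (T : ℝ) ^ (k + 1))) := by
        refine mul_le_mul_of_nonneg_left ?_ (by positivity)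
        exact mul_le_mul (mul_le_mul_of_nonneg_right hR5 (by positivity)) hlog hlog0 (by positivity)
    _ = 2 ^ (a + 9) * (5 * (K * 2 ^ k)) * ((T : ℝ) ^ (k + 2) * L ^ k *
        Real.log (3 + Real.log (Fintype.card G) / (T : ℝ) ^ (k + 1))) := by
        rw [hx1, mul_pow]
        ring

end Pool.Agent.H48.MXN
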