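import Pool.Agent.H48.MXN.Words

/-!
# Words in groups of class two
-/

set_option autoImplicit false
set_option linter.unusedSectionVars false

namespace Pool.Agent.H48.MXN

open Finset Pool.Agent.H70.MX
open scoped Classical

variable {G : Type} [Group G] [Fintype G] {A : Type} [Fintype A]

/-- the product of the known letters -/
def uu (c : A → G) : List (Option A) → G
  | [] => 1
  | none :: L => uu c L
  | some s :: L => c s * uu c L

/-- nilpotent of class at most two -/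
def Cl2 (G : Type) [Group G] : Prop :=
  ∀ x y : G, ∃ z : G, (∀ g, g * z = z * g) ∧ x * y = y * x * z

theorem Jt_cons_ne {p : G → ℝ} {c₀ c₁ : A → G} {l : Option A} {L : List (Option A)} {x : W4 G}
    (h : Jt p c₀ c₁ (l :: L) x ≠ 0) : ∃ y, lt p c₀ c₁ l y ≠ 0 ∧ Jt p c₀ c₁ L (y⁻¹ * x) ≠ 0 := by
  by_contra hno
  push Not at hno
  apply h
  show ∑ y, lt p c₀ c₁ l y * Jt p c₀ c₁ L (y⁻¹ * x) = 0
  refine Finset.sum_eq_zero fun y _ => ?_
  by_cases hy : lt p c₀ c₁ l y = 0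
  · rw [hy, zero_mul]
  · rw [hno y hy, mul_zero]

theorem dl_ne {K : Type} [Group K] [Fintype K] {z x : K} (h : dl z x ≠ 0) : x = z := by
  by_contra hno
  apply h
  unfold dl
  rw [if_neg hno]

theorem push_ne {K : Type} [Group K] [Fintype K] {φ : G →* K} {f : G → ℝ} {y : K}
    (h : push φ f y ≠ 0) : ∃ x, φ x = y := by
  by_contra hno
  push Not at hno
  apply h
  unfold push
  exact Finset.sum_eq_zero fun x _ => if_neg (hno x)

theorem lt_none_ne {p : G → ℝ} {c₀ c₁ : A → G} {y : W4 G} (h : lt p c₀ c₁ none y ≠ 0) :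
    ∃ g : G, y = (g, g, g, g) := by
  obtain ⟨g, hg⟩ := push_ne (φ := dg G) (f := p) h
  exact ⟨g, hg.symm⟩

theorem lt_some_ne {p : G → ℝ} {c₀ c₁ : A → G} {s : A} {y : W4 G}
    (h : lt p c₀ c₁ (some s) y ≠ 0) : y = (c₀ s, c₁ s, c₀ s * c₁ s, 1) := by
  exact dl_ne h

theorem uu_two (hcl : Cl2 G) (c₀ c₁ : A → G) (L : List (Option A)) :
    ∃ k : G, (∀ g, g * k = k * g) ∧ uu (fun s => c₀ s * c₁ s) L = uu c₀ L * uu c₁ L * k := by
  induction L with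
  | nil => exact ⟨1, fun g => by simp, by simp [uu]⟩
  | cons l L ih =>
    obtain ⟨k, hk, e⟩ := ih
    cases l with
    | none => exact ⟨k, hk, e⟩
    | some s =>
      obtain ⟨κ, hκ, e2⟩ := hcl (c₁ s) (uu c₀ L)
      refine ⟨κ * k, fun g => ?_, ?_⟩
      · rw [← mul_assoc, hκ g, mul_assoc, hk g, mul_assoc]
      · show c₀ s * c₁ s * uu (fun s => c₀ s * c₁ s) L = c₀ s * uu c₀ L * (c₁ s * uu c₁ L) * (κ * k)
        rw [e]
        calc c₀ s * c₁ s * (uu c₀ L * uu c₁ L * k) = c₀ s * (c₁ s * uu c₀ L) * uu c₁ L * k := by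
              simp only [mul_assoc]
          _ = c₀ s * (uu c₀ L * c₁ s * κ) * uu c₁ L * k := by rw [e2]
          _ = c₀ s * uu c₀ L * c₁ s * (κ * uu c₁ L) * k := by simp only [mul_assoc]
          _ = c₀ s * uu c₀ L * c₁ s * (uu c₁ L * κ) * k := by rw [hκ]
          _ = c₀ s * uu c₀ L * (c₁ s * uu c₁ L) * (κ * k) := by simp only [mul_assoc]

theorem supp_two (hcl : Cl2 G) (p : G → ℝ) (c₀ c₁ : A → G) (L : List (Option A)) :
    ∀ x : W4 G, Jt p c₀ c₁ L x ≠ 0 → ∃ z₀ z₁ : G, (∀ g, g * z₀ = z₀ * g) ∧ (∀ g, g * z₁ = z₁ * g) ∧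
      x.1 = uu c₀ L * x.2.2.2 * z₀ ∧ x.2.1 = uu c₁ L * x.2.2.2 * z₁ ∧
      x.2.2.1 = uu (fun s => c₀ s * c₁ s) L * x.2.2.2 * (z₀ * z₁) := by
  induction L with
  | nil =>
    intro x hx
    have hx1 : x = 1 := dl_ne hx
    subst hx1
    exact ⟨1, 1, fun g => by simp, fun g => by simp, by simp [uu], by simp [uu], by simp [uu]⟩
  | cons l L ih =>
    intro x hx
    obtain ⟨y, hy, hx'⟩ := Jt_cons_ne hx
    obtain ⟨z₀, z₁, hz₀, hz₁, e0, e1, e2⟩ := ih _ hx'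
    cases l with
    | none =>
      obtain ⟨g, rfl⟩ := lt_none_ne hy
      simp only [Prod.inv_mk, Prod.fst_mul, Prod.snd_mul] at e0 e1 e2
      obtain ⟨κ₀, hκ₀, f0⟩ := hcl g (uu c₀ L)
      obtain ⟨κ₁, hκ₁, f1⟩ := hcl g (uu c₁ L)
      obtain ⟨k, hk, f2⟩ := uu_two hcl c₀ c₁ L
      refine ⟨κ₀ * z₀, κ₁ * z₁, fun h => ?_, fun h => ?_, ?_, ?_, ?_⟩
      · rw [← mul_assoc, hκ₀ h, mul_assoc, hz₀ h, mul_assoc]
      · rw [← mul_assoc, hκ₁ h, mul_assoc, hz₁ h, mul_assoc]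
      · show x.1 = uu c₀ L * x.2.2.2 * (κ₀ * z₀)
        calc x.1 = g * (g⁻¹ * x.1) := by group
          _ = g * (uu c₀ L * (g⁻¹ * x.2.2.2) * z₀) := by rw [e0]
          _ = (g * uu c₀ L) * g⁻¹ * x.2.2.2 * z₀ := by group
          _ = uu c₀ L * g * κ₀ * g⁻¹ * x.2.2.2 * z₀ := by rw [f0]
          _ = uu c₀ L * g * (κ₀ * (g⁻¹ * x.2.2.2)) * z₀ := by simp only [mul_assoc]
          _ = uu c₀ L * g * ((g⁻¹ * x.2.2.2) * κ₀) * z₀ := by rw [hκ₀]
          _ = uu c₀ L * x.2.2.2 * (κ₀ * z₀) := by group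
      · show x.2.1 = uu c₁ L * x.2.2.2 * (κ₁ * z₁)
        calc x.2.1 = g * (g⁻¹ * x.2.1) := by group
          _ = g * (uu c₁ L * (g⁻¹ * x.2.2.2) * z₁) := by rw [e1]
          _ = (g * uu c₁ L) * g⁻¹ * x.2.2.2 * z₁ := by group
          _ = uu c₁ L * g * κ₁ * g⁻¹ * x.2.2.2 * z₁ := by rw [f1]
          _ = uu c₁ L * g * (κ₁ * (g⁻¹ * x.2.2.2)) * z₁ := by simp only [mul_assoc]
          _ = uu c₁ L * g * ((g⁻¹ * x.2.2.2) * κ₁) * z₁ := by rw [hκ₁]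
          _ = uu c₁ L * x.2.2.2 * (κ₁ * z₁) := by group
      · show x.2.2.1 = uu (fun s => c₀ s * c₁ s) L * x.2.2.2 * (κ₀ * z₀ * (κ₁ * z₁))
        have f3 : g * uu (fun s => c₀ s * c₁ s) L =
            uu (fun s => c₀ s * c₁ s) L * g * (κ₀ * κ₁) := by
          rw [f2]
          calc g * (uu c₀ L * uu c₁ L * k) = (g * uu c₀ L) * uu c₁ L * k := by
                simp only [mul_assoc]
            _ = uu c₀ L * g * κ₀ * uu c₁ L * k := by rw [f0]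
            _ = uu c₀ L * g * (κ₀ * uu c₁ L) * k := by simp only [mul_assoc]
            _ = uu c₀ L * g * (uu c₁ L * κ₀) * k := by rw [hκ₀]
            _ = uu c₀ L * (g * uu c₁ L) * κ₀ * k := by simp only [mul_assoc]
            _ = uu c₀ L * (uu c₁ L * g * κ₁) * κ₀ * k := by rw [f1]
            _ = uu c₀ L * uu c₁ L * (g * κ₁ * κ₀ * k) := by simp only [mul_assoc]
            _ = uu c₀ L * uu c₁ L * (k * (g * κ₁ * κ₀)) := by rw [hk]
            _ = uu c₀ L * uu c₁ L * k * g * (κ₁ * κ₀) := by simp only [mul_assoc]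
            _ = uu c₀ L * uu c₁ L * k * g * (κ₀ * κ₁) := by rw [hκ₀ κ₁]
        calc x.2.2.1 = g * (g⁻¹ * x.2.2.1) := by group
          _ = g * (uu (fun s => c₀ s * c₁ s) L * (g⁻¹ * x.2.2.2) * (z₀ * z₁)) := by rw [e2]
          _ = (g * uu (fun s => c₀ s * c₁ s) L) * g⁻¹ * x.2.2.2 * (z₀ * z₁) := by group
          _ = uu (fun s => c₀ s * c₁ s) L * g * (κ₀ * κ₁) * g⁻¹ * x.2.2.2 * (z₀ * z₁) := by
              rw [f3]
          _ = uu (fun s => c₀ s * c₁ s) L * g * (κ₀ * (κ₁ * (g⁻¹ * x.2.2.2))) * (z₀ * z₁) := by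
              simp only [mul_assoc]
          _ = uu (fun s => c₀ s * c₁ s) L * g * (g⁻¹ * x.2.2.2 * κ₁ * κ₀) * (z₀ * z₁) := by
              rw [← hκ₁ (g⁻¹ * x.2.2.2), ← hκ₀ (g⁻¹ * x.2.2.2 * κ₁)]
          _ = uu (fun s => c₀ s * c₁ s) L * x.2.2.2 * (κ₁ * κ₀ * z₀ * z₁) := by group
          _ = uu (fun s => c₀ s * c₁ s) L * x.2.2.2 * (κ₀ * z₀ * (κ₁ * z₁)) := by
              congr 1
              rw [hκ₀ κ₁, mul_assoc κ₀ κ₁ z₀, ← hκ₁ z₀]
              simp only [mul_assoc]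
    | some s =>
      have hys := lt_some_ne hy
      subst hys
      simp only [Prod.inv_mk, Prod.fst_mul, Prod.snd_mul, inv_one, one_mul] at e0 e1 e2
      refine ⟨z₀, z₁, hz₀, hz₁, ?_, ?_, ?_⟩
      · show x.1 = c₀ s * uu c₀ L * x.2.2.2 * z₀
        calc x.1 = c₀ s * ((c₀ s)⁻¹ * x.1) := by group
          _ = _ := by rw [e0]; simp only [mul_assoc]
      · show x.2.1 = c₁ s * uu c₁ L * x.2.2.2 * z₁
        calc x.2.1 = c₁ s * ((c₁ s)⁻¹ * x.2.1) := by group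
          _ = _ := by rw [e1]; simp only [mul_assoc]
      · show x.2.2.1 = c₀ s * c₁ s * uu (fun s => c₀ s * c₁ s) L * x.2.2.2 * (z₀ * z₁)
        calc x.2.2.1 = (c₀ s * c₁ s) * ((c₀ s * c₁ s)⁻¹ * x.2.2.1) := by group
          _ = _ := by rw [e2]; simp only [mul_assoc]

/-- three typical words whose alternating product is a pure `p`-run -/
theorem word_three (hcl : Cl2 G) (p : G → ℝ) (c₀ c₁ : A → G) (L : List (Option A)) (x : W4 G)
    (hx : Jt p c₀ c₁ L x ≠ 0) : x.1 * (x.2.2.1⁻¹ * x.2.1) =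
      uu c₀ L * (uu (fun s => c₀ s * c₁ s) L)⁻¹ * uu c₁ L * x.2.2.2 := by
  obtain ⟨z₀, z₁, hz₀, hz₁, e0, e1, e2⟩ := supp_two hcl p c₀ c₁ L x hx
  rw [e0, e1, e2]
  have h1 : z₀ * (z₀ * z₁)⁻¹ = z₁⁻¹ := by
    rw [← hz₀ z₁]
    group
  calc uu c₀ L * x.2.2.2 * z₀ * ((uu (fun s => c₀ s * c₁ s) L * x.2.2.2 * (z₀ * z₁))⁻¹ *
        (uu c₁ L * x.2.2.2 * z₁)) = uu c₀ L * x.2.2.2 * (z₀ * (z₀ * z₁)⁻¹) * x.2.2.2⁻¹ *
        (uu (fun s => c₀ s * c₁ s) L)⁻¹ * (uu c₁ L * x.2.2.2 * z₁) := by group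
    _ = uu c₀ L * x.2.2.2 * (z₁⁻¹ * (x.2.2.2⁻¹ *
        (uu (fun s => c₀ s * c₁ s) L)⁻¹ * (uu c₁ L * x.2.2.2 * z₁))) := by
        rw [h1]
        simp only [mul_assoc]
    _ = uu c₀ L * x.2.2.2 * (z₁⁻¹ * ((x.2.2.2⁻¹ *
        (uu (fun s => c₀ s * c₁ s) L)⁻¹ * (uu c₁ L * x.2.2.2)) * z₁)) := by
        simp only [mul_assoc]
    _ = uu c₀ L * x.2.2.2 * (z₁⁻¹ * (z₁ * (x.2.2.2⁻¹ *
        (uu (fun s => c₀ s * c₁ s) L)⁻¹ * (uu c₁ L * x.2.2.2)))) := by rw [hz₁]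
    _ = uu c₀ L * (uu (fun s => c₀ s * c₁ s) L)⁻¹ * uu c₁ L * x.2.2.2 := by group

theorem uu_one (c : A → G) (hc : ∀ s, c s = 1) (L : List (Option A)) : uu c L = 1 := by
  induction L with
  | nil => rfl
  | cons l L ih =>
    cases l with
    | none => exact ih
    | some s =>
      show c s * uu c L = 1
      rw [hc, ih, one_mul]

theorem supp_inv (p : G → ℝ) (c₀ c₁ : A → G) (hc : ∀ s, c₀ s * c₁ s = 1)
    (L : List (Option A)) : ∀ x : W4 G, Jt p c₀ c₁ L x ≠ 0 → x.2.2.1 = x.2.2.2 := by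
  induction L with
  | nil =>
    intro x hx
    have hx1 : x = 1 := dl_ne hx
    subst hx1
    rfl
  | cons l L ih =>
    intro x hx
    obtain ⟨y, hy, hx'⟩ := Jt_cons_ne hx
    have e := ih _ hx'
    cases l with
    | none =>
      obtain ⟨g, rfl⟩ := lt_none_ne hy
      simp only [Prod.inv_mk, Prod.fst_mul, Prod.snd_mul] at e
      exact mul_left_cancel e
    | some s =>
      have hys := lt_some_ne hy
      subst hys
      simp only [Prod.inv_mk, Prod.fst_mul, Prod.snd_mul, inv_one, one_mul, hc s] at e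
      exact e

/-- two typical words (with inverse known letters) whose product is a twisted square -/
theorem word_two (hcl : Cl2 G) (p : G → ℝ) (c₀ c₁ : A → G) (hc : ∀ s, c₀ s * c₁ s = 1)
    (L : List (Option A)) (x : W4 G) (hx : Jt p c₀ c₁ L x ≠ 0) :
    x.1 * x.2.1 = uu c₀ L * (x.2.2.2 * uu c₁ L) ^ 2 * (uu c₁ L)⁻¹ := by
  obtain ⟨z₀, z₁, hz₀, hz₁, e0, e1, e2⟩ := supp_two hcl p c₀ c₁ L x hx
  rw [uu_one _ hc, one_mul, supp_inv p c₀ c₁ hc L x hx] at e2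
  have hz : z₀ * z₁ = 1 := by
    have h : x.2.2.2 * 1 = x.2.2.2 * (z₀ * z₁) := by rw [mul_one]; exact e2
    exact (mul_left_cancel h).symm
  rw [e0, e1]
  calc uu c₀ L * x.2.2.2 * z₀ * (uu c₁ L * x.2.2.2 * z₁)
      = uu c₀ L * x.2.2.2 * (z₀ * (uu c₁ L * x.2.2.2)) * z₁ := by simp only [mul_assoc]
    _ = uu c₀ L * x.2.2.2 * ((uu c₁ L * x.2.2.2) * z₀) * z₁ := by rw [hz₀]
    _ = uu c₀ L * x.2.2.2 * uu c₁ L * x.2.2.2 * (z₀ * z₁) := by simp only [mul_assoc]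
    _ = uu c₀ L * x.2.2.2 * uu c₁ L * x.2.2.2 := by rw [hz, mul_one]
    _ = uu c₀ L * (x.2.2.2 * uu c₁ L) ^ 2 * (uu c₁ L)⁻¹ := by
        rw [pow_two]
        group

end Pool.Agent.H48.MXN
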