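import Pool.Agent.H48.MXN.Red

/-!
# The sharper reduction and nilpotent groups
-/

set_option autoImplicit false
set_option linter.unusedSectionVars false

namespace Pool.Agent.H48.MXN

open Finset Pool.Agent.H70.MX
open scoped Classical commutatorElement

variable {G : Type} [Group G] [Fintype G]

/-- contraction of the deficit by stages of length `R + 1`, then the Hellinger criterion -/
theorem finish' {p q : G → ℝ} (hp : IsP p) (hps : iv p = p) (hq : IsP q) (a : ℕ) (ha : 1 ≤ a)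
    (hle : ∀ x, p x ≤ 2 ^ a * q x) (hq1 : 1 / 2 ≤ q 1) (T : ℕ) (hT : 1 ≤ T) (hmix : Mx p T) (R : ℕ)
    (h : ∀ t, dfc (pw q (t + (R + 1))) ≤ (1 - 1 / 2 ^ a / (8 * T)) * dfc (pw q t)) :
    ∃ t : ℕ, (t : ℝ) ≤ 2 ^ (a + 9) * ((R + 1) * T *
      Real.log (3 + Real.log (Fintype.card G) / (R + 1))) ∧ Mx q t := by
  have hTR : (1 : ℝ) ≤ T := by exact_mod_cast hT
  have hA : 0 ≤ Real.log (Fintype.card G) := Real.log_natCast_nonneg _
  obtain ⟨A, hAdef⟩ : ∃ A : ℝ, A = Real.log (Fintype.card G) := ⟨_, rfl⟩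
  rw [← hAdef] at hA ⊢
  have hR : (0 : ℝ) < (R : ℝ) + 1 := by positivity
  obtain ⟨x, hx⟩ : ∃ x : ℝ, x = A / ((R : ℝ) + 1) := ⟨_, rfl⟩
  rw [← hx]
  have hx0 : 0 ≤ x := by rw [hx]; positivity
  have hxA : A = (R + 1) * x := by rw [hx]; field_simp
  have hlog1 : 1 ≤ Real.log (3 + x) := by
    rw [Real.le_log_iff_exp_le (by positivity)]
    have := Real.exp_one_lt_d9
    linarith
  have h2a : (0 : ℝ) < 2 ^ a := by positivity
  have h2a1 : (1 : ℝ) ≤ 2 ^ a := one_le_pow₀ (by norm_num)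
  obtain ⟨i, hi⟩ : ∃ i : ℕ, i = ⌈8 * 2 ^ a * T * Real.log (3 + x)⌉₊ := ⟨_, rfl⟩
  have hi1 : 8 * 2 ^ a * T * Real.log (3 + x) ≤ i := by rw [hi]; exact Nat.le_ceil _
  have hi2 : (i : ℝ) ≤ 8 * 2 ^ a * T * Real.log (3 + x) + 1 := by
    have h1 := Nat.ceil_lt_add_one (a := 8 * 2 ^ a * T * Real.log (3 + x)) (by positivity)
    rw [← hi] at h1
    exact h1.le
  have hc : 0 ≤ 1 - 1 / 2 ^ a / (8 * (T : ℝ)) := by
    have : 1 / 2 ^ a / (8 * (T : ℝ)) ≤ 1 := by
      rw [div_div, div_le_one (by positivity)]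
      nlinarith
    linarith
  -- deficit at the end of the stages
  have hD : dfc (pw q (i * (R + 1))) ≤ R + 1 := by
    refine (iter_dfc hq (R + 1) _ hc h i).trans ?_
    rw [← hAdef]
    have h1 : (1 - 1 / 2 ^ a / (8 * (T : ℝ))) ^ i ≤ Real.exp (-Real.log (3 + x)) := by
      calc (1 - 1 / 2 ^ a / (8 * (T : ℝ))) ^ i ≤ Real.exp (-(1 / 2 ^ a / (8 * (T : ℝ)))) ^ i := by
            refine pow_le_pow_left₀ hc ?_ i
            have := Real.add_one_le_exp (-(1 / 2 ^ a / (8 * (T : ℝ))))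
            linarith
        _ = Real.exp (i * -(1 / 2 ^ a / (8 * (T : ℝ)))) := by rw [← Real.exp_nat_mul]
        _ ≤ Real.exp (-Real.log (3 + x)) := by
            rw [Real.exp_le_exp]
            have h2 := mul_le_mul_of_nonneg_left hi1
              (show 0 ≤ 1 / 2 ^ a / (8 * (T : ℝ)) by positivity)
            have h3 : 1 / 2 ^ a / (8 * (T : ℝ)) * (8 * 2 ^ a * T * Real.log (3 + x)) =
                Real.log (3 + x) := by
              field_simp
            rw [h3] at h2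
            linarith
    rw [Real.exp_neg, Real.exp_log (by positivity)] at h1
    refine (mul_le_mul_of_nonneg_right h1 hA).trans ?_
    rw [hxA, inv_mul_le_iff₀ (by positivity)]
    nlinarith
  -- the linear phase
  obtain ⟨n, hn⟩ : ∃ n : ℕ, n = 2 ^ (a + 8) * T * (R + 1) := ⟨_, rfl⟩
  have hn0 : 0 < n := by rw [hn]; positivity
  have hmixm := pw_half hp hps T hmix
  have hex : ∃ s, i * (R + 1) ≤ s ∧ s < i * (R + 1) + n ∧ Mx q s := by
    by_contra hno
    push Not at hno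
    have hinc : ∀ j, j < n → 1 / (2 ^ (a + 8) * (T : ℝ)) <
        Ent (pw q (i * (R + 1) + j + 1)) - Ent (pw q (i * (R + 1) + j)) := by
      intro j hj
      by_contra hle'
      push Not at hle'
      exact hno (i * (R + 1) + j) (by omega) (by omega)
        (tv_small hp hps hq a T _ hT ha hle hq1 hmixm hle')
    have hsum : ∀ j, j ≤ n → (j : ℝ) * (1 / (2 ^ (a + 8) * (T : ℝ))) ≤
        Ent (pw q (i * (R + 1) + j)) - Ent (pw q (i * (R + 1))) := by
      intro j
      induction j with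
      | zero => intro _; simp
      | succ j ih =>
        intro hj
        have h1 := ih (by omega)
        have h2 := hinc j (by omega)
        rw [← add_assoc]
        push_cast
        linarith
    have hlast : ((n : ℝ)) * (1 / (2 ^ (a + 8) * (T : ℝ))) <
        Ent (pw q (i * (R + 1) + n)) - Ent (pw q (i * (R + 1))) := by
      obtain ⟨n', rfl⟩ : ∃ n', n = n' + 1 := ⟨n - 1, by omega⟩
      have h1 := hsum n' (by omega)
      have h2 := hinc n' (by omega)
      rw [← add_assoc]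
      push_cast
      linarith
    have h3 : (n : ℝ) * (1 / (2 ^ (a + 8) * (T : ℝ))) = R + 1 := by
      rw [hn]
      push_cast
      field_simp
    rw [h3] at hlast
    have h4 := dfc_nonneg (pw_isP hq (i * (R + 1) + n))
    unfold dfc at hD h4
    linarith
  obtain ⟨s, _, hs2, hs3⟩ := hex
  refine ⟨s, ?_, hs3⟩
  have h1 : (s : ℝ) ≤ i * (R + 1) + n := by exact_mod_cast hs2.le
  have h2 : (n : ℝ) = 2 ^ (a + 8) * T * (R + 1) := by
    rw [hn]
    push_cast
    ring
  rw [h2] at h1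
  have h3 : (i : ℝ) * (R + 1) ≤ (8 * 2 ^ a * T * Real.log (3 + x) + 1) * (R + 1) :=
    mul_le_mul_of_nonneg_right hi2 hR.le
  have e8 : (2 : ℝ) ^ (a + 8) = 256 * 2 ^ a := by rw [pow_add]; norm_num; ring
  have e9 : (2 : ℝ) ^ (a + 9) = 512 * 2 ^ a := by rw [pow_add]; norm_num; ring
  rw [e8] at h1
  rw [e9]
  obtain ⟨L, hL⟩ : ∃ L : ℝ, L = Real.log (3 + x) := ⟨_, rfl⟩
  rw [← hL] at h3 hlog1 ⊢
  have h4 : 1 ≤ 2 ^ a * (T : ℝ) * L := by
    have : 1 ≤ 2 ^ a * (T : ℝ) := by nlinarith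
    nlinarith
  have h5 : 2 ^ a * (T : ℝ) ≤ 2 ^ a * (T : ℝ) * L := by
    have : 0 < 2 ^ a * (T : ℝ) := by positivity
    nlinarith
  calc (s : ℝ) ≤ (8 * 2 ^ a * T * L + 1) * (R + 1) + 256 * 2 ^ a * T * (R + 1) := by linarith
    _ = (8 * (2 ^ a * T * L) + 1 + 256 * (2 ^ a * T)) * (R + 1) := by ring
    _ ≤ (512 * (2 ^ a * T * L)) * (R + 1) := by
        refine mul_le_mul_of_nonneg_right ?_ hR.le
        linarith
    _ = 512 * 2 ^ a * ((R + 1) * T * L) := by ring

/-- the sharper reduction -/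
theorem reduce' (N : Subgroup G) [hN : N.Normal] {p q : G → ℝ} (hp : IsP p) (hps : iv p = p)
    (hq : IsP q) (hqs : iv q = q) (a : ℕ) (ha : 1 ≤ a)
    (hle : ∀ x, p x ≤ 2 ^ a * q x) (hq1 : 1 / 2 ≤ q 1) (hinv : NInv N p ∨ NInv N q) (T : ℕ)
    (hT : 1 ≤ T) (hmix : Mx p T) (r R : ℕ) (hrR : 2 * r ≤ R)
    (hr : Mx (push (QuotientGroup.mk' N) q) r) :
    ∃ t : ℕ, (t : ℝ) ≤ 2 ^ (a + 9) * ((R + 1) * T *
      Real.log (3 + Real.log (Fintype.card G) / (R + 1))) ∧ Mx q t := by
  have h2a1 : (2 : ℝ) ≤ 2 ^ a := by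
    calc (2 : ℝ) = 2 ^ 1 := by norm_num
      _ ≤ 2 ^ a := pow_le_pow_right₀ (by norm_num) ha
  have hle' : ∀ x, 1 / 2 ^ a * p x ≤ q x := by
    intro x
    rw [one_div, inv_mul_le_iff₀ (by positivity)]
    exact hle x
  have hα1 : 1 / (2 : ℝ) ^ a < 1 := by
    rw [div_lt_one (by positivity)]
    linarith
  refine finish' hp hps hq a ha hle hq1 T hT hmix R fun t => ?_
  have hν := pw_isP hq t
  have hκ := pw_isP hq R
  have e1 : pw q (t + (R + 1)) = cv (cv (pw q t) (pw q R)) q := by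
    have h1 := pw_one q
    rw [← add_assoc, pw_add q (t + R) 1, pw_add q t R, h1]
  rw [e1]
  refine stage hν hκ hp hq _ (by positivity) hα1 hle' T hT (pw_half hp hps T hmix (2 * T) le_rfl) ?_
  have hg : ∀ n ∈ N, ∀ g : G, gain (pw q t) p (g * n) = gain (pw q t) p g := by
    intro n hn g
    rcases hinv with h | h
    · exact gain_inv_p h hn g
    · exact gain_inv_q h hn t g
  refine push_avg (QuotientGroup.mk' N) (QuotientGroup.mk'_surjective N) _ _
    (fun y => gain (pw q t) p (Quotient.out y)) ?_ (fun y => gain_nonneg hν hp _) ?_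
  · intro x
    have h1 : (QuotientGroup.mk (Quotient.out (QuotientGroup.mk' N x)) : G ⧸ N) =
        QuotientGroup.mk x := Quotient.out_eq _
    rw [QuotientGroup.eq] at h1
    have h2 := hg _ h1 (Quotient.out (QuotientGroup.mk' N x))
    rw [mul_inv_cancel_left] at h2
    exact h2
  · intro y
    rw [push_pw]
    exact pw_half (push_isP _ hq) (by rw [← push_iv, hqs]) r hr R hrR y

theorem push_one_ge {H : Type} [Group H] [Fintype H] (φ : G →* H) {q : G → ℝ} (hq : IsP q)
    (h : 1 / 2 ≤ q 1) : 1 / 2 ≤ push φ q 1 := by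
  refine h.trans ?_
  unfold push
  have h1 := Finset.single_le_sum (f := fun x => if φ x = 1 then q x else 0)
    (fun x _ => by
      split_ifs
      · exact hq.1 x
      · exact le_rfl) (Finset.mem_univ (1 : G))
  simpa using h1

theorem central_inv {N : Subgroup G} (hN : N ≤ Subgroup.center G) (f : G → ℝ) : NInv N f := by
  intro n hn x
  have h := Subgroup.mem_center_iff.1 (hN hn) x
  congr 1
  rw [← h, mul_inv_cancel_right]

/-- nilpotent groups of class at most `c + 1` -/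
theorem nil_mix (a : ℕ) (ha : 1 ≤ a) (c : ℕ) : ∃ K : ℝ, 1 ≤ K ∧
    ∀ (G : Type) (_ : Group G) (_ : Fintype G), (⊤ : Subgroup G).lowerCentralSeries (c + 1) = ⊥ →
    ∀ (p q : G → ℝ), IsP p → iv p = p → IsP q → iv q = q → (∀ x, p x ≤ 2 ^ a * q x) →
    1 / 2 ≤ q 1 → ∀ T : ℕ, 1 ≤ T → Mx p T → ∀ Λ : ℝ, 1 ≤ Λ →
    Real.log (3 + Real.log (Fintype.card G)) ≤ Λ →
    ∃ t : ℕ, (t : ℝ) ≤ K * ((T : ℝ) ^ (c + 1) * Λ ^ c) ∧ Mx q t := by
  have h2a1 : (2 : ℝ) ≤ 2 ^ a := by
    calc (2 : ℝ) = 2 ^ 1 := by norm_num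
      _ ≤ 2 ^ a := pow_le_pow_right₀ (by norm_num) ha
  induction c with
  | zero =>
    refine ⟨35 * 2 ^ a, by linarith, ?_⟩
    intro G _ _ hG p q hp hps hq hqs hle hq1 T hT hmix Λ hΛ hΛG
    have hcomm : IsMulCommutative G := Subgroup.lowerCentralSeries_one_eq_bot_iff.1 hG
    have hc : cv p q = cv q p := by
      funext x
      rw [cv_apply' q p]
      unfold cv
      refine Finset.sum_congr rfl fun y _ => ?_
      rw [mul_comm, hcomm.is_comm.comm x y⁻¹]
    have hle' : ∀ x, 1 / 2 ^ a * p x ≤ q x := by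
      intro x
      rw [one_div, inv_mul_le_iff₀ (by positivity)]
      exact hle x
    have hα1 : 1 / (2 : ℝ) ^ a < 1 := by
      rw [div_lt_one (by positivity)]
      linarith
    obtain ⟨t, ht1, ht2⟩ := comm_mix hp hps hq (1 / 2 ^ a) (by positivity) hα1 hle' hc T hT hmix
    refine ⟨t, ht1.trans (le_of_eq ?_), ht2⟩
    rw [div_div_eq_mul_div]
    ring
  | succ c ih =>
    obtain ⟨K, hK1, ih⟩ := ih
    refine ⟨2 ^ (a + 9) * (3 * K), ?_, ?_⟩
    · have : (1 : ℝ) ≤ 2 ^ (a + 9) := one_le_pow₀ (by norm_num)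
      nlinarith
    intro G _ _ hG p q hp hps hq hqs hle hq1 T hT hmix Λ hΛ hΛG
    have hTR : (1 : ℝ) ≤ T := by exact_mod_cast hT
    obtain ⟨N, hNdef⟩ : ∃ N : Subgroup G, N = (⊤ : Subgroup G).lowerCentralSeries (c + 1) :=
      ⟨_, rfl⟩
    have hNn : N.Normal := by rw [hNdef]; infer_instance
    have hNc : N ≤ Subgroup.center G := by
      intro n hn
      rw [Subgroup.mem_center_iff]
      intro g
      have h1 : ⁅n, g⁆ ∈ (⊤ : Subgroup G).lowerCentralSeries (c + 1 + 1) := by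
        rw [Subgroup.lowerCentralSeries_succ, ← hNdef]
        exact Subgroup.commutator_mem_commutator hn (Subgroup.mem_top g)
      rw [hG, Subgroup.mem_bot, commutatorElement_eq_one_iff_mul_comm] at h1
      exact h1.symm
    have hsurj := QuotientGroup.mk'_surjective N
    have hquot : (⊤ : Subgroup (G ⧸ N)).lowerCentralSeries (c + 1) = ⊥ := by
      rw [← Subgroup.map_top_of_surjective _ hsurj, ← Subgroup.map_lowerCentralSeries, ← hNdef,
        QuotientGroup.map_mk'_self]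
    have hcard : Real.log (3 + Real.log (Fintype.card (G ⧸ N))) ≤ Λ := by
      refine le_trans ?_ hΛG
      have h1 : (Fintype.card (G ⧸ N) : ℝ) ≤ Fintype.card G := by
        exact_mod_cast Fintype.card_le_of_surjective _ hsurj
      have h2 : (0 : ℝ) < Fintype.card (G ⧸ N) := card_pos'
      have h3 := Real.log_le_log h2 h1
      have h4 : 0 ≤ Real.log (Fintype.card (G ⧸ N)) := Real.log_natCast_nonneg _
      exact Real.log_le_log (by linarith) (by linarith)
    obtain ⟨r, hr1, hr2⟩ := ih (G ⧸ N) _ _ hquot (push (QuotientGroup.mk' N) p)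
      (push (QuotientGroup.mk' N) q) (push_isP _ hp) (by rw [← push_iv, hps]) (push_isP _ hq)
      (by rw [← push_iv, hqs])
      (fun y => by
        have h1 := push_le (QuotientGroup.mk' N) (p := p) (q := fun x => 2 ^ a * q x) 1
          (fun x => by rw [one_mul]; exact hle x) y
        have h2 : push (QuotientGroup.mk' N) (fun x => 2 ^ a * q x) y =
            2 ^ a * push (QuotientGroup.mk' N) q y := by
          unfold push
          rw [Finset.mul_sum]
          refine Finset.sum_congr rfl fun x _ => ?_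
          split_ifs
          · rfl
          · simp
        rw [one_mul, h2] at h1
        exact h1)
      (push_one_ge _ hq hq1) T hT (push_Mx _ hsurj p T hmix) Λ hΛ hcard
    obtain ⟨t, ht1, ht2⟩ := reduce' N hp hps hq hqs a ha hle hq1 (Or.inl (central_inv hNc p)) T hT
      hmix r (2 * r) le_rfl hr2
    refine ⟨t, ht1.trans ?_, ht2⟩
    have hx1 : 1 ≤ K * ((T : ℝ) ^ (c + 1) * Λ ^ c) := by
      have h1 : 1 ≤ (T : ℝ) ^ (c + 1) := one_le_pow₀ hTR
      have h2 : 1 ≤ Λ ^ c := one_le_pow₀ hΛ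
      have h3 : 1 ≤ (T : ℝ) ^ (c + 1) * Λ ^ c := by nlinarith
      nlinarith
    have hA : 0 ≤ Real.log (Fintype.card G) := Real.log_natCast_nonneg _
    have hRR : (1 : ℝ) ≤ ((2 * r : ℕ) : ℝ) + 1 := by
      have : (0 : ℝ) ≤ ((2 * r : ℕ) : ℝ) := Nat.cast_nonneg _
      linarith
    have hlog : Real.log (3 + Real.log (Fintype.card G) / (((2 * r : ℕ) : ℝ) + 1)) ≤ Λ := by
      refine le_trans ?_ hΛG
      have h1 : Real.log (Fintype.card G) / (((2 * r : ℕ) : ℝ) + 1) ≤
          Real.log (Fintype.card G) := div_le_self hA hRR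
      have h2 : 0 ≤ Real.log (Fintype.card G) / (((2 * r : ℕ) : ℝ) + 1) := by positivity
      exact Real.log_le_log (by linarith) (by linarith)
    have hlog0 : 0 ≤ Real.log (3 + Real.log (Fintype.card G) / (((2 * r : ℕ) : ℝ) + 1)) := by
      apply Real.log_nonneg
      have h2 : 0 ≤ Real.log (Fintype.card G) / (((2 * r : ℕ) : ℝ) + 1) := by positivity
      linarith
    have hR3 : ((2 * r : ℕ) : ℝ) + 1 ≤ 3 * K * ((T : ℝ) ^ (c + 1) * Λ ^ c) := by
      push_cast
      linarith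
    calc 2 ^ (a + 9) * ((((2 * r : ℕ) : ℝ) + 1) * T *
          Real.log (3 + Real.log (Fintype.card G) / (((2 * r : ℕ) : ℝ) + 1)))
        ≤ 2 ^ (a + 9) * ((3 * K * ((T : ℝ) ^ (c + 1) * Λ ^ c)) * T * Λ) := by
          refine mul_le_mul_of_nonneg_left ?_ (by positivity)
          refine mul_le_mul (mul_le_mul_of_nonneg_right hR3 (by positivity)) hlog hlog0 ?_
          positivity
      _ = 2 ^ (a + 9) * (3 * K) * ((T : ℝ) ^ (c + 1 + 1) * Λ ^ (c + 1)) := by ring

end Pool.Agent.H48.MXN
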