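import Pool.Agent.H48.MXN.Three
import Pool.Agent.H48.MXN.Nil

/-!
# Class two: slowdown at most `exp (K sqrt (log log |G|))`
-/

set_option autoImplicit false
set_option linter.unusedSectionVars false

namespace Pool.Agent.H48.MXN

open Finset Pool.Agent.H70.MX
open scoped Classical commutatorElement

variable {G : Type} [Group G] [Fintype G]

theorem dfc_anti {q : G → ℝ} (hq : IsP q) (m n : ℕ) (h : m ≤ n) :
    dfc (pw q n) ≤ dfc (pw q m) := by
  unfold dfc
  linarith [Ent_pw_mono hq m n h]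

/-- summation of the three words inequality -/
theorem iter_sum (D : ℕ → ℝ) (hanti : ∀ m n, m ≤ n → D n ≤ D m) (hpos : ∀ n, 0 ≤ D n) (n : ℕ)
    (η : ℝ) (h : ∀ t, 2 * D (t + n) + D (2 * t + n) ≤ 2 * D t + η) (t0 m : ℕ) :
    m * D (2 * t0 + 2 * m * n) ≤ 2 * D t0 + m * η := by
  have key : ∀ i : ℕ, i ≤ m → 2 * D (t0 + i * n) + i * D (2 * t0 + 2 * m * n) ≤
      2 * D t0 + i * η := by
    intro i
    induction i with
    | zero => intro _; simp
    | succ i ih =>
      intro hi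
      have h1 := ih (by omega)
      have h2 := h (t0 + i * n)
      have h3 : D (2 * t0 + 2 * m * n) ≤ D (2 * (t0 + i * n) + n) := by
        apply hanti
        nlinarith
      have e1 : t0 + (i + 1) * n = t0 + i * n + n := by ring
      rw [e1]
      push_cast
      linarith
  have h1 := key m le_rfl
  have h2 := hpos (t0 + m * n)
  linarith

theorem iter_three (D : ℕ → ℝ) (hanti : ∀ m n, m ≤ n → D n ≤ D m) (hpos : ∀ n, 0 ≤ D n) (n : ℕ)
    (η K : ℝ) (hη : 0 ≤ η) (hK : D 0 ≤ K)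
    (h : ∀ t, 2 * D (t + n) + D (2 * t + n) ≤ 2 * D t + η) (k : ℕ) :
    D (8 * 4 ^ k * n) ≤ K * (1 / 2) ^ (k * (k + 1)) + 2 * η := by
  induction k with
  | zero =>
    have h1 := hanti 0 (8 * 4 ^ 0 * n) (Nat.zero_le _)
    simp at h1 ⊢
    linarith
  | succ k ih =>
    have h1 := iter_sum D hanti hpos n η h (8 * 4 ^ k * n) (8 * 4 ^ k)
    have e1 : 2 * (8 * 4 ^ k * n) + 2 * (8 * 4 ^ k) * n = 8 * 4 ^ (k + 1) * n := by
      rw [pow_succ]
      ring
    rw [e1] at h1
    have hm : (0 : ℝ) < ((8 * 4 ^ k : ℕ) : ℝ) := by positivity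
    have h2 : D (8 * 4 ^ (k + 1) * n) ≤ 2 / ((8 * 4 ^ k : ℕ) : ℝ) * D (8 * 4 ^ k * n) + η := by
      have h3 : D (8 * 4 ^ (k + 1) * n) = (((8 * 4 ^ k : ℕ) : ℝ) * D (8 * 4 ^ (k + 1) * n)) /
          ((8 * 4 ^ k : ℕ) : ℝ) := by
        field_simp
      rw [h3, div_le_iff₀ hm]
      refine h1.trans (le_of_eq ?_)
      field_simp
    have e2 : 2 / ((8 * 4 ^ k : ℕ) : ℝ) = (1 / 2) ^ (2 * k + 2) := by
      push_cast
      rw [show (4 : ℝ) = 2 ^ 2 by norm_num, ← pow_mul, one_div_pow, pow_add]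
      field_simp
      norm_num
    rw [e2] at h2
    have h4 := mul_le_mul_of_nonneg_left ih (show (0 : ℝ) ≤ (1 / 2) ^ (2 * k + 2) by positivity)
    have e3 : (1 / 2 : ℝ) ^ (2 * k + 2) * (K * (1 / 2) ^ (k * (k + 1)) + 2 * η) =
        K * (1 / 2) ^ ((k + 1) * (k + 1 + 1)) + (1 / 2) ^ (2 * k + 2) * (2 * η) := by
      have : (k + 1) * (k + 1 + 1) = (2 * k + 2) + k * (k + 1) := by ring
      rw [this, pow_add (1 / 2 : ℝ) (2 * k + 2)]
      ring
    rw [e3] at h4
    have h5 : (1 / 2 : ℝ) ^ (2 * k + 2) * (2 * η) ≤ 1 / 4 * (2 * η) := by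
      refine mul_le_mul_of_nonneg_right ?_ (by positivity)
      rw [pow_add]
      have : (1 / 2 : ℝ) ^ (2 * k) ≤ 1 := pow_le_one₀ (by norm_num) (by norm_num)
      linarith
    linarith

theorem exp_one_gt : (2 : ℝ) ≤ Real.exp 1 := by
  have := Real.add_one_le_exp (1 : ℝ)
  linarith

theorem pow_eq_exp (b : ℝ) (hb : 0 < b) (m : ℕ) : b ^ m = Real.exp (m * Real.log b) := by
  rw [Real.exp_nat_mul, Real.exp_log hb]

/-- class two, any order -/
theorem cl2_mix (hcl : Cl2 G) {p q : G → ℝ} (hp : IsP p) (hps : iv p = p) (hq : IsP q)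
    (hqs : iv q = q) (α : ℝ) (hα0 : 0 < α) (hα1 : α ≤ 1 / 4) (hle : ∀ x, α * p x ≤ q x)
    (hq1 : 1 / 2 ≤ q 1) (T : ℕ) (hT : 1 ≤ T) (hmix : Mx p T) (Λ : ℝ) (hΛ : 1 ≤ Λ)
    (hΛG : Real.log (3 + Real.log (Fintype.card G)) ≤ Λ) :
    ∃ t : ℕ, (t : ℝ) ≤ T * Real.exp ((Real.log (560 / α) + 8) * √Λ) ∧ Mx q t := by
  have hTR : (1 : ℝ) ≤ T := by exact_mod_cast hT
  have hTα : 1 ≤ T / α := by
    rw [le_div_iff₀ hα0]
    linarith
  have hK : 0 ≤ Real.log (Fintype.card G) := Real.log_natCast_nonneg _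
  obtain ⟨K, hKdef⟩ : ∃ K : ℝ, K = Real.log (Fintype.card G) := ⟨_, rfl⟩
  rw [← hKdef] at hK hΛG
  have hKe : K ≤ Real.exp Λ := by
    rw [Real.log_le_iff_le_exp (by positivity)] at hΛG
    linarith
  obtain ⟨s, hs⟩ : ∃ s : ℝ, s = √Λ := ⟨_, rfl⟩
  have hs0 : 0 ≤ s := by rw [hs]; exact Real.sqrt_nonneg _
  have hss : s ^ 2 = Λ := by rw [hs]; exact Real.sq_sqrt (by linarith)
  have hs1 : 1 ≤ s := by nlinarith
  rw [← hs]
  obtain ⟨j, hj⟩ : ∃ j : ℕ, j = ⌈9 * Λ⌉₊ := ⟨_, rfl⟩
  have hj1 : 9 * Λ ≤ j := by rw [hj]; exact Nat.le_ceil _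
  have hj2 : (j : ℝ) ≤ 10 * Λ := by
    have h1 := Nat.ceil_lt_add_one (a := 9 * Λ) (by linarith)
    rw [← hj] at h1
    linarith
  have hjpos : (1 : ℝ) ≤ j := by linarith
  obtain ⟨n, hn⟩ : ∃ n : ℕ, n = ⌈6 * (T / α) * j⌉₊ := ⟨_, rfl⟩
  have hn1 : 6 * (T / α) * j ≤ n := by rw [hn]; exact Nat.le_ceil _
  have hTαj : 1 ≤ T / α * j := by nlinarith
  have hn2 : (n : ℝ) ≤ 7 * (T / α * j) := by
    have := Nat.ceil_lt_add_one (a := 6 * (T / α) * j) (by positivity)
    rw [← hn] at this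
    linarith
  obtain ⟨k, hk⟩ : ∃ k : ℕ, k = ⌈3 * s⌉₊ := ⟨_, rfl⟩
  have hk1 : 3 * s ≤ k := by rw [hk]; exact Nat.le_ceil _
  have hk2 : (k : ℝ) ≤ 3 * s + 1 := by
    have h1 := Nat.ceil_lt_add_one (a := 3 * s) (by linarith)
    rw [← hk] at h1
    exact h1.le
  -- powers of one half against `K`
  have hhalf : ∀ m : ℕ, 9 * Λ ≤ m → K * (1 / 2) ^ m ≤ 1 / 128 := by
    intro m hm
    have h1 : (1 / 2 : ℝ) ^ m = Real.exp (-(m * Real.log 2)) := by
      rw [one_div, inv_pow, Real.exp_neg, pow_eq_exp 2 (by norm_num) m]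
    rw [h1]
    have hl2 := Real.log_two_gt_d9
    have h2 : Real.exp (-(m * Real.log 2)) ≤ Real.exp (-Λ + -5) := by
      rw [Real.exp_le_exp]
      nlinarith
    have h3 : Real.exp (-5) ≤ 1 / 128 := by
      have h4 : (128 : ℝ) ≤ Real.exp 5 := by
        have h5 := Real.exp_one_gt_d9
        have h6 : Real.exp 5 = Real.exp 1 ^ 5 := by
          rw [← Real.exp_nat_mul]
          norm_num
        rw [h6]
        calc (128 : ℝ) ≤ 2.7 ^ 5 := by norm_num
          _ ≤ Real.exp 1 ^ 5 := pow_le_pow_left₀ (by norm_num) (by linarith) 5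
      rw [Real.exp_neg, inv_eq_one_div]
      exact one_div_le_one_div_of_le (by norm_num) h4
    calc K * Real.exp (-(m * Real.log 2)) ≤ Real.exp Λ * (Real.exp (-Λ) * Real.exp (-5)) := by
          refine mul_le_mul hKe ?_ (Real.exp_pos _).le (Real.exp_pos _).le
          rw [← Real.exp_add]
          exact h2
      _ = Real.exp (-5) := by
          rw [← mul_assoc, ← Real.exp_add, add_neg_cancel, Real.exp_zero, one_mul]
      _ ≤ 1 / 128 := h3
  have hη1 : K * (1 / 2) ^ j ≤ 1 / 128 := hhalf j hj1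
  have hη2 : (2 : ℝ) ^ (j * (2 * T)) * (1 - α / 2) ^ n ≤ (1 / 2) ^ j := by
    have h2 : (1 - α / 2) ^ n ≤ Real.exp (-(α / 2)) ^ n := by
      refine pow_le_pow_left₀ (by linarith) ?_ n
      have := Real.add_one_le_exp (-(α / 2))
      linarith
    rw [← Real.exp_nat_mul] at h2
    have h3 : Real.exp (n * -(α / 2)) ≤ Real.exp (-(3 * T * j)) := by
      rw [Real.exp_le_exp]
      have h4 := mul_le_mul_of_nonneg_left hn1 (show 0 ≤ α / 2 by linarith)
      have h5 : α / 2 * (6 * (T / α) * j) = 3 * T * j := by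
        field_simp
        ring
      rw [h5] at h4
      linarith
    have h4 : (2 : ℝ) ^ (j * (2 * T)) ≤ Real.exp (2 * T * j) := by
      calc (2 : ℝ) ^ (j * (2 * T)) ≤ Real.exp 1 ^ (j * (2 * T)) :=
            pow_le_pow_left₀ (by norm_num) exp_one_gt _
        _ = Real.exp (2 * T * j) := by
          rw [← Real.exp_nat_mul]
          push_cast
          ring_nf
    calc (2 : ℝ) ^ (j * (2 * T)) * (1 - α / 2) ^ n ≤
          Real.exp (2 * T * j) * Real.exp (-(3 * T * j)) :=
          mul_le_mul h4 (h2.trans h3) (pow_nonneg (by linarith) _) (Real.exp_pos _).le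
      _ = Real.exp (-(T * j)) := by
          rw [← Real.exp_add]
          ring_nf
      _ ≤ Real.exp (-j) := by
          rw [Real.exp_le_exp]
          nlinarith
      _ ≤ (1 / 2) ^ j := by
          have h5 : Real.exp (-(j : ℝ)) = (Real.exp (-1)) ^ j := by
            rw [← Real.exp_nat_mul]
            ring_nf
          rw [h5]
          refine pow_le_pow_left₀ (Real.exp_pos _).le ?_ j
          rw [Real.exp_neg, inv_eq_one_div]
          exact one_div_le_one_div_of_le (by norm_num) exp_one_gt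
  have hstep : ∀ t, 2 * dfc (pw q (t + n)) + dfc (pw q (2 * t + n)) ≤
      2 * dfc (pw q t) + 1 / 64 := by
    intro t
    have h1 := step_three hcl hp hps hq hqs α hα0 hα1 hle hq1 T hmix j n t
    rw [← hKdef] at h1
    have h2 := mul_le_mul_of_nonneg_left hη2 hK
    linarith
  have hfin := iter_three (fun t => dfc (pw q t)) (fun m n h => dfc_anti hq m n h)
    (fun t => dfc_nonneg (pw_isP hq t)) n (1 / 64) K (by norm_num)
    (by rw [hKdef]; exact dfc_le (pw_isP hq 0)) hstep k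
  have hkk : K * (1 / 2) ^ (k * (k + 1)) ≤ 1 / 128 := by
    apply hhalf
    push_cast
    nlinarith
  refine ⟨8 * 4 ^ k * n, ?_, ?_⟩
  · push_cast
    have h4k : (4 : ℝ) ^ k ≤ Real.exp (6 * s) := by
      have h1 : (4 : ℝ) ^ k = Real.exp (k * Real.log 4) := pow_eq_exp 4 (by norm_num) k
      rw [h1, Real.exp_le_exp]
      have h2 : Real.log 4 ≤ 1.4 := by
        rw [show (4 : ℝ) = 2 ^ 2 by norm_num, Real.log_pow]
        have := Real.log_two_lt_d9
        push_cast
        linarith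
      have h3 : (k : ℝ) * Real.log 4 ≤ k * 1.4 :=
        mul_le_mul_of_nonneg_left h2 (Nat.cast_nonneg k)
      linarith
    have hΛs : Λ ≤ Real.exp (2 * s) := by
      rw [← hss]
      have h1 : s ≤ Real.exp s := by
        have := Real.add_one_le_exp s
        linarith
      calc s ^ 2 ≤ Real.exp s ^ 2 := pow_le_pow_left₀ hs0 h1 2
        _ = Real.exp (2 * s) := by
          rw [← Real.exp_nat_mul]
          norm_num
    have hlog : 0 ≤ Real.log (560 / α) := by
      apply Real.log_nonneg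
      rw [le_div_iff₀ hα0]
      linarith
    calc 8 * 4 ^ k * (n : ℝ) ≤ 8 * Real.exp (6 * s) * (7 * (T / α * (10 * Λ))) := by
          refine mul_le_mul (mul_le_mul_of_nonneg_left h4k (by norm_num)) ?_
            (Nat.cast_nonneg n) (by positivity)
          refine hn2.trans ?_
          have h1 : T / α * j ≤ T / α * (10 * Λ) :=
            mul_le_mul_of_nonneg_left hj2 (by positivity)
          linarith
      _ = T * (560 / α * (Real.exp (6 * s) * Λ)) := by
          field_simp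
          ring
      _ ≤ T * (Real.exp (Real.log (560 / α) * s) * (Real.exp (6 * s) * Real.exp (2 * s))) := by
          refine mul_le_mul_of_nonneg_left ?_ (by linarith)
          refine mul_le_mul ?_ (mul_le_mul_of_nonneg_left hΛs (Real.exp_pos _).le) (by positivity)
            (Real.exp_pos _).le
          calc 560 / α = Real.exp (Real.log (560 / α)) := (Real.exp_log (by positivity)).symm
            _ ≤ Real.exp (Real.log (560 / α) * s) := by
              rw [Real.exp_le_exp]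
              nlinarith
      _ = T * Real.exp ((Real.log (560 / α) + 8) * s) := by
          rw [← Real.exp_add, ← Real.exp_add]
          congr 2
          ring
  · unfold Mx
    apply tv_of_dfc (pw_isP hq _)
    linarith

theorem cl2_of_lcs (h : (⊤ : Subgroup G).lowerCentralSeries 2 = ⊥) : Cl2 G := by
  intro x y
  refine ⟨⁅x⁻¹, y⁻¹⁆, fun g => ?_, ?_⟩
  · have h1 : ⁅x⁻¹, y⁻¹⁆ ∈ (⊤ : Subgroup G).lowerCentralSeries 1 := by
      rw [Subgroup.lowerCentralSeries_succ]
      exact Subgroup.commutator_mem_commutator (Subgroup.mem_top _) (Subgroup.mem_top _)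
    have h2 : ⁅⁅x⁻¹, y⁻¹⁆, g⁆ ∈ (⊤ : Subgroup G).lowerCentralSeries 2 := by
      rw [Subgroup.lowerCentralSeries_succ]
      exact Subgroup.commutator_mem_commutator h1 (Subgroup.mem_top g)
    rw [h, Subgroup.mem_bot, commutatorElement_eq_one_iff_mul_comm] at h2
    exact h2.symm
  · rw [commutatorElement_def]
    group

/-- nilpotent groups of class at most `k + 2` -/
theorem nil_mix2 (a : ℕ) (ha : 2 ≤ a) (k : ℕ) : ∃ B : ℝ, 0 < B ∧
    ∀ (G : Type) (_ : Group G) (_ : Fintype G), (⊤ : Subgroup G).lowerCentralSeries (k + 2) = ⊥ →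
    ∀ (p q : G → ℝ), IsP p → iv p = p → IsP q → iv q = q → (∀ x, p x ≤ 2 ^ a * q x) →
    1 / 2 ≤ q 1 → ∀ T : ℕ, 1 ≤ T → Mx p T → ∀ Λ : ℝ, 1 ≤ Λ →
    Real.log (3 + Real.log (Fintype.card G)) ≤ Λ →
    ∃ t : ℕ, (t : ℝ) ≤ (T : ℝ) ^ (k + 1) * Real.exp (B * √Λ) ∧ Mx q t := by
  have h2a : (4 : ℝ) ≤ 2 ^ a := by
    calc (4 : ℝ) = 2 ^ 2 := by norm_num
      _ ≤ 2 ^ a := pow_le_pow_right₀ (by norm_num) ha
  induction k with
  | zero =>
    refine ⟨Real.log (560 / (1 / 2 ^ a)) + 8, ?_, ?_⟩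
    · have : 0 ≤ Real.log (560 / (1 / 2 ^ a)) := by
        apply Real.log_nonneg
        rw [div_div_eq_mul_div, div_one]
        linarith
      linarith
    intro G _ _ hG p q hp hps hq hqs hle hq1 T hT hmix Λ hΛ hΛG
    have hle' : ∀ x, 1 / 2 ^ a * p x ≤ q x := by
      intro x
      rw [one_div, inv_mul_le_iff₀ (by positivity)]
      exact hle x
    have hα1 : 1 / (2 : ℝ) ^ a ≤ 1 / 4 := one_div_le_one_div_of_le (by norm_num) h2a
    obtain ⟨t, ht1, ht2⟩ := cl2_mix (cl2_of_lcs hG) hp hps hq hqs (1 / 2 ^ a) (by positivity) hα1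
      hle' hq1 T hT hmix Λ hΛ hΛG
    exact ⟨t, by simpa using ht1, ht2⟩
  | succ k ih =>
    obtain ⟨B, hB0, ih⟩ := ih
    refine ⟨B + Real.log (3 * 2 ^ (a + 9)) + 2, ?_, ?_⟩
    · have : 0 ≤ Real.log (3 * 2 ^ (a + 9)) := by
        apply Real.log_nonneg
        have : (1 : ℝ) ≤ 2 ^ (a + 9) := one_le_pow₀ (by norm_num)
        linarith
      linarith
    intro G _ _ hG p q hp hps hq hqs hle hq1 T hT hmix Λ hΛ hΛG
    have hTR : (1 : ℝ) ≤ T := by exact_mod_cast hT
    obtain ⟨N, hNdef⟩ : ∃ N : Subgroup G, N = (⊤ : Subgroup G).lowerCentralSeries (k + 2) :=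
      ⟨_, rfl⟩
    have hNn : N.Normal := by rw [hNdef]; infer_instance
    have hNc : N ≤ Subgroup.center G := by
      intro n hn
      rw [Subgroup.mem_center_iff]
      intro g
      have h1 : ⁅n, g⁆ ∈ (⊤ : Subgroup G).lowerCentralSeries (k + 1 + 2) := by
        show ⁅n, g⁆ ∈ (⊤ : Subgroup G).lowerCentralSeries (k + 2 + 1)
        rw [Subgroup.lowerCentralSeries_succ, ← hNdef]
        exact Subgroup.commutator_mem_commutator hn (Subgroup.mem_top g)
      rw [hG, Subgroup.mem_bot, commutatorElement_eq_one_iff_mul_comm] at h1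
      exact h1.symm
    have hsurj := QuotientGroup.mk'_surjective N
    have hquot : (⊤ : Subgroup (G ⧸ N)).lowerCentralSeries (k + 2) = ⊥ := by
      rw [← Subgroup.map_top_of_surjective _ hsurj, ← Subgroup.map_lowerCentralSeries, ← hNdef,
        QuotientGroup.map_mk'_self]
    have hcard : Real.log (3 + Real.log (Fintype.card (G ⧸ N))) ≤ Λ := by
      refine le_trans ?_ hΛG
      have h1 : (Fintype.card (G ⧸ N) : ℝ) ≤ Fintype.card G := by
        exact_mod_cast Fintype.card_le_of_surjective _ hsurj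
      have h2 : (0 : ℝ) < Fintype.card (G ⧸ N) := card_pos'
      have h3 := Real.log_le_log h2 h1
      have h4 : 0 ≤ Real.log (Fintype.card (G ⧸ N)) := Real.log_natCast_nonneg _
      exact Real.log_le_log (by linarith) (by linarith)
    obtain ⟨r, hr1, hr2⟩ := ih (G ⧸ N) _ _ hquot (push (QuotientGroup.mk' N) p)
      (push (QuotientGroup.mk' N) q) (push_isP _ hp) (by rw [← push_iv, hps]) (push_isP _ hq)
      (by rw [← push_iv, hqs])
      (fun y => by
        have h1 := push_le (QuotientGroup.mk' N) (p := p) (q := fun x => 2 ^ a * q x) 1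
          (fun x => by rw [one_mul]; exact hle x) y
        have h2 : push (QuotientGroup.mk' N) (fun x => 2 ^ a * q x) y =
            2 ^ a * push (QuotientGroup.mk' N) q y := by
          unfold push
          rw [Finset.mul_sum]
          refine Finset.sum_congr rfl fun x _ => ?_
          split_ifs
          · rfl
          · simp
        rw [one_mul, h2] at h1
        exact h1)
      (push_one_ge _ hq hq1) T hT (push_Mx _ hsurj p T hmix) Λ hΛ hcard
    obtain ⟨t, ht1, ht2⟩ := reduce' N hp hps hq hqs a (by omega) hle hq1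
      (Or.inl (central_inv hNc p)) T hT hmix r (2 * r) le_rfl hr2
    refine ⟨t, ht1.trans ?_, ht2⟩
    obtain ⟨s, hs⟩ : ∃ s : ℝ, s = √Λ := ⟨_, rfl⟩
    have hs0 : 0 ≤ s := by rw [hs]; exact Real.sqrt_nonneg _
    have hss : s ^ 2 = Λ := by rw [hs]; exact Real.sq_sqrt (by linarith)
    have hs1 : 1 ≤ s := by nlinarith
    rw [← hs] at hr1 ⊢
    have hx1 : 1 ≤ (T : ℝ) ^ (k + 1) * Real.exp (B * s) := by
      have h1 : 1 ≤ (T : ℝ) ^ (k + 1) := one_le_pow₀ hTR
      have h2 : 1 ≤ Real.exp (B * s) := Real.one_le_exp (by positivity)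
      nlinarith
    have hA : 0 ≤ Real.log (Fintype.card G) := Real.log_natCast_nonneg _
    have hRR : (1 : ℝ) ≤ ((2 * r : ℕ) : ℝ) + 1 := by
      have : (0 : ℝ) ≤ ((2 * r : ℕ) : ℝ) := Nat.cast_nonneg _
      linarith
    have hlog : Real.log (3 + Real.log (Fintype.card G) / (((2 * r : ℕ) : ℝ) + 1)) ≤ Λ := by
      refine le_trans ?_ hΛG
      have h1 : Real.log (Fintype.card G) / (((2 * r : ℕ) : ℝ) + 1) ≤
          Real.log (Fintype.card G) := div_le_self hA hRR
      have h2 : 0 ≤ Real.log (Fintype.card G) / (((2 * r : ℕ) : ℝ) + 1) := by positivity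
      exact Real.log_le_log (by linarith) (by linarith)
    have hlog0 : 0 ≤ Real.log (3 + Real.log (Fintype.card G) / (((2 * r : ℕ) : ℝ) + 1)) := by
      apply Real.log_nonneg
      have h2 : 0 ≤ Real.log (Fintype.card G) / (((2 * r : ℕ) : ℝ) + 1) := by positivity
      linarith
    have hR3 : ((2 * r : ℕ) : ℝ) + 1 ≤ 3 * ((T : ℝ) ^ (k + 1) * Real.exp (B * s)) := by
      push_cast
      linarith
    have hΛs : Λ ≤ Real.exp (2 * s) := by
      rw [← hss]
      have h1 : s ≤ Real.exp s := by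
        have := Real.add_one_le_exp s
        linarith
      calc s ^ 2 ≤ Real.exp s ^ 2 := pow_le_pow_left₀ hs0 h1 2
        _ = Real.exp (2 * s) := by
          rw [← Real.exp_nat_mul]
          norm_num
    have hc0 : 0 ≤ Real.log (3 * 2 ^ (a + 9)) := by
      apply Real.log_nonneg
      have : (1 : ℝ) ≤ 2 ^ (a + 9) := one_le_pow₀ (by norm_num)
      linarith
    calc 2 ^ (a + 9) * ((((2 * r : ℕ) : ℝ) + 1) * T *
          Real.log (3 + Real.log (Fintype.card G) / (((2 * r : ℕ) : ℝ) + 1)))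
        ≤ 2 ^ (a + 9) * ((3 * ((T : ℝ) ^ (k + 1) * Real.exp (B * s))) * T * Real.exp (2 * s)) := by
          refine mul_le_mul_of_nonneg_left ?_ (by positivity)
          refine mul_le_mul (mul_le_mul_of_nonneg_right hR3 (by positivity)) (hlog.trans hΛs)
            hlog0 ?_
          positivity
      _ = (T : ℝ) ^ (k + 1 + 1) * ((3 * 2 ^ (a + 9)) * (Real.exp (B * s) * Real.exp (2 * s))) := by
          ring
      _ ≤ (T : ℝ) ^ (k + 1 + 1) * (Real.exp (Real.log (3 * 2 ^ (a + 9)) * s) *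
          (Real.exp (B * s) * Real.exp (2 * s))) := by
          refine mul_le_mul_of_nonneg_left ?_ (by positivity)
          refine mul_le_mul_of_nonneg_right ?_ (by positivity)
          calc (3 * 2 ^ (a + 9) : ℝ) = Real.exp (Real.log (3 * 2 ^ (a + 9))) :=
                (Real.exp_log (by positivity)).symm
            _ ≤ Real.exp (Real.log (3 * 2 ^ (a + 9)) * s) := by
              rw [Real.exp_le_exp]
              nlinarith
      _ = (T : ℝ) ^ (k + 1 + 1) * Real.exp ((B + Real.log (3 * 2 ^ (a + 9)) + 2) * s) := by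
          rw [← Real.exp_add, ← Real.exp_add]
          congr 2
          ring

end Pool.Agent.H48.MXN
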