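import Pool.Agent.H48.MXN.Push

/-!
# Commuting laws: no logarithmic factor
-/

set_option autoImplicit false
set_option linter.unusedSectionVars false

namespace Pool.Agent.H48.MXN

open Finset Pool.Agent.H70.MX
open scoped Classical

variable {G : Type} [Group G] [Fintype G]

/-- a pointwise lower bound of the power gives geometric decay of the total variation distance -/
theorem doeblin {q : G → ℝ} (hq : IsP q) (m : ℕ) (c : ℝ) (hc1 : c < 1)
    (h : ∀ x, c * (1 / (Fintype.card G : ℝ)) ≤ pw q m x) (j : ℕ) :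
    ∑ x, |pw q (j * m) x - 1 / (Fintype.card G : ℝ)| ≤ 2 * (1 - c) ^ j := by
  have hc : 0 < 1 - c := by linarith
  obtain ⟨ρ, hρdef⟩ : ∃ ρ : G → ℝ, ρ = fun x => (pw q m x - c * unif G x) / (1 - c) := ⟨_, rfl⟩
  have hρ : IsP ρ := by
    rw [hρdef]
    refine ⟨fun x => div_nonneg (by have := h x; unfold unif; linarith) hc.le, ?_⟩
    rw [← Finset.sum_div, Finset.sum_sub_distrib, ← Finset.mul_sum, (pw_isP hq m).2,
      (unif_isP (G := G)).2, mul_one]
    exact div_self hc.ne'
  have e1 : pw q m = fun x => c * unif G x + (1 - c) * ρ x := by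
    funext x
    rw [hρdef]
    field_simp
    ring
  have key : ∀ j : ℕ, ∃ σ : G → ℝ, IsP σ ∧
      pw q (j * m) = fun x => (1 - (1 - c) ^ j) * unif G x + (1 - c) ^ j * σ x := by
    intro j
    induction j with
    | zero =>
      refine ⟨dl 1, dl_isP 1, ?_⟩
      funext x
      simp [pw_zero]
    | succ j ih =>
      obtain ⟨σ, hσ, e2⟩ := ih
      refine ⟨cv σ ρ, hσ.cv hρ, ?_⟩
      have e3 : (j + 1) * m = j * m + m := by ring
      have e4 : pw q ((j + 1) * m) = fun x => c * unif G x + (1 - c) * cv (pw q (j * m)) ρ x := by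
        rw [e3, pw_add]
        have e5 : cv (pw q (j * m)) (pw q m) =
            cv (pw q (j * m)) (fun x => c * unif G x + (1 - c) * ρ x) := by rw [← e1]
        rw [e5, cv_add_right, cv_unif (pw_isP hq _)]
      rw [e4]
      have e6 : cv (pw q (j * m)) ρ =
          fun x => (1 - (1 - c) ^ j) * unif G x + (1 - c) ^ j * cv σ ρ x := by
        rw [e2, cv_add_left, cv_unif_left hρ]
      rw [e6]
      funext x
      rw [pow_succ]
      ring
  obtain ⟨σ, hσ, e2⟩ := key j
  have hu : ∑ _x : G, 1 / (Fintype.card G : ℝ) = 1 := (unif_isP (G := G)).2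
  have hp0 : 0 ≤ (1 - c) ^ j := pow_nonneg hc.le j
  have h1 : ∀ x, |pw q (j * m) x - 1 / (Fintype.card G : ℝ)| ≤
      (1 - c) ^ j * (σ x + 1 / (Fintype.card G : ℝ)) := by
    intro x
    have e3 : pw q (j * m) x - 1 / (Fintype.card G : ℝ) =
        (1 - c) ^ j * (σ x - 1 / (Fintype.card G : ℝ)) := by
      rw [e2]
      unfold unif
      ring
    rw [e3, abs_mul, abs_of_nonneg hp0]
    refine mul_le_mul_of_nonneg_left ?_ hp0
    have h0 := hσ.1 x
    have h2 : (0 : ℝ) ≤ 1 / (Fintype.card G : ℝ) := by positivity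
    rw [abs_le]
    constructor <;> linarith
  refine (Finset.sum_le_sum fun x _ => h1 x).trans (le_of_eq ?_)
  rw [← Finset.mul_sum, Finset.sum_add_distrib, hσ.2, hu]
  ring

theorem cv_lower {f g : G → ℝ} (hf : IsP f) (c : ℝ) (hg : ∀ x, c ≤ g x) (x : G) :
    c ≤ cv f g x := by
  unfold cv
  calc c = ∑ y, f y * c := by rw [← Finset.sum_mul, hf.2, one_mul]
    _ ≤ ∑ y, f y * g (y⁻¹ * x) := Finset.sum_le_sum fun y _ =>
        mul_le_mul_of_nonneg_left (hg _) (hf.1 y)

theorem comm_pw {p q : G → ℝ} (h : cv p q = cv q p) (n : ℕ) : cv p (pw q n) = cv (pw q n) p := by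
  induction n with
  | zero => rw [pw_zero, dl_one_cv, cv_dl_one]
  | succ n ih => rw [pw_succ, ← cv_assoc, h, cv_assoc, ih, cv_assoc]

theorem comm_low {p q : G → ℝ} (hp : IsP p) (hq : IsP q) (α : ℝ) (hα0 : 0 < α) (hα1 : α < 1)
    (hle : ∀ x, α * p x ≤ q x) (hcomm : cv p q = cv q p) (n : ℕ)
    (hmix : ∀ x, 1 / (2 * (Fintype.card G : ℝ)) ≤ pw p n x) (t : ℕ) :
    ∀ m : ℕ, m ≤ n → ∀ x, (1 - 2 ^ m * (1 - α / 2) ^ t) * (1 / (2 * (Fintype.card G : ℝ))) ≤
      cv (pw q t) (pw p (n - m)) x := by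
  have hN : (0 : ℝ) < Fintype.card G := card_pos'
  have hu0 : 0 < 1 / (2 * (Fintype.card G : ℝ)) := by positivity
  have h1α : 0 < 1 - α := by linarith
  obtain ⟨υ, hυdef⟩ : ∃ υ : G → ℝ, υ = fun x => (q x - α * p x) / (1 - α) := ⟨_, rfl⟩
  have hυ : IsP υ := by
    rw [hυdef]
    refine ⟨fun x => div_nonneg (by have := hle x; linarith) h1α.le, ?_⟩
    rw [← Finset.sum_div, Finset.sum_sub_distrib, ← Finset.mul_sum, hp.2, hq.2, mul_one]
    exact div_self h1α.ne'
  have e1 : q = fun x => α * p x + (1 - α) * υ x := by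
    funext x
    rw [hυdef]
    field_simp
    ring
  induction t with
  | zero =>
    intro m _ x
    have h1 : (1 : ℝ) ≤ 2 ^ m := one_le_pow₀ (by norm_num)
    have h2 : 0 ≤ cv (pw q 0) (pw p (n - m)) x :=
      cv_nonneg (pw_isP hq 0).1 (pw_isP hp _).1 x
    rw [pow_zero, mul_one]
    refine le_trans ?_ h2
    nlinarith
  | succ t ih =>
    intro m hm x
    have hρ0 : 0 ≤ (1 - α / 2) ^ t := pow_nonneg (by linarith) t
    rcases Nat.eq_zero_or_pos m with h0 | h0
    · subst h0
      rw [Nat.sub_zero, pow_zero, one_mul]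
      have h1 := cv_lower (pw_isP hq (t + 1)) _ hmix x
      refine le_trans ?_ h1
      have h2 : 0 ≤ (1 - α / 2) ^ (t + 1) := pow_nonneg (by linarith) _
      nlinarith
    · have e2 : pw q (t + 1) = fun x => α * cv p (pw q t) x + (1 - α) * cv υ (pw q t) x := by
        rw [pw_succ]
        have e3 : cv q (pw q t) = cv (fun x => α * p x + (1 - α) * υ x) (pw q t) := by rw [← e1]
        rw [e3, cv_add_left]
      have e4 : cv (pw q (t + 1)) (pw p (n - m)) x =
          α * cv (pw q t) (pw p (n - (m - 1))) x +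
            (1 - α) * cv υ (cv (pw q t) (pw p (n - m))) x := by
        have e5 : cv (pw q (t + 1)) (pw p (n - m)) =
            cv (fun x => α * cv p (pw q t) x + (1 - α) * cv υ (pw q t) x) (pw p (n - m)) := by
          rw [← e2]
        rw [e5, cv_add_left]
        have e6 : cv (cv p (pw q t)) (pw p (n - m)) = cv (pw q t) (pw p (n - (m - 1))) := by
          have e7 : n - (m - 1) = (n - m) + 1 := by omega
          rw [e7, pw_succ, comm_pw hcomm, cv_assoc]
        simp only [e6, cv_assoc]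
      rw [e4]
      have h1 := ih (m - 1) (by omega) x
      have h2 := cv_lower hυ _ (ih m hm) x
      have e8 : (2 : ℝ) ^ m = 2 * 2 ^ (m - 1) := by
        rw [← pow_succ']
        congr 1
        omega
      rw [e8] at h2 ⊢
      have h3 := mul_le_mul_of_nonneg_left h1 hα0.le
      have h4 := mul_le_mul_of_nonneg_left h2 h1α.le
      refine le_trans (le_of_eq ?_) (add_le_add h3 h4)
      rw [pow_succ]
      ring

/-- commuting laws: the slowdown is bounded -/
theorem comm_mix {p q : G → ℝ} (hp : IsP p) (hps : iv p = p) (hq : IsP q) (α : ℝ) (hα0 : 0 < α)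
    (hα1 : α < 1) (hle : ∀ x, α * p x ≤ q x) (hcomm : cv p q = cv q p) (T : ℕ) (hT : 1 ≤ T)
    (h : Mx p T) : ∃ t : ℕ, (t : ℝ) ≤ 35 * (T / α) ∧ Mx q t := by
  have hTR : (1 : ℝ) ≤ T := by exact_mod_cast hT
  have hN : (0 : ℝ) < Fintype.card G := card_pos'
  obtain ⟨m, hm⟩ : ∃ m : ℕ, m = ⌈6 * (T / α)⌉₊ := ⟨_, rfl⟩
  have hTα : 1 ≤ T / α := by
    rw [le_div_iff₀ hα0]
    linarith
  have hm1 : 6 * (T / α) ≤ m := by rw [hm]; exact Nat.le_ceil _
  have hm2 : (m : ℝ) ≤ 7 * (T / α) := by
    have := Nat.ceil_lt_add_one (a := 6 * (T / α)) (by positivity)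
    rw [← hm] at this
    linarith
  refine ⟨5 * m, ?_, ?_⟩
  · push_cast
    linarith
  · have hlow := comm_low hp hq α hα0 hα1 hle hcomm (2 * T)
      (fun x => pw_half hp hps T h (2 * T) le_rfl x) m (2 * T) le_rfl
    have h1 : (2 : ℝ) ^ (2 * T) * (1 - α / 2) ^ m ≤ 1 / 2 := by
      have h2 : (1 - α / 2) ^ m ≤ Real.exp (-(α / 2)) ^ m := by
        refine pow_le_pow_left₀ (by linarith) ?_ m
        have := Real.add_one_le_exp (-(α / 2))
        linarith
      rw [← Real.exp_nat_mul] at h2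
      have h3 : Real.exp (m * -(α / 2)) ≤ Real.exp (-(3 * T)) := by
        rw [Real.exp_le_exp]
        have h4 := mul_le_mul_of_nonneg_left hm1 (show 0 ≤ α / 2 by linarith)
        have h5 : α / 2 * (6 * (T / α)) = 3 * T := by
          field_simp
          ring
        rw [h5] at h4
        linarith
      have h4 : (2 : ℝ) ^ (2 * T) ≤ Real.exp (2 * T) := by
        have h5 : (2 : ℝ) ≤ Real.exp 1 := by
          have := Real.add_one_le_exp (1 : ℝ)
          linarith
        calc (2 : ℝ) ^ (2 * T) ≤ Real.exp 1 ^ (2 * T) := pow_le_pow_left₀ (by norm_num) h5 _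
          _ = Real.exp (2 * T) := by
            rw [← Real.exp_nat_mul]
            push_cast
            ring_nf
      calc (2 : ℝ) ^ (2 * T) * (1 - α / 2) ^ m ≤ Real.exp (2 * T) * Real.exp (-(3 * T)) :=
            mul_le_mul h4 (h2.trans h3) (pow_nonneg (by linarith) _) (Real.exp_pos _).le
        _ = Real.exp (-T) := by
            rw [← Real.exp_add]
            ring_nf
        _ ≤ Real.exp (-1) := by
            rw [Real.exp_le_exp]
            linarith
        _ ≤ 1 / 2 := by
            rw [Real.exp_neg, inv_eq_one_div]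
            apply one_div_le_one_div_of_le (by norm_num)
            have := Real.add_one_le_exp (1 : ℝ)
            linarith
    have h2 : ∀ x, (1 / 4 : ℝ) * (1 / (Fintype.card G : ℝ)) ≤ pw q m x := by
      intro x
      have h3 := hlow x
      rw [Nat.sub_self, pw_zero, cv_dl_one] at h3
      refine le_trans ?_ h3
      have hu0 : 0 < 1 / (2 * (Fintype.card G : ℝ)) := by positivity
      have e : (1 / 4 : ℝ) * (1 / (Fintype.card G : ℝ)) =
          1 / 2 * (1 / (2 * (Fintype.card G : ℝ))) := by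
        field_simp
        norm_num
      rw [e]
      exact mul_le_mul_of_nonneg_right (by linarith) hu0.le
    have h3 := doeblin hq m (1 / 4) (by norm_num) h2 5
    refine h3.trans ?_
    norm_num

end Pool.Agent.H48.MXN
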