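import Pool.Agent.H48.MXN.Push

/-!
# The entropic Ruzsa inequality for correlated variables

`X ~ ν` is independent of the pair `(A, B)`, which may be correlated:
`Ent X + Ent (A⁻¹ B) ≤ Ent (X A) + Ent (X B)`.
-/

set_option autoImplicit false
set_option linter.unusedSectionVars false

namespace Pool.Agent.H48.MXN

open Finset Pool.Agent.H70.MX
open scoped Classical

variable {G : Type} [Group G] [Fintype G] {Ω : Type} [Fintype Ω]

/-- the law of `f` under the measure `μ` -/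
noncomputable def im (μ : Ω → ℝ) (f : Ω → G) : G → ℝ := fun x => ∑ ω, if f ω = x then μ ω else 0

theorem sum_im_mul (μ : Ω → ℝ) (f : Ω → G) (F : G → ℝ) :
    ∑ y, im μ f y * F y = ∑ ω, μ ω * F (f ω) := by
  unfold im
  simp only [Finset.sum_mul, ite_mul, zero_mul]
  rw [Finset.sum_comm]
  refine Finset.sum_congr rfl fun x _ => ?_
  rw [Finset.sum_ite_eq]
  simp

theorem im_isP {μ : Ω → ℝ} (h0 : ∀ ω, 0 ≤ μ ω) (h1 : ∑ ω, μ ω = 1) (f : Ω → G) :
    IsP (im μ f) := by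
  refine ⟨fun y => Finset.sum_nonneg fun x _ => ?_, ?_⟩
  · split_ifs
    · exact h0 x
    · exact le_rfl
  · have h := sum_im_mul μ f (fun _ => 1)
    simp only [mul_one] at h
    rw [h, h1]

theorem im_inv (μ : Ω → ℝ) (f : Ω → G) : im μ (fun ω => (f ω)⁻¹) = iv (im μ f) := by
  funext x
  unfold im iv
  refine Finset.sum_congr rfl fun ω _ => ?_
  simp only [inv_eq_iff_eq_inv]

theorem im_add (μ₁ μ₂ : Ω → ℝ) (a b : ℝ) (f : Ω → G) :
    im (fun ω => a * μ₁ ω + b * μ₂ ω) f = fun x => a * im μ₁ f x + b * im μ₂ f x := by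
  funext x
  unfold im
  rw [Finset.mul_sum, Finset.mul_sum, ← Finset.sum_add_distrib]
  refine Finset.sum_congr rfl fun ω _ => ?_
  split_ifs
  · rfl
  · simp

theorem im_congr {μ : Ω → ℝ} {f g : Ω → G} (h : ∀ ω, μ ω ≠ 0 → f ω = g ω) : im μ f = im μ g := by
  funext x
  unfold im
  refine Finset.sum_congr rfl fun ω _ => ?_
  by_cases hω : μ ω = 0
  · simp [hω]
  · rw [h ω hω]

theorem cv_im (ν : G → ℝ) (μ : Ω → ℝ) (f : Ω → G) (x : G) :
    cv ν (im μ f) x = ∑ ω, μ ω * ν (x * (f ω)⁻¹) := by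
  rw [cv_apply', ← sum_im_mul μ f (fun y => ν (x * y⁻¹))]
  exact Finset.sum_congr rfl fun y _ => mul_comm _ _

/-- the joint law of `X A` and `X B` -/
noncomputable def rJ (ν : G → ℝ) (μ : Ω → ℝ) (a b : Ω → G) (x z : G) : ℝ :=
  ∑ ω, if x * ((a ω)⁻¹ * b ω) = z then μ ω * ν (x * (a ω)⁻¹) else 0

theorem rJ_nonneg {ν : G → ℝ} {μ : Ω → ℝ} (hν : IsP ν) (h0 : ∀ ω, 0 ≤ μ ω) (a b : Ω → G)
    (x z : G) : 0 ≤ rJ ν μ a b x z := by
  refine Finset.sum_nonneg fun ω _ => ?_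
  split_ifs
  · exact mul_nonneg (h0 ω) (hν.1 _)
  · exact le_rfl

theorem rJ_m1 (ν : G → ℝ) (μ : Ω → ℝ) (a b : Ω → G) (x : G) :
    ∑ z, rJ ν μ a b x z = cv ν (im μ a) x := by
  rw [cv_im]
  unfold rJ
  rw [Finset.sum_comm]
  refine Finset.sum_congr rfl fun ω _ => ?_
  rw [Finset.sum_ite_eq]
  simp

theorem rJ_m2 (ν : G → ℝ) (μ : Ω → ℝ) (a b : Ω → G) (z : G) :
    ∑ x, rJ ν μ a b x z = cv ν (im μ b) z := by
  rw [cv_im]
  unfold rJ
  rw [Finset.sum_comm]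
  refine Finset.sum_congr rfl fun ω _ => ?_
  have h1 : ∀ x : G, (if x * ((a ω)⁻¹ * b ω) = z then μ ω * ν (x * (a ω)⁻¹) else 0) =
      if x = z * ((a ω)⁻¹ * b ω)⁻¹ then μ ω * ν (z * (b ω)⁻¹) else 0 := by
    intro x
    by_cases hx : x * ((a ω)⁻¹ * b ω) = z
    · have hx' : x = z * ((a ω)⁻¹ * b ω)⁻¹ := by rw [← hx]; group
      rw [if_pos hx, if_pos hx', hx']
      congr 2
      group
    · have hx' : ¬ x = z * ((a ω)⁻¹ * b ω)⁻¹ := by
        intro h
        apply hx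
        rw [h]
        group
      rw [if_neg hx, if_neg hx']
  simp only [h1]
  rw [Finset.sum_ite_eq']
  simp

theorem rJ_low {ν : G → ℝ} {μ : Ω → ℝ} (hν : IsP ν) (h0 : ∀ ω, 0 ≤ μ ω) (a b : Ω → G) (d : G) :
    im μ (fun ω => (a ω)⁻¹ * b ω) d * Ent ν + Real.negMulLog (im μ (fun ω => (a ω)⁻¹ * b ω) d) ≤
      ∑ x, Real.negMulLog (rJ ν μ a b x (x * d)) := by
  obtain ⟨Z, hZdef⟩ : ∃ Z : ℝ, Z = im μ (fun ω => (a ω)⁻¹ * b ω) d := ⟨_, rfl⟩
  rw [← hZdef]
  have hterm : ∀ ω, 0 ≤ (if (a ω)⁻¹ * b ω = d then μ ω else 0) := by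
    intro ω
    split_ifs
    · exact h0 ω
    · exact le_rfl
  have hZ : 0 ≤ Z := by
    rw [hZdef]
    exact Finset.sum_nonneg fun ω _ => hterm ω
  have hJ : ∀ x, rJ ν μ a b x (x * d) =
      ∑ ω, (if (a ω)⁻¹ * b ω = d then μ ω else 0) * ν (x * (a ω)⁻¹) := by
    intro x
    unfold rJ
    refine Finset.sum_congr rfl fun ω _ => ?_
    simp only [mul_right_inj, ite_mul, zero_mul]
  rcases hZ.lt_or_eq with hpos | hz0
  · obtain ⟨m, hm⟩ : ∃ m : Ω → ℝ, m = fun ω => (if (a ω)⁻¹ * b ω = d then μ ω else 0) / Z :=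
      ⟨_, rfl⟩
    have hm0 : ∀ ω, 0 ≤ m ω := by
      intro ω
      rw [hm]
      exact div_nonneg (hterm ω) hZ
    have hm1 : ∑ ω, m ω = 1 := by
      rw [hm, ← Finset.sum_div]
      have : ∑ ω, (if (a ω)⁻¹ * b ω = d then μ ω else 0) = Z := by rw [hZdef]; rfl
      rw [this]
      exact div_self hpos.ne'
    have hσ := im_isP hm0 hm1 a
    have hJ' : ∀ x, rJ ν μ a b x (x * d) = Z * cv ν (im m a) x := by
      intro x
      rw [hJ, cv_im, Finset.mul_sum]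
      refine Finset.sum_congr rfl fun ω _ => ?_
      rw [hm]
      field_simp
    have h1 : ∑ x, Real.negMulLog (rJ ν μ a b x (x * d)) =
        (∑ x, cv ν (im m a) x) * Real.negMulLog Z + Z * Ent (cv ν (im m a)) := by
      unfold Ent
      rw [Finset.sum_mul, Finset.mul_sum, ← Finset.sum_add_distrib]
      refine Finset.sum_congr rfl fun x _ => ?_
      rw [hJ' x, Real.negMulLog_mul]
    rw [h1, (hν.cv hσ).2, one_mul]
    have h2 := mul_le_mul_of_nonneg_left (Ent_le_cv_left hν.1 hσ) hZ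
    linarith
  · have h1 : ∀ ω, (if (a ω)⁻¹ * b ω = d then μ ω else 0) = 0 := by
      intro ω
      have h2 : ∑ ω, (if (a ω)⁻¹ * b ω = d then μ ω else 0) = 0 := by
        have h3 : ∑ ω, (if (a ω)⁻¹ * b ω = d then μ ω else 0) = Z := by rw [hZdef]; rfl
        rw [h3, ← hz0]
      exact (Finset.sum_eq_zero_iff_of_nonneg (fun ω _ => hterm ω)).1 h2 ω (Finset.mem_univ ω)
    have h2 : ∀ x, rJ ν μ a b x (x * d) = 0 := by
      intro x
      rw [hJ]
      refine Finset.sum_eq_zero fun ω _ => ?_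
      rw [h1, zero_mul]
    rw [← hz0]
    simp [h2]

theorem rJ_up {ν : G → ℝ} {μ : Ω → ℝ} (hν : IsP ν) (h0 : ∀ ω, 0 ≤ μ ω) (h1 : ∑ ω, μ ω = 1)
    (a b : Ω → G) :
    ∑ x, ∑ z, Real.negMulLog (rJ ν μ a b x z) ≤ Ent (cv ν (im μ a)) + Ent (cv ν (im μ b)) := by
  obtain ⟨f, hf⟩ : ∃ f : G × G → ℝ, f = fun p => rJ ν μ a b p.1 p.2 := ⟨_, rfl⟩
  have hJ0 : ∀ x y, 0 ≤ rJ ν μ a b x y := fun x y => rJ_nonneg hν h0 a b x y
  have hP1 := hν.cv (im_isP h0 h1 a)
  have hP2 := hν.cv (im_isP h0 h1 b)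
  have e0 : ∑ x, ∑ z, Real.negMulLog (rJ ν μ a b x z) = Ent f := by
    unfold Ent
    rw [Fintype.sum_prod_type, hf]
  have hz1 : ∀ x y, cv ν (im μ a) x = 0 → rJ ν μ a b x y = 0 := by
    intro x y h
    rw [← rJ_m1 ν μ a b x] at h
    exact (Finset.sum_eq_zero_iff_of_nonneg (fun y _ => hJ0 x y)).1 h y (Finset.mem_univ y)
  have hz2 : ∀ x y, cv ν (im μ b) y = 0 → rJ ν μ a b x y = 0 := by
    intro x y h
    rw [← rJ_m2 ν μ a b y] at h
    exact (Finset.sum_eq_zero_iff_of_nonneg (fun x _ => hJ0 x y)).1 h x (Finset.mem_univ x)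
  have hG := gibbs (f := f) (g := fun p => cv ν (im μ a) p.1 * cv ν (im μ b) p.2)
    (fun p => by rw [hf]; exact hJ0 p.1 p.2) (fun p => mul_nonneg (hP1.1 _) (hP2.1 _))
    (fun p hp => by
      rw [hf]
      rcases mul_eq_zero.1 hp with h | h
      · exact hz1 _ _ h
      · exact hz2 _ _ h)
    (by
      rw [Fintype.sum_prod_type, Fintype.sum_prod_type]
      simp only [← Finset.mul_sum, hP2.2, mul_one, hP1.2, hf]
      simp only [rJ_m1]
      rw [hP1.2])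
  rw [e0]
  refine hG.trans (le_of_eq ?_)
  have hlog : ∀ p : G × G, f p * Real.log (cv ν (im μ a) p.1 * cv ν (im μ b) p.2) =
      f p * Real.log (cv ν (im μ a) p.1) + f p * Real.log (cv ν (im μ b) p.2) := by
    intro p
    by_cases h2 : cv ν (im μ a) p.1 = 0
    · rw [show f p = 0 by rw [hf]; exact hz1 _ _ h2]
      simp
    · by_cases h3 : cv ν (im μ b) p.2 = 0
      · rw [show f p = 0 by rw [hf]; exact hz2 _ _ h3]
        simp
      · rw [Real.log_mul h2 h3]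
        ring
  simp only [hlog]
  rw [Finset.sum_add_distrib, neg_add]
  congr 1
  · rw [Fintype.sum_prod_type]
    unfold Ent
    rw [← Finset.sum_neg_distrib]
    refine Finset.sum_congr rfl fun x _ => ?_
    simp only [hf]
    rw [← Finset.sum_mul, rJ_m1]
    unfold Real.negMulLog
    ring
  · rw [Fintype.sum_prod_type_right]
    unfold Ent
    rw [← Finset.sum_neg_distrib]
    refine Finset.sum_congr rfl fun x _ => ?_
    simp only [hf]
    rw [← Finset.sum_mul, rJ_m2]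
    unfold Real.negMulLog
    ring

/-- **Entropic Ruzsa inequality for correlated variables.** -/
theorem corr_ruzsa {ν : G → ℝ} {μ : Ω → ℝ} (hν : IsP ν) (h0 : ∀ ω, 0 ≤ μ ω)
    (h1 : ∑ ω, μ ω = 1) (a b : Ω → G) :
    Ent ν + Ent (im μ (fun ω => (a ω)⁻¹ * b ω)) ≤ Ent (cv ν (im μ a)) + Ent (cv ν (im μ b)) := by
  refine le_trans ?_ (rJ_up hν h0 h1 a b)
  have h2 : ∀ x, ∑ z, Real.negMulLog (rJ ν μ a b x z) =
      ∑ d, Real.negMulLog (rJ ν μ a b x (x * d)) := fun x =>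
    (sum_left (fun z => Real.negMulLog (rJ ν μ a b x z)) x).symm
  simp only [h2]
  rw [Finset.sum_comm]
  have h3 := Finset.sum_le_sum fun d (_ : d ∈ (Finset.univ : Finset G)) => rJ_low hν h0 a b d
  rw [Finset.sum_add_distrib, ← Finset.sum_mul, (im_isP h0 h1 _).2, one_mul] at h3
  unfold Ent at h3 ⊢
  exact h3

/-- law of the product of independent variables -/
theorem im_mul_right {ν : G → ℝ} (μ : Ω → ℝ) (f : Ω → G) :
    im (fun q : Ω × G => μ q.1 * ν q.2) (fun q => f q.1 * q.2) = cv (im μ f) ν := by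
  funext x
  have h1 : cv (im μ f) ν x = ∑ ω, μ ω * ν ((f ω)⁻¹ * x) :=
    sum_im_mul μ f (fun y => ν (y⁻¹ * x))
  rw [h1]
  unfold im
  rw [Fintype.sum_prod_type]
  refine Finset.sum_congr rfl fun ω _ => ?_
  have h2 : ∀ y : G, (if f ω * y = x then μ ω * ν y else 0) =
      if y = (f ω)⁻¹ * x then μ ω * ν ((f ω)⁻¹ * x) else 0 := by
    intro y
    by_cases hy : f ω * y = x
    · have hy' : y = (f ω)⁻¹ * x := by rw [← hy]; group
      rw [if_pos hy, if_pos hy', hy']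
    · have hy' : ¬ y = (f ω)⁻¹ * x := by
        intro h
        apply hy
        rw [h]
        group
      rw [if_neg hy, if_neg hy']
  simp only [h2]
  rw [Finset.sum_ite_eq']
  simp

/-- two sided subadditivity for correlated variables: `ν` symmetric, `X, X' ~ ν` independent of
`(A, B)`: `Ent (X A B X') + Ent X ≤ Ent (X A X') + Ent (X B X')` -/
theorem corr_sub {ν : G → ℝ} {μ : Ω → ℝ} (hν : IsP ν) (hνs : iv ν = ν) (h0 : ∀ ω, 0 ≤ μ ω)
    (h1 : ∑ ω, μ ω = 1) (a b : Ω → G) :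
    Ent ν + Ent (cv (cv ν (im μ (fun ω => a ω * b ω))) ν) ≤
      Ent (cv (cv ν (im μ a)) ν) + Ent (cv (cv ν (im μ b)) ν) := by
  -- `Ω' = (Ω × G) × G`, `A' = (a⁻¹ X₁)`, `B' = b X₃`, where `X₁, X₃ ~ ν`
  obtain ⟨μ', hμ'⟩ : ∃ μ' : (Ω × G) × G → ℝ, μ' = fun q => (μ q.1.1 * ν q.1.2) * ν q.2 := ⟨_, rfl⟩
  have hμ0 : ∀ q, 0 ≤ μ' q := by
    intro q
    rw [hμ']
    exact mul_nonneg (mul_nonneg (h0 _) (hν.1 _)) (hν.1 _)
  have hμ1 : ∑ q, μ' q = 1 := by
    rw [hμ', Fintype.sum_prod_type, Fintype.sum_prod_type]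
    simp only [← Finset.mul_sum, hν.2, mul_one]
    exact h1
  have h2 := corr_ruzsa hν hμ0 hμ1 (fun q => (a q.1.1)⁻¹ * q.1.2) (fun q => b q.1.1 * q.2)
  -- first law
  have hA : im μ' (fun q => (a q.1.1)⁻¹ * q.1.2) = cv (iv (im μ a)) ν := by
    rw [← im_inv, ← im_mul_right (ν := ν) μ (fun ω => (a ω)⁻¹)]
    funext x
    unfold im
    rw [Fintype.sum_prod_type]
    refine Finset.sum_congr rfl fun q _ => ?_
    rw [hμ']
    simp only
    by_cases hq : (a q.1)⁻¹ * q.2 = x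
    · simp only [hq, if_true]
      rw [← Finset.mul_sum, hν.2, mul_one]
    · simp [hq]
  have hB : im μ' (fun q => b q.1.1 * q.2) = cv (im μ b) ν := by
    rw [← im_mul_right (ν := ν) μ b]
    funext x
    unfold im
    rw [Fintype.sum_prod_type, Fintype.sum_prod_type, Fintype.sum_prod_type]
    refine Finset.sum_congr rfl fun ω _ => ?_
    rw [Finset.sum_comm]
    refine Finset.sum_congr rfl fun y _ => ?_
    rw [hμ']
    simp only
    by_cases hq : b ω * y = x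
    · simp only [hq, if_true]
      have : ∀ z, μ ω * ν z * ν y = μ ω * ν y * ν z := fun z => by ring
      simp only [this]
      rw [← Finset.mul_sum, hν.2, mul_one]
    · simp [hq]
  have hC : im μ' (fun q => ((a q.1.1)⁻¹ * q.1.2)⁻¹ * (b q.1.1 * q.2)) =
      cv (cv ν (im μ (fun ω => a ω * b ω))) ν := by
    have e1 : im μ' (fun q => ((a q.1.1)⁻¹ * q.1.2)⁻¹ * (b q.1.1 * q.2)) =
        cv (im (fun q : Ω × G => μ q.1 * ν q.2) (fun q => q.2⁻¹ * (a q.1 * b q.1))) ν := by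
      rw [← im_mul_right (ν := ν) (fun q : Ω × G => μ q.1 * ν q.2)
        (fun q => q.2⁻¹ * (a q.1 * b q.1)), hμ']
      congr 1
      funext q
      group
    rw [e1]
    congr 1
    have e2 : im (fun q : Ω × G => μ q.1 * ν q.2) (fun q => q.2⁻¹ * (a q.1 * b q.1)) =
        iv (cv (iv (im μ (fun ω => a ω * b ω))) ν) := by
      rw [← im_inv μ, ← im_mul_right (ν := ν) μ, ← im_inv]
      congr 1
      funext q
      group
    rw [e2, iv_cv, iv_iv, hνs]
  rw [hA, hB, hC] at h2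
  have e3 : Ent (cv ν (cv (iv (im μ a)) ν)) = Ent (cv (cv ν (im μ a)) ν) := by
    rw [← Ent_iv (cv ν (cv (iv (im μ a)) ν)), iv_cv, iv_cv, iv_iv, hνs]
  have e4 : Ent (cv ν (cv (im μ b) ν)) = Ent (cv (cv ν (im μ b)) ν) := by
    rw [cv_assoc]
  rw [e3, e4] at h2
  exact h2

end Pool.Agent.H48.MXN
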