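import Pool.Agent.H48.MXN.Step
import Pool.Agent.H48.MXN.Comm

/-!
# Reduction to the quotient by a normal subgroup that normalises one of the two laws
-/

set_option autoImplicit false
set_option linter.unusedSectionVars false

namespace Pool.Agent.H48.MXN

open Finset Pool.Agent.H70.MX
open scoped Classical

variable {G : Type} [Group G] [Fintype G]

/-- the law `f` is invariant under conjugation by the elements of `N` -/
def NInv (N : Subgroup G) (f : G → ℝ) : Prop := ∀ n ∈ N, ∀ x, f (n * x * n⁻¹) = f x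

theorem dl_comm {N : Subgroup G} {f : G → ℝ} (h : NInv N f) {n : G} (hn : n ∈ N) :
    cv (dl n) f = cv f (dl n) := by
  funext x
  rw [dl_cv, cv_dl]
  have h1 := h n hn (n⁻¹ * x)
  rw [← h1]
  congr 1
  group

theorem dl_comm_pw {N : Subgroup G} {f : G → ℝ} (h : NInv N f) {n : G} (hn : n ∈ N) (t : ℕ) :
    cv (dl n) (pw f t) = cv (pw f t) (dl n) := comm_pw (dl_comm h hn) t

theorem gain_inv_p {N : Subgroup G} {ν p : G → ℝ} (h : NInv N p) {n : G} (hn : n ∈ N) (g : G) :
    gain ν p (g * n) = gain ν p g := by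
  unfold gain
  rw [← dl_cv_dl, ← cv_assoc ν, cv_assoc (cv ν (dl g)) (dl n) p, dl_comm h hn, ← cv_assoc,
    Ent_cv_dl]

theorem gain_inv_q {N : Subgroup G} [hN : N.Normal] {p q : G → ℝ} (h : NInv N q) {n : G}
    (hn : n ∈ N) (t : ℕ) (g : G) : gain (pw q t) p (g * n) = gain (pw q t) p g := by
  have h1 : ∀ m ∈ N, ∀ x : G, gain (pw q t) p (m * x) = gain (pw q t) p x := by
    intro m hm x
    unfold gain
    rw [← dl_cv_dl, ← cv_assoc (pw q t), ← dl_comm_pw h hm, cv_assoc (dl m), cv_assoc (dl m),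
      Ent_dl_cv]
  have h2 := h1 (g * n * g⁻¹) (hN.conj_mem n hn g) g
  rw [← h2]
  congr 1
  group

/-- small deficit of entropy implies small total variation distance -/
theorem tv_of_dfc {f : G → ℝ} (hf : IsP f) (h : dfc f ≤ 1 / 16) :
    ∑ x, |f x - 1 / (Fintype.card G : ℝ)| ≤ 1 / 2 := by
  have hN : (0 : ℝ) < Fintype.card G := card_pos'
  apply tv_le hf
  obtain ⟨b, hb⟩ : ∃ b : ℝ, b = 1 / (Fintype.card G : ℝ) := ⟨_, rfl⟩
  have hb0 : 0 < b := by rw [hb]; positivity
  have hsb : ∑ _x : G, b = 1 := by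
    rw [hb]
    exact (unif_isP (G := G)).2
  have h1 : ∀ x, (f x - b) + (√(f x) - √b) ^ 2 ≤ f x * (Real.log (f x) - Real.log b) :=
    fun x => kl_ge _ _ (hf.1 x) hb0.le (fun h0 => absurd h0 hb0.ne')
  have h2 := Finset.sum_le_sum fun x (_ : x ∈ (Finset.univ : Finset G)) => h1 x
  rw [Finset.sum_add_distrib, Finset.sum_sub_distrib, hf.2, hsb] at h2
  have h3 : ∑ x, f x * (Real.log (f x) - Real.log b) = dfc f := by
    simp only [mul_sub, Finset.sum_sub_distrib]
    rw [← Finset.sum_mul, hf.2, one_mul, hb, Real.log_div one_ne_zero hN.ne', Real.log_one]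
    unfold dfc Ent Real.negMulLog
    have : ∑ x, -f x * Real.log (f x) = - ∑ x, f x * Real.log (f x) := by
      rw [← Finset.sum_neg_distrib]
      exact Finset.sum_congr rfl fun x _ => by ring
    rw [this]
    ring
  rw [h3] at h2
  have hc0 := Real.sqrt_nonneg b
  have hc2 := Real.sq_sqrt hb0.le
  have h4 : ∑ x, (√(f x) - √b) ^ 2 = 2 - 2 * (√b * ∑ x, √(f x)) := by
    have h5 : ∀ x, (√(f x) - √b) ^ 2 = f x + b - 2 * (√b * √(f x)) := by
      intro x
      have := Real.sq_sqrt (hf.1 x)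
      nlinarith
    simp only [h5]
    rw [Finset.sum_sub_distrib, Finset.sum_add_distrib, hf.2, hsb, ← Finset.mul_sum,
      ← Finset.mul_sum]
    norm_num
  rw [h4] at h2
  obtain ⟨s, hs⟩ : ∃ s : ℝ, s = √b * ∑ x, √(f x) := ⟨_, rfl⟩
  rw [← hs] at h2
  have h6 : 31 / 32 ≤ s := by linarith
  have h7 : (∑ x, √(f x)) ^ 2 / (Fintype.card G : ℝ) = s ^ 2 := by
    rw [hs, mul_pow, hc2, hb]
    ring
  rw [h7]
  nlinarith

theorem iter_dfc {q : G → ℝ} (hq : IsP q) (r : ℕ) (c : ℝ) (hc : 0 ≤ c)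
    (h : ∀ t, dfc (pw q (t + r)) ≤ c * dfc (pw q t)) (i : ℕ) :
    dfc (pw q (i * r)) ≤ c ^ i * Real.log (Fintype.card G) := by
  induction i with
  | zero =>
    rw [zero_mul, pow_zero, one_mul]
    exact dfc_le (pw_isP hq 0)
  | succ i ih =>
    have e : (i + 1) * r = i * r + r := by ring
    rw [e, pow_succ]
    refine (h (i * r)).trans ?_
    have := mul_le_mul_of_nonneg_left ih hc
    linarith

theorem finish {q : G → ℝ} (hq : IsP q) (r : ℕ) (α : ℝ) (hα0 : 0 < α) (hα1 : α < 1) (T : ℕ)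
    (hT : 1 ≤ T) (Λ : ℝ) (hΛ : 1 ≤ Λ) (hΛG : 16 * Real.log (Fintype.card G) ≤ Real.exp Λ)
    (h : ∀ t, dfc (pw q (t + r)) ≤ (1 - α / (8 * T)) * dfc (pw q t)) :
    ∃ t : ℕ, (t : ℝ) ≤ r * (9 * (T / α) * Λ) ∧ Mx q t := by
  have hTR : (1 : ℝ) ≤ T := by exact_mod_cast hT
  have hT0 : (0 : ℝ) < T := by linarith
  have hTα : 1 ≤ T / α := by
    rw [le_div_iff₀ hα0]
    linarith
  have hTαΛ : 1 ≤ T / α * Λ := by nlinarith
  obtain ⟨i, hi⟩ : ∃ i : ℕ, i = ⌈8 * (T / α) * Λ⌉₊ := ⟨_, rfl⟩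
  have hi1 : 8 * (T / α) * Λ ≤ i := by rw [hi]; exact Nat.le_ceil _
  have hi2 : (i : ℝ) ≤ 9 * (T / α) * Λ := by
    have h1 := Nat.ceil_lt_add_one (a := 8 * (T / α) * Λ) (by positivity)
    rw [← hi] at h1
    linarith
  have hc : 0 ≤ 1 - α / (8 * T) := by
    have : α / (8 * T) ≤ 1 := by
      rw [div_le_one (by positivity)]
      linarith
    linarith
  refine ⟨i * r, ?_, ?_⟩
  · push_cast
    rw [mul_comm (i : ℝ)]
    exact mul_le_mul_of_nonneg_left hi2 (Nat.cast_nonneg r)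
  · unfold Mx
    apply tv_of_dfc (pw_isP hq _)
    refine (iter_dfc hq r _ hc h i).trans ?_
    have h1 : (1 - α / (8 * T)) ^ i ≤ Real.exp (-Λ) := by
      calc (1 - α / (8 * T)) ^ i ≤ Real.exp (-(α / (8 * T))) ^ i := by
            refine pow_le_pow_left₀ hc ?_ i
            have := Real.add_one_le_exp (-(α / (8 * T)))
            linarith
        _ = Real.exp (i * -(α / (8 * T))) := by rw [← Real.exp_nat_mul]
        _ ≤ Real.exp (-Λ) := by
            rw [Real.exp_le_exp]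
            have h2 := mul_le_mul_of_nonneg_left hi1 (show 0 ≤ α / (8 * T) by positivity)
            have h3 : α / (8 * T) * (8 * (T / α) * Λ) = Λ := by
              field_simp
            rw [h3] at h2
            linarith
    have hlog : 0 ≤ Real.log (Fintype.card G) := Real.log_natCast_nonneg _
    have h2 := mul_le_mul_of_nonneg_right h1 hlog
    have h3 := mul_le_mul_of_nonneg_left hΛG (Real.exp_pos (-Λ)).le
    rw [← Real.exp_add, neg_add_cancel, Real.exp_zero] at h3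
    linarith

/-- the reduction to the quotient -/
theorem reduce (N : Subgroup G) [hN : N.Normal] {p q : G → ℝ} (hp : IsP p) (hps : iv p = p)
    (hq : IsP q) (hqs : iv q = q) (α : ℝ) (hα0 : 0 < α) (hα1 : α < 1)
    (hle : ∀ x, α * p x ≤ q x) (hinv : NInv N p ∨ NInv N q) (T : ℕ) (hT : 1 ≤ T) (hmix : Mx p T)
    (Λ : ℝ) (hΛ : 1 ≤ Λ) (hΛG : 16 * Real.log (Fintype.card G) ≤ Real.exp Λ) (r : ℕ)
    (hr : Mx (push (QuotientGroup.mk' N) q) r) :
    ∃ t : ℕ, (t : ℝ) ≤ (2 * r + 1) * (9 * (T / α) * Λ) ∧ Mx q t := by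
  have hstage : ∀ t, dfc (pw q (t + (2 * r + 1))) ≤ (1 - α / (8 * T)) * dfc (pw q t) := by
    intro t
    have hν := pw_isP hq t
    have hκ := pw_isP hq (2 * r)
    have e1 : pw q (t + (2 * r + 1)) = cv (cv (pw q t) (pw q (2 * r))) q := by
      have h1 := pw_one q
      rw [← add_assoc, pw_add q (t + 2 * r) 1, pw_add q t (2 * r), h1]
    rw [e1]
    refine stage hν hκ hp hq α hα0 hα1 hle T hT (pw_half hp hps T hmix (2 * T) le_rfl) ?_
    have hg : ∀ n ∈ N, ∀ g : G, gain (pw q t) p (g * n) = gain (pw q t) p g := by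
      intro n hn g
      rcases hinv with h | h
      · exact gain_inv_p h hn g
      · exact gain_inv_q h hn t g
    refine push_avg (QuotientGroup.mk' N) (QuotientGroup.mk'_surjective N) _ _
      (fun y => gain (pw q t) p (Quotient.out y)) ?_ (fun y => gain_nonneg hν hp _) ?_
    · intro x
      have h1 : (QuotientGroup.mk (Quotient.out (QuotientGroup.mk' N x)) : G ⧸ N) =
          QuotientGroup.mk x := Quotient.out_eq _
      rw [QuotientGroup.eq] at h1
      have h2 := hg _ h1 (Quotient.out (QuotientGroup.mk' N x))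
      rw [mul_inv_cancel_left] at h2
      exact h2
    · intro y
      rw [push_pw]
      exact pw_half (push_isP _ hq) (by rw [← push_iv, hqs]) r hr (2 * r) le_rfl y
  have h := finish hq (2 * r + 1) α hα0 hα1 T hT Λ hΛ hΛG hstage
  push_cast at h
  exact h

end Pool.Agent.H48.MXN
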