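import Pool.Agent.H48.MXN.Cl2
import Pool.Agent.H48.MXN.Red

/-!
# Class two and odd order: contraction of the deficit from every starting law
-/

set_option autoImplicit false
set_option linter.unusedSectionVars false

namespace Pool.Agent.H48.MXN

open Finset Pool.Agent.H70.MX
open scoped Classical

variable {G : Type} [Group G] [Fintype G] {A : Type} [Fintype A]

theorem im_push (μ : W4 G → ℝ) (h : W4 G →* G) : im μ (fun x => h x) = push h μ := rfl

theorem odd_word (hcl : Cl2 G) (hodd : Function.Bijective (fun x : G => x ^ 2)) {p ν : G → ℝ}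
    (hp : IsP p) (hν : IsP ν) (c₀ c₁ : A → G) (hc : ∀ s, c₀ s * c₁ s = 1) (L : List (Option A))
    (hmix : ∀ x, 1 / (2 * (Fintype.card G : ℝ)) ≤ pw p (cnt L) x) :
    2 * Ent ν + 1 / 2 * dfc ν ≤ Ent (cv ν (iv (push (h0 G) (Jt p c₀ c₁ L)))) +
      Ent (cv ν (push (h1 G) (Jt p c₀ c₁ L))) := by
  have hN : (0 : ℝ) < Fintype.card G := card_pos'
  have hμ := Jt_isP hp c₀ c₁ L
  obtain ⟨μ, hμdef⟩ : ∃ μ : W4 G → ℝ, μ = Jt p c₀ c₁ L := ⟨_, rfl⟩
  obtain ⟨w, hw⟩ : ∃ w : G → ℝ, w = pw p (cnt L) := ⟨_, rfl⟩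
  have hwpos : ∀ y, 0 < w y := by
    intro y
    rw [hw]
    exact lt_of_lt_of_le (by positivity) (hmix y)
  have hmarg : ∀ F : G → ℝ, ∑ x, μ x * F (h3 G x) = ∑ y, w y * F y := by
    intro F
    rw [hμdef, ← sum_push_mul, push_h3, hw]
  rw [← hμdef] at hμ ⊢
  obtain ⟨μ₁, hμ₁⟩ : ∃ μ₁ : W4 G → ℝ,
      μ₁ = fun x => μ x * (1 / (Fintype.card G : ℝ) / w (h3 G x)) := ⟨_, rfl⟩
  obtain ⟨μ₂, hμ₂⟩ : ∃ μ₂ : W4 G → ℝ, μ₂ = fun x => 2 * μ x - μ₁ x := ⟨_, rfl⟩
  have h10 : ∀ x, 0 ≤ μ₁ x := by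
    intro x
    rw [hμ₁]
    have := hwpos (h3 G x)
    exact mul_nonneg (hμ.1 x) (by positivity)
  have h11 : ∑ x, μ₁ x = 1 := by
    rw [hμ₁, hmarg (fun y => 1 / (Fintype.card G : ℝ) / w y)]
    have e : ∀ y, w y * (1 / (Fintype.card G : ℝ) / w y) = 1 / (Fintype.card G : ℝ) := by
      intro y
      have := (hwpos y).ne'
      field_simp
    simp only [e]
    exact (unif_isP (G := G)).2
  have h20 : ∀ x, 0 ≤ μ₂ x := by
    intro x
    rw [hμ₂, hμ₁]
    have h1 : 1 / (Fintype.card G : ℝ) / w (h3 G x) ≤ 2 := by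
      rw [div_le_iff₀ (hwpos _)]
      have h2 := hmix (h3 G x)
      rw [← hw] at h2
      have e : 1 / (2 * (Fintype.card G : ℝ)) = (1 / (Fintype.card G : ℝ)) / 2 := by field_simp
      rw [e] at h2
      linarith
    have h2 := mul_le_mul_of_nonneg_left h1 (hμ.1 x)
    show 0 ≤ 2 * μ x - μ x * (1 / (Fintype.card G : ℝ) / w (h3 G x))
    linarith
  have h21 : ∑ x, μ₂ x = 1 := by
    rw [hμ₂, Finset.sum_sub_distrib, ← Finset.mul_sum, h11, hμ.2]
    norm_num
  have hsplit : μ = fun x => (1 / 2) * μ₁ x + (1 / 2) * μ₂ x := by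
    funext x
    rw [hμ₂]
    ring
  have hhalf : ∀ f : W4 G → G, 1 / 2 * Ent (cv ν (im μ₁ f)) + 1 / 2 * Ent ν ≤
      Ent (cv ν (im μ f)) := by
    intro f
    have hA := im_isP h10 h11 f
    have hB := im_isP h20 h21 f
    have e : im μ f = fun x => (1 / 2) * im μ₁ f x + (1 / 2) * im μ₂ f x := by
      rw [← im_add, ← hsplit]
    rw [e, cv_add_right]
    have h1 := Ent_concave₂ (1 / 2) (1 / 2) (cv ν (im μ₁ f)) (cv ν (im μ₂ f)) (by norm_num)
      (by norm_num) (by norm_num) (hν.cv hA).1 (hν.cv hB).1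
    have h2 := Ent_le_cv_left hν.1 hB
    linarith
  have hruzsa := corr_ruzsa hν h10 h11 (fun x => (h0 G x)⁻¹) (fun x => h1 G x)
  -- the product is uniform
  have hunif : im μ₁ (fun x => ((h0 G x)⁻¹)⁻¹ * h1 G x) = unif G := by
    have e1 : im μ₁ (fun x => ((h0 G x)⁻¹)⁻¹ * h1 G x) =
        im μ₁ (fun x => uu c₀ L * (h3 G x * uu c₁ L) ^ 2 * (uu c₁ L)⁻¹) := by
      refine im_congr fun x hx => ?_
      rw [inv_inv]
      refine word_two hcl p c₀ c₁ hc L x ?_
      intro h0'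
      apply hx
      rw [hμ₁, hμdef]
      show Jt p c₀ c₁ L x * _ = 0
      rw [h0', zero_mul]
    rw [e1]
    funext g
    have hF : Function.Bijective (fun m : G => uu c₀ L * (m * uu c₁ L) ^ 2 * (uu c₁ L)⁻¹) := by
      have h5 : (fun m : G => uu c₀ L * (m * uu c₁ L) ^ 2 * (uu c₁ L)⁻¹) =
          (fun m => uu c₀ L * m) ∘ (fun m => m * (uu c₁ L)⁻¹) ∘ (fun x : G => x ^ 2) ∘
            (fun m => m * uu c₁ L) := by
        funext m
        simp only [Function.comp, mul_assoc]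
      rw [h5]
      exact (Group.mulLeft_bijective _).comp ((Group.mulRight_bijective _).comp
        (hodd.comp (Group.mulRight_bijective _)))
    have h6 := sum_im_mul μ₁ (fun x => uu c₀ L * (h3 G x * uu c₁ L) ^ 2 * (uu c₁ L)⁻¹)
      (fun y => if y = g then 1 else 0)
    simp only [mul_ite, mul_one, mul_zero] at h6
    rw [Finset.sum_ite_eq'] at h6
    simp only [Finset.mem_univ, if_true] at h6
    rw [h6, hμ₁]
    have h7 := hmarg (fun y => if uu c₀ L * (y * uu c₁ L) ^ 2 * (uu c₁ L)⁻¹ = g then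
      1 / (Fintype.card G : ℝ) / w y else 0)
    have e2 : ∀ x, (if uu c₀ L * (h3 G x * uu c₁ L) ^ 2 * (uu c₁ L)⁻¹ = g then
        μ x * (1 / (Fintype.card G : ℝ) / w (h3 G x)) else 0) =
        μ x * (if uu c₀ L * (h3 G x * uu c₁ L) ^ 2 * (uu c₁ L)⁻¹ = g then
          1 / (Fintype.card G : ℝ) / w (h3 G x) else 0) := by
      intro x
      split_ifs
      · rfl
      · simp
    simp only [e2]
    rw [h7]
    have e3 : ∀ y, w y * (if uu c₀ L * (y * uu c₁ L) ^ 2 * (uu c₁ L)⁻¹ = g then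
        1 / (Fintype.card G : ℝ) / w y else 0) =
        if uu c₀ L * (y * uu c₁ L) ^ 2 * (uu c₁ L)⁻¹ = g then 1 / (Fintype.card G : ℝ) else 0 := by
      intro y
      have := (hwpos y).ne'
      split_ifs
      · field_simp
      · simp
    simp only [e3]
    have h8 := hF.sum_comp (fun z => if z = g then 1 / (Fintype.card G : ℝ) else 0)
    rw [h8, Finset.sum_ite_eq']
    simp [unif]
  rw [hunif, Ent_unif] at hruzsa
  have ha := hhalf (fun x => (h0 G x)⁻¹)
  have hb := hhalf (fun x => h1 G x)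
  rw [im_inv μ (fun x => h0 G x), im_push μ (h0 G)] at ha
  rw [im_push μ (h1 G)] at hb
  unfold dfc
  linarith

theorem upsilon {p q : G → ℝ} (hp : IsP p) (hps : iv p = p) (hq : IsP q) (hqs : iv q = q) (α : ℝ)
    (hα1 : α < 1) (hle : ∀ x, α * p x ≤ q x) : ∃ υ : G → ℝ, IsP υ ∧ iv υ = υ ∧
      q = fun x => α * p x + (1 - α) * υ x := by
  have h1α : 0 < 1 - α := by linarith
  refine ⟨fun x => (q x - α * p x) / (1 - α), ⟨fun x => div_nonneg (by have := hle x; linarith)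
    h1α.le, ?_⟩, ?_, ?_⟩
  · rw [← Finset.sum_div, Finset.sum_sub_distrib, ← Finset.mul_sum, hp.2, hq.2, mul_one]
    exact div_self h1α.ne'
  · funext x
    have h1 := congrFun hps x
    have h2 := congrFun hqs x
    unfold iv at h1 h2
    show (q x⁻¹ - α * p x⁻¹) / (1 - α) = _
    rw [h1, h2]
  · funext x
    field_simp
    ring

theorem sum_iv {υ : G → ℝ} (hυs : iv υ = υ) (F : G → ℝ) :
    ∑ g, υ g * F g⁻¹ = ∑ g, υ g * F g := by
  rw [← Equiv.sum_comp (Equiv.inv G) (fun g => υ g * F g)]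
  refine Finset.sum_congr rfl fun g _ => ?_
  have h := congrFun hυs g
  unfold iv at h
  simp only [Equiv.inv_apply]
  rw [h]

/-- contraction of the deficit -/
theorem contract_odd (hcl : Cl2 G) (hodd : Function.Bijective (fun x : G => x ^ 2)) {p q : G → ℝ}
    (hp : IsP p) (hps : iv p = p) (hq : IsP q) (hqs : iv q = q) (α : ℝ) (hα0 : 0 < α)
    (hα1 : α < 1) (hle : ∀ x, α * p x ≤ q x) (T : ℕ) (hmix : Mx p T) (n : ℕ) {ν : G → ℝ}
    (hν : IsP ν) : dfc (cv ν (pw q n)) ≤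
      (1 - (1 - 2 ^ (2 * T) * (1 - α / 2) ^ n) / 4) * dfc ν := by
  obtain ⟨υ, hυ, hυs, hqυ⟩ := upsilon hp hps hq hqs α hα1 hle
  obtain ⟨P, hP⟩ : ∃ P : ℝ, P = EE α υ n (fun L => if 2 * T ≤ cnt L then 1 else 0) := ⟨_, rfl⟩
  have hPlow : 1 - 2 ^ (2 * T) * (1 - α / 2) ^ n ≤ P := by
    rw [hP]
    exact EE_cnt hα0.le hα1.le hυ.2 n (2 * T)
  have hd := dfc_nonneg hν
  have htyp1 := EE_typ (A := G) hp hυ α hα0.le hα1.le hqυ hυ.1 (fun g => g) (fun g => g⁻¹) (h1 G) rfl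
    (fun F => sum_iv hυs F) (dl 1) (dl_isP 1) n ν hν
  have htyp0 := EE_typ (A := G) hp hυ α hα0.le hα1.le hqυ hυ.1 (fun g => g) (fun g => g⁻¹) (h0 G) rfl
    (fun F => rfl) (iv ν) (iv_isP hν) n (dl 1) (dl_isP 1)
  simp only [cv_dl_one] at htyp1
  simp only [dl_one_cv] at htyp0
  have e0 : ∀ τ : G → ℝ, Ent (cv τ (iv ν)) = Ent (cv ν (iv τ)) := by
    intro τ
    rw [← Ent_iv (cv τ (iv ν)), iv_cv, iv_iv]
  simp only [e0] at htyp0
  rw [iv_pw hqs] at htyp0
  have hmono := EE_mono hα0.le hα1.le hυ.1 n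
    (fun L => 2 * Ent ν * 1 + 1 / 2 * dfc ν * (if 2 * T ≤ cnt L then 1 else 0))
    (fun L => 1 * Ent (cv ν (iv (push (h0 G) (Jt p (fun g => g) (fun g => g⁻¹) L)))) +
      1 * Ent (cv ν (push (h1 G) (Jt p (fun g => g) (fun g => g⁻¹) L)))) (by
      intro L
      have hJ := Jt_isP hp (fun g : G => g) (fun g => g⁻¹) L
      split_ifs with hL
      · have := odd_word hcl hodd hp hν (fun g : G => g) (fun g => g⁻¹) (fun s => mul_inv_cancel s)
          L (pw_half hp hps T hmix (cnt L) hL)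
        linarith
      · have g1 := Ent_le_cv_left hν.1 (iv_isP (push_isP (h0 G) hJ))
        have g2 := Ent_le_cv_left hν.1 (push_isP (h1 G) hJ)
        linarith)
  rw [EE_lin n (fun _ => 1) (fun L => if 2 * T ≤ cnt L then 1 else 0), EE_const hυ.2 1 n, ← hP,
    EE_lin n] at hmono
  have h3 : 1 / 2 * dfc ν * (1 - 2 ^ (2 * T) * (1 - α / 2) ^ n) ≤ 1 / 2 * dfc ν * P :=
    mul_le_mul_of_nonneg_left hPlow (by positivity)
  unfold dfc at *
  nlinarith [hmono, htyp0, htyp1, h3]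

/-- class two, odd order: slowdown of order `log log |G|` -/
theorem odd_mix (hcl : Cl2 G) (hodd : Function.Bijective (fun x : G => x ^ 2)) {p q : G → ℝ}
    (hp : IsP p) (hps : iv p = p) (hq : IsP q) (hqs : iv q = q) (α : ℝ) (hα0 : 0 < α)
    (hα1 : α < 1) (hle : ∀ x, α * p x ≤ q x) (T : ℕ) (hT : 1 ≤ T) (hmix : Mx p T) (Λ : ℝ)
    (hΛ : 1 ≤ Λ) (hΛG : 16 * Real.log (Fintype.card G) ≤ Real.exp Λ) :
    ∃ t : ℕ, (t : ℝ) ≤ 63 * (T / α * Λ) ∧ Mx q t := by
  have hTR : (1 : ℝ) ≤ T := by exact_mod_cast hT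
  have hTα : 1 ≤ T / α := by
    rw [le_div_iff₀ hα0]
    linarith
  obtain ⟨n, hn⟩ : ∃ n : ℕ, n = ⌈6 * (T / α)⌉₊ := ⟨_, rfl⟩
  have hn1 : 6 * (T / α) ≤ n := by rw [hn]; exact Nat.le_ceil _
  have hn2 : (n : ℝ) ≤ 7 * (T / α) := by
    have := Nat.ceil_lt_add_one (a := 6 * (T / α)) (by positivity)
    rw [← hn] at this
    linarith
  have hP : (2 : ℝ) ^ (2 * T) * (1 - α / 2) ^ n ≤ 1 / 2 := by
    have h2 : (1 - α / 2) ^ n ≤ Real.exp (-(α / 2)) ^ n := by
      refine pow_le_pow_left₀ (by linarith) ?_ n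
      have := Real.add_one_le_exp (-(α / 2))
      linarith
    rw [← Real.exp_nat_mul] at h2
    have h3 : Real.exp (n * -(α / 2)) ≤ Real.exp (-(3 * T)) := by
      rw [Real.exp_le_exp]
      have h4 := mul_le_mul_of_nonneg_left hn1 (show 0 ≤ α / 2 by linarith)
      have h5 : α / 2 * (6 * (T / α)) = 3 * T := by
        field_simp
        ring
      rw [h5] at h4
      linarith
    have h4 : (2 : ℝ) ^ (2 * T) ≤ Real.exp (2 * T) := by
      have h5 : (2 : ℝ) ≤ Real.exp 1 := by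
        have := Real.add_one_le_exp (1 : ℝ)
        linarith
      calc (2 : ℝ) ^ (2 * T) ≤ Real.exp 1 ^ (2 * T) := pow_le_pow_left₀ (by norm_num) h5 _
        _ = Real.exp (2 * T) := by
          rw [← Real.exp_nat_mul]
          push_cast
          ring_nf
    calc (2 : ℝ) ^ (2 * T) * (1 - α / 2) ^ n ≤ Real.exp (2 * T) * Real.exp (-(3 * T)) :=
          mul_le_mul h4 (h2.trans h3) (pow_nonneg (by linarith) _) (Real.exp_pos _).le
      _ = Real.exp (-T) := by
          rw [← Real.exp_add]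
          ring_nf
      _ ≤ Real.exp (-1) := by
          rw [Real.exp_le_exp]
          linarith
      _ ≤ 1 / 2 := by
          rw [Real.exp_neg, inv_eq_one_div]
          apply one_div_le_one_div_of_le (by norm_num)
          have := Real.add_one_le_exp (1 : ℝ)
          linarith
  have hstep : ∀ t, dfc (pw q (t + n)) ≤ 7 / 8 * dfc (pw q t) := by
    intro t
    rw [pw_add]
    refine (contract_odd hcl hodd hp hps hq hqs α hα0 hα1 hle T hmix n (pw_isP hq t)).trans ?_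
    refine mul_le_mul_of_nonneg_right (by linarith) (dfc_nonneg (pw_isP hq t))
  obtain ⟨i, hi⟩ : ∃ i : ℕ, i = ⌈8 * Λ⌉₊ := ⟨_, rfl⟩
  have hi1 : 8 * Λ ≤ i := by rw [hi]; exact Nat.le_ceil _
  have hi2 : (i : ℝ) ≤ 9 * Λ := by
    have h1 := Nat.ceil_lt_add_one (a := 8 * Λ) (by linarith)
    rw [← hi] at h1
    linarith
  refine ⟨i * n, ?_, ?_⟩
  · push_cast
    calc (i : ℝ) * n ≤ (9 * Λ) * (7 * (T / α)) :=
          mul_le_mul hi2 hn2 (Nat.cast_nonneg _) (by linarith)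
      _ = 63 * (T / α * Λ) := by ring
  · unfold Mx
    apply tv_of_dfc (pw_isP hq _)
    refine (iter_dfc hq n (7 / 8) (by norm_num) hstep i).trans ?_
    have h1 : (7 / 8 : ℝ) ^ i ≤ Real.exp (-Λ) := by
      calc (7 / 8 : ℝ) ^ i ≤ Real.exp (-(1 / 8)) ^ i := by
            refine pow_le_pow_left₀ (by norm_num) ?_ i
            have := Real.add_one_le_exp (-(1 / 8) : ℝ)
            linarith
        _ = Real.exp (i * -(1 / 8)) := by rw [← Real.exp_nat_mul]
        _ ≤ Real.exp (-Λ) := by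
            rw [Real.exp_le_exp]
            linarith
    have hlog : 0 ≤ Real.log (Fintype.card G) := Real.log_natCast_nonneg _
    have h2 := mul_le_mul_of_nonneg_right h1 hlog
    have h3 := mul_le_mul_of_nonneg_left hΛG (Real.exp_pos (-Λ)).le
    rw [← Real.exp_add, neg_add_cancel, Real.exp_zero] at h3
    linarith

end Pool.Agent.H48.MXN
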