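import Pool.Agent.H70.MX.Half
import Pool.Agent.H70.MX.HellB

/-!
# Images of laws under homomorphisms
-/

set_option autoImplicit false
set_option linter.unusedSectionVars false

namespace Pool.Agent.H48.MXN

open Finset Pool.Agent.H70.MX
open scoped Classical

variable {G H : Type} [Group G] [Fintype G] [Group H] [Fintype H]

/-- the image of a law under a homomorphism -/
noncomputable def push (φ : G →* H) (f : G → ℝ) : H → ℝ := fun y => ∑ x, if φ x = y then f x else 0

/-- the law `p` is mixed at time `T`: its `T`-th power is within total variation `1/4` of uniform -/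
def Mx (p : G → ℝ) (T : ℕ) : Prop := ∑ x, |pw p T x - 1 / (Fintype.card G : ℝ)| ≤ 1 / 2

theorem sum_push_mul (φ : G →* H) (f : G → ℝ) (F : H → ℝ) :
    ∑ y, push φ f y * F y = ∑ x, f x * F (φ x) := by
  unfold push
  simp only [Finset.sum_mul, ite_mul, zero_mul]
  rw [Finset.sum_comm]
  refine Finset.sum_congr rfl fun x _ => ?_
  rw [Finset.sum_ite_eq]
  simp

theorem push_isP (φ : G →* H) {f : G → ℝ} (hf : IsP f) : IsP (push φ f) := by
  refine ⟨fun y => Finset.sum_nonneg fun x _ => ?_, ?_⟩
  · split_ifs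
    · exact hf.1 x
    · exact le_rfl
  · have h := sum_push_mul φ f (fun _ => 1)
    simp only [mul_one] at h
    rw [h, hf.2]

theorem push_cv (φ : G →* H) (f g : G → ℝ) : push φ (cv f g) = cv (push φ f) (push φ g) := by
  funext y
  have h1 : cv (push φ f) (push φ g) y = ∑ a, f a * push φ g ((φ a)⁻¹ * y) :=
    sum_push_mul φ f (fun z => push φ g (z⁻¹ * y))
  rw [h1]
  have h2 : push φ (cv f g) y = ∑ x, ∑ a, f a * (if φ x = y then g (a⁻¹ * x) else 0) := by
    unfold push cv
    refine Finset.sum_congr rfl fun x _ => ?_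
    split_ifs
    · rfl
    · simp
  rw [h2, Finset.sum_comm]
  refine Finset.sum_congr rfl fun a _ => ?_
  rw [← Finset.mul_sum]
  congr 1
  unfold push
  rw [← sum_left (fun x => if φ x = y then g (a⁻¹ * x) else 0) a]
  refine Finset.sum_congr rfl fun x _ => ?_
  have e1 : (φ (a * x) = y) ↔ (φ x = (φ a)⁻¹ * y) := by
    rw [map_mul, eq_inv_mul_iff_mul_eq]
  simp only [e1, inv_mul_cancel_left]

theorem push_dl (φ : G →* H) (z : G) : push φ (dl z) = dl (φ z) := by
  funext y
  unfold push dl
  have h : ∀ x, (if φ x = y then (if x = z then (1 : ℝ) else 0) else 0) =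
      if x = z then (if φ z = y then 1 else 0) else 0 := by
    intro x
    by_cases hx : x = z
    · subst hx
      simp
    · simp [hx]
  simp only [h]
  rw [Finset.sum_ite_eq']
  simp [eq_comm]

theorem push_pw (φ : G →* H) (f : G → ℝ) (n : ℕ) : push φ (pw f n) = pw (push φ f) n := by
  induction n with
  | zero => rw [pw_zero, pw_zero, push_dl, map_one]
  | succ n ih => rw [pw_succ, pw_succ, push_cv, ih]

theorem push_iv (φ : G →* H) (f : G → ℝ) : push φ (iv f) = iv (push φ f) := by
  funext y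
  unfold push iv
  rw [← Equiv.sum_comp (Equiv.inv G) (fun x => if φ x = y then f x⁻¹ else 0)]
  refine Finset.sum_congr rfl fun x _ => ?_
  simp only [Equiv.inv_apply, map_inv, inv_inv, inv_eq_iff_eq_inv]

theorem push_le (φ : G →* H) {p q : G → ℝ} (α : ℝ) (h : ∀ x, α * p x ≤ q x) (y : H) :
    α * push φ p y ≤ push φ q y := by
  unfold push
  rw [Finset.mul_sum]
  refine Finset.sum_le_sum fun x _ => ?_
  split_ifs
  · exact h x
  · simp

theorem push_unif (φ : G →* H) (hφ : Function.Surjective φ) : push φ (unif G) = unif H := by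
  have hc : ∀ y, push φ (unif G) y = push φ (unif G) 1 := by
    intro y
    obtain ⟨x0, rfl⟩ := hφ y
    unfold push
    rw [← sum_left (fun x => if φ x = φ x0 then unif G x else 0) x0]
    refine Finset.sum_congr rfl fun x _ => ?_
    simp only [map_mul, mul_eq_left]
    rfl
  have hs : ∑ y, push φ (unif G) y = 1 := (push_isP φ unif_isP).2
  rw [Finset.sum_congr rfl (fun y _ => hc y), Finset.sum_const, Finset.card_univ,
    nsmul_eq_mul] at hs
  have hN : (0 : ℝ) < Fintype.card H := card_pos'
  funext y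
  rw [hc y]
  unfold unif at hs ⊢
  rw [eq_div_iff hN.ne', mul_comm]
  exact hs

theorem push_l1 (φ : G →* H) (hφ : Function.Surjective φ) (f : G → ℝ) :
    ∑ y, |push φ f y - 1 / (Fintype.card H : ℝ)| ≤ ∑ x, |f x - 1 / (Fintype.card G : ℝ)| := by
  have h1 : ∀ y, push φ f y - 1 / (Fintype.card H : ℝ) =
      ∑ x, if φ x = y then f x - 1 / (Fintype.card G : ℝ) else 0 := by
    intro y
    have h2 : (1 / (Fintype.card H : ℝ)) = push φ (unif G) y := by
      rw [push_unif φ hφ]
      rfl
    rw [h2]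
    unfold push unif
    rw [← Finset.sum_sub_distrib]
    refine Finset.sum_congr rfl fun x _ => ?_
    split_ifs
    · rfl
    · simp
  have h3 : ∀ y, |push φ f y - 1 / (Fintype.card H : ℝ)| ≤
      push φ (fun x => |f x - 1 / (Fintype.card G : ℝ)|) y := by
    intro y
    rw [h1]
    refine (Finset.abs_sum_le_sum_abs _ _).trans (le_of_eq ?_)
    unfold push
    refine Finset.sum_congr rfl fun x _ => ?_
    split_ifs
    · rfl
    · simp
  refine (Finset.sum_le_sum fun y _ => h3 y).trans (le_of_eq ?_)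
  have h := sum_push_mul φ (fun x => |f x - 1 / (Fintype.card G : ℝ)|) (fun _ => 1)
  simpa only [mul_one] using h

theorem push_Mx (φ : G →* H) (hφ : Function.Surjective φ) (p : G → ℝ) (T : ℕ) (h : Mx p T) :
    Mx (push φ p) T := by
  unfold Mx at *
  rw [← push_pw]
  exact (push_l1 φ hφ _).trans h

/-- averaging a function that factors through `φ` -/
theorem push_avg (φ : G →* H) (hφ : Function.Surjective φ) (κ Ψ : G → ℝ) (Φ : H → ℝ)
    (hΨ : ∀ x, Ψ x = Φ (φ x)) (hΦ : ∀ y, 0 ≤ Φ y)
    (hκ : ∀ y, 1 / (2 * (Fintype.card H : ℝ)) ≤ push φ κ y) :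
    1 / 2 * (1 / (Fintype.card G : ℝ) * ∑ h, Ψ h) ≤ ∑ h, κ h * Ψ h := by
  have h1 : ∑ h, κ h * Ψ h = ∑ y, push φ κ y * Φ y := by
    rw [sum_push_mul]
    exact Finset.sum_congr rfl fun x _ => by rw [hΨ]
  have h2 : 1 / (Fintype.card G : ℝ) * ∑ h, Ψ h = ∑ y, 1 / (Fintype.card H : ℝ) * Φ y := by
    have h3 := sum_push_mul φ (unif G) Φ
    rw [push_unif φ hφ] at h3
    unfold unif at h3
    rw [h3, Finset.mul_sum]
    exact Finset.sum_congr rfl fun x _ => by rw [hΨ]
  rw [h1, h2, Finset.mul_sum]
  refine Finset.sum_le_sum fun y _ => ?_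
  have h3 := mul_le_mul_of_nonneg_right (hκ y) (hΦ y)
  refine le_trans (le_of_eq ?_) h3
  have hN : (0 : ℝ) < Fintype.card H := card_pos'
  field_simp

end Pool.Agent.H48.MXN
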