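import Pool.Agent.H48.MXN.Push

/-!
# One stage of entropy decay

`gain ν p h = Ent (ν * δ_h * p) - Ent ν`.
-/

set_option autoImplicit false
set_option linter.unusedSectionVars false

namespace Pool.Agent.H48.MXN

open Finset Pool.Agent.H70.MX
open scoped Classical

variable {G : Type} [Group G] [Fintype G]

/-- the entropy gained by a step with law `p` from the law `ν * δ_h` -/
noncomputable def gain (ν p : G → ℝ) (h : G) : ℝ := Ent (cv (cv ν (dl h)) p) - Ent ν

theorem gain_nonneg {ν p : G → ℝ} (hν : IsP ν) (hp : IsP p) (h : G) : 0 ≤ gain ν p h := by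
  unfold gain
  have h1 := Ent_le_cv_left (f := cv ν (dl h)) (g := p) (hν.cv (dl_isP h)).1 hp
  rw [Ent_cv_dl] at h1
  linarith

/-- data processing for the relative entropy -/
theorem kl_cv {a A p : G → ℝ} (ha : ∀ x, 0 ≤ a x) (hA : ∀ x, 0 ≤ A x) (haA : ∀ x, A x = 0 → a x = 0)
    (hp : IsP p) :
    ∑ z, cv a p z * (Real.log (cv a p z) - Real.log (cv A p z)) ≤
      ∑ x, a x * (Real.log (a x) - Real.log (A x)) := by
  have h1 : ∀ z, cv a p z * (Real.log (cv a p z) - Real.log (cv A p z)) ≤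
      cv (fun x => a x * (Real.log (a x) - Real.log (A x))) p z := by
    intro z
    rw [cv_apply' (fun x => a x * (Real.log (a x) - Real.log (A x))) p z]
    rcases (cv_nonneg ha hp.1 z).lt_or_eq with hb | hb
    · have hB : 0 < cv A p z := by
        rcases (cv_nonneg hA hp.1 z).lt_or_eq with hB | hB
        · exact hB
        · exfalso
          rw [cv_apply'] at hb hB
          have h2 : ∀ s ∈ (Finset.univ : Finset G), A (z * s⁻¹) * p s = 0 :=
            (Finset.sum_eq_zero_iff_of_nonneg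
              (fun s _ => mul_nonneg (hA _) (hp.1 s))).1 hB.symm
          have h3 : ∑ s, a (z * s⁻¹) * p s = 0 := by
            refine Finset.sum_eq_zero fun s hs => ?_
            rcases mul_eq_zero.1 (h2 s hs) with h | h
            · rw [haA _ h, zero_mul]
            · rw [h, mul_zero]
          linarith
      obtain ⟨u, hu⟩ : ∃ u : ℝ, u = cv a p z / cv A p z := ⟨_, rfl⟩
      have hu0 : 0 < u := by rw [hu]; exact div_pos hb hB
      have hlu : Real.log u = Real.log (cv a p z) - Real.log (cv A p z) := by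
        rw [hu, Real.log_div hb.ne' hB.ne']
      rw [← hlu]
      have h4 : ∀ s, a (z * s⁻¹) * p s * Real.log u + (a (z * s⁻¹) * p s - u * (A (z * s⁻¹) * p s)) ≤
          a (z * s⁻¹) * (Real.log (a (z * s⁻¹)) - Real.log (A (z * s⁻¹))) * p s := by
        intro s
        have h5 : a (z * s⁻¹) * Real.log u + (a (z * s⁻¹) - u * A (z * s⁻¹)) ≤
            a (z * s⁻¹) * (Real.log (a (z * s⁻¹)) - Real.log (A (z * s⁻¹))) := by
          rcases (ha (z * s⁻¹)).lt_or_eq with h6 | h6
          · have h7 : 0 < A (z * s⁻¹) :=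
              lt_of_le_of_ne (hA _) (fun h' => h6.ne' (haA _ h'.symm))
            have h8 := Real.log_le_sub_one_of_pos (div_pos (mul_pos hu0 h7) h6)
            rw [Real.log_div (mul_pos hu0 h7).ne' h6.ne', Real.log_mul hu0.ne' h7.ne'] at h8
            have h9 := mul_le_mul_of_nonneg_left h8 h6.le
            have h10 : a (z * s⁻¹) * (u * A (z * s⁻¹) / a (z * s⁻¹) - 1) =
                u * A (z * s⁻¹) - a (z * s⁻¹) := by
              field_simp
            rw [h10] at h9
            linarith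
          · rw [← h6]
            have := mul_nonneg hu0.le (hA (z * s⁻¹))
            simp
            exact this
        have h6 := mul_le_mul_of_nonneg_right h5 (hp.1 s)
        linarith
      have h5 := Finset.sum_le_sum fun s (_ : s ∈ (Finset.univ : Finset G)) => h4 s
      rw [Finset.sum_add_distrib, Finset.sum_sub_distrib, ← Finset.sum_mul, ← Finset.mul_sum,
        ← cv_apply', ← cv_apply'] at h5
      have h6 : u * cv A p z = cv a p z := by
        rw [hu]
        field_simp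
      rw [h6] at h5
      linarith
    · rw [← hb, zero_mul]
      rw [cv_apply'] at hb
      have h2 : ∀ s ∈ (Finset.univ : Finset G), a (z * s⁻¹) * p s = 0 :=
        (Finset.sum_eq_zero_iff_of_nonneg
          (fun s _ => mul_nonneg (ha _) (hp.1 s))).1 hb.symm
      refine le_of_eq (Finset.sum_eq_zero fun s hs => ?_).symm
      have h3 := h2 s hs
      calc a (z * s⁻¹) * (Real.log (a (z * s⁻¹)) - Real.log (A (z * s⁻¹))) * p s
          = (a (z * s⁻¹) * p s) * (Real.log (a (z * s⁻¹)) - Real.log (A (z * s⁻¹))) := by ring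
        _ = 0 := by rw [h3, zero_mul]
  refine (Finset.sum_le_sum fun z _ => h1 z).trans (le_of_eq ?_)
  rw [sum_cv, hp.2, mul_one]

/-- the gain of a mixture of right translates is at most the mean of the gains -/
theorem gain_mix {ν κ p : G → ℝ} (hν : IsP ν) (hκ : IsP κ) (hp : IsP p) :
    Ent (cv (cv ν κ) p) - Ent (cv ν κ) ≤ ∑ h, κ h * gain ν p h := by
  have hA := hν.cv hκ
  have h1 : ∀ h, κ h * ∑ z, cv (cv ν (dl h)) p z *
      (Real.log (cv (cv ν (dl h)) p z) - Real.log (cv (cv ν κ) p z)) ≤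
      κ h * ∑ x, cv ν (dl h) x * (Real.log (cv ν (dl h) x) - Real.log (cv ν κ x)) := by
    intro h
    rcases (hκ.1 h).lt_or_eq with hk | hk
    · refine mul_le_mul_of_nonneg_left ?_ hk.le
      refine kl_cv (hν.cv (dl_isP h)).1 hA.1 (fun x hx => ?_) hp
      rw [cv_apply'] at hx
      have h2 := (Finset.sum_eq_zero_iff_of_nonneg
        (fun s _ => mul_nonneg (hν.1 _) (hκ.1 s))).1 hx h (Finset.mem_univ h)
      rw [cv_dl]
      rcases mul_eq_zero.1 h2 with h3 | h3
      · exact h3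
      · exact absurd h3 hk.ne'
    · rw [← hk, zero_mul, zero_mul]
  have h2 := Finset.sum_le_sum fun h (_ : h ∈ (Finset.univ : Finset G)) => h1 h
  -- the four sums
  have e1 : ∀ f : G → ℝ, ∑ x, f x * Real.log (f x) = - Ent f := by
    intro f
    unfold Ent Real.negMulLog
    rw [← Finset.sum_neg_distrib]
    exact Finset.sum_congr rfl fun x _ => by ring
  have e2 : ∀ F : G → ℝ, ∑ h, κ h * ∑ z, cv (cv ν (dl h)) p z * F z =
      ∑ z, cv (cv ν κ) p z * F z := by
    intro F
    have e3 : cv (cv ν κ) p = fun z => ∑ h, κ h * cv (cv ν (dl h)) p z := by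
      rw [cv_eq_sum' ν κ, cv_sum_left]
    rw [e3]
    simp only [Finset.mul_sum, Finset.sum_mul]
    rw [Finset.sum_comm]
    exact Finset.sum_congr rfl fun z _ => Finset.sum_congr rfl fun h _ => by ring
  have e4 : ∀ F : G → ℝ, ∑ h, κ h * ∑ z, cv ν (dl h) z * F z = ∑ z, cv ν κ z * F z := by
    intro F
    rw [cv_eq_sum' ν κ]
    simp only [Finset.mul_sum, Finset.sum_mul]
    rw [Finset.sum_comm]
    exact Finset.sum_congr rfl fun z _ => Finset.sum_congr rfl fun h _ => by ring
  simp only [mul_sub, Finset.sum_sub_distrib] at h2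
  rw [e2, e4, e1, e1] at h2
  simp only [e1, Ent_cv_dl] at h2
  have e5 : ∑ h, κ h * gain ν p h = ∑ h, κ h * Ent (cv (cv ν (dl h)) p) - Ent ν := by
    unfold gain
    simp only [mul_sub, Finset.sum_sub_distrib]
    rw [← Finset.sum_mul, hκ.2, one_mul]
  rw [e5]
  simp only [mul_neg, Finset.sum_neg_distrib] at h2
  rw [← Finset.sum_mul, hκ.2, one_mul] at h2
  linarith

/-- the gain of `2 T` steps is at least half of the deficit -/
theorem gain_full {ν p : G → ℝ} (hν : IsP ν) (hp : IsP p) (n : ℕ)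
    (hmix : ∀ x, 1 / (2 * (Fintype.card G : ℝ)) ≤ pw p n x) :
    1 / 2 * dfc ν ≤ Ent (cv ν (pw p n)) - Ent ν := by
  have hN : (0 : ℝ) < Fintype.card G := card_pos'
  have hw := pw_isP hp n
  obtain ⟨ρ, hρdef⟩ : ∃ ρ : G → ℝ, ρ = fun x => 2 * pw p n x - 1 / (Fintype.card G : ℝ) :=
    ⟨_, rfl⟩
  have hρ : IsP ρ := by
    rw [hρdef]
    refine ⟨fun x => ?_, ?_⟩
    · have := hmix x
      have e : 1 / (2 * (Fintype.card G : ℝ)) = (1 / (Fintype.card G : ℝ)) / 2 := by
        field_simp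
      rw [e] at this
      show 0 ≤ 2 * pw p n x - 1 / (Fintype.card G : ℝ)
      linarith
    · rw [Finset.sum_sub_distrib, ← Finset.mul_sum, hw.2, Finset.sum_const, Finset.card_univ,
        nsmul_eq_mul]
      field_simp
      norm_num
  have e1 : pw p n = fun x => (1 / 2) * unif G x + (1 / 2) * ρ x := by
    funext x
    rw [hρdef]
    unfold unif
    ring
  rw [e1, cv_add_right, cv_unif hν]
  have h1 := Ent_concave₂ (1 / 2) (1 / 2) (unif G) (cv ν ρ) (by norm_num) (by norm_num)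
    (by norm_num) unif_isP.1 (hν.cv hρ).1
  rw [Ent_unif] at h1
  have h2 := Ent_le_cv_left hν.1 hρ
  unfold dfc
  linarith

/-- the mean gain is at least `deficit / (2 n)` -/
theorem gain_mean {ν p : G → ℝ} (hν : IsP ν) (hp : IsP p) (n : ℕ)
    (hmix : ∀ x, 1 / (2 * (Fintype.card G : ℝ)) ≤ pw p n x) :
    1 / 2 * dfc ν ≤ n * (1 / (Fintype.card G : ℝ) * ∑ h, gain ν p h) := by
  have hN : (0 : ℝ) < Fintype.card G := card_pos'
  have hstep : ∀ (g : G) (j : ℕ), Ent (cv (cv ν (dl g)) (pw p (j + 1))) -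
      Ent (cv (cv ν (dl g)) (pw p j)) ≤ ∑ h, pw p j h * gain ν p (g * h) := by
    intro g j
    have e1 : pw p (j + 1) = cv (pw p j) p := by
      have h := pw_comm p j 1
      rw [pw_one] at h
      rw [pw_succ, h]
    have e2 : cv (cv ν (dl g)) (pw p (j + 1)) = cv (cv ν (cv (dl g) (pw p j))) p := by
      rw [e1, cv_assoc, cv_assoc, cv_assoc]
    have e3 : cv (cv ν (dl g)) (pw p j) = cv ν (cv (dl g) (pw p j)) := cv_assoc _ _ _
    rw [e2, e3]
    refine (gain_mix hν ((dl_isP g).cv (pw_isP hp j)) hp).trans (le_of_eq ?_)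
    rw [← sum_left (fun h => cv (dl g) (pw p j) h * gain ν p h) g]
    refine Finset.sum_congr rfl fun h _ => ?_
    rw [dl_cv, inv_mul_cancel_left]
  have htel : ∀ (g : G) (m : ℕ), Ent (cv (cv ν (dl g)) (pw p m)) - Ent ν ≤
      ∑ j ∈ Finset.range m, ∑ h, pw p j h * gain ν p (g * h) := by
    intro g m
    induction m with
    | zero => simp [pw_zero, cv_dl_one, Ent_cv_dl]
    | succ m ih =>
      rw [Finset.sum_range_succ]
      have := hstep g m
      linarith
  have hsum : ∑ g : G, ∑ j ∈ Finset.range n, ∑ h, pw p j h * gain ν p (g * h) =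
      n * ∑ h, gain ν p h := by
    rw [Finset.sum_comm]
    have e1 : ∀ j ∈ Finset.range n, ∑ g : G, ∑ h, pw p j h * gain ν p (g * h) =
        ∑ h, gain ν p h := by
      intro j _
      rw [Finset.sum_comm]
      have e2 : ∀ h, ∑ g : G, pw p j h * gain ν p (g * h) = pw p j h * ∑ g, gain ν p g := by
        intro h
        rw [← Finset.mul_sum, sum_right (gain ν p) h]
      simp only [e2]
      rw [← Finset.sum_mul, (pw_isP hp j).2, one_mul]
    rw [Finset.sum_congr rfl e1, Finset.sum_const, Finset.card_range, nsmul_eq_mul]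
  have h1 : ∀ g : G, 1 / 2 * dfc ν ≤ ∑ j ∈ Finset.range n, ∑ h, pw p j h * gain ν p (g * h) := by
    intro g
    refine le_trans ?_ (htel g n)
    have h2 := gain_full (hν.cv (dl_isP g)) hp n hmix
    have h3 : dfc (cv ν (dl g)) = dfc ν := by
      unfold dfc
      rw [Ent_cv_dl]
    rw [h3, Ent_cv_dl] at h2
    exact h2
  have h2 := Finset.sum_le_sum fun g (_ : g ∈ (Finset.univ : Finset G)) => h1 g
  rw [hsum, Finset.sum_const, Finset.card_univ, nsmul_eq_mul] at h2
  have h3 := mul_le_mul_of_nonneg_left h2 (show (0 : ℝ) ≤ 1 / (Fintype.card G : ℝ) by positivity)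
  have e1 : 1 / (Fintype.card G : ℝ) * ((Fintype.card G : ℝ) * (1 / 2 * dfc ν)) =
      1 / 2 * dfc ν := by
    field_simp
  rw [e1] at h3
  linarith

/-- entropy after one step with law `q ≥ α p` -/
theorem gain_low {ν κ p q : G → ℝ} (hν : IsP ν) (hκ : IsP κ) (hp : IsP p) (hq : IsP q) (α : ℝ)
    (hα0 : 0 < α) (hα1 : α < 1) (hle : ∀ x, α * p x ≤ q x) :
    Ent ν + α * ∑ h, κ h * gain ν p h ≤ Ent (cv (cv ν κ) q) := by
  obtain ⟨υ, hυdef⟩ : ∃ υ : G → ℝ, υ = fun x => (q x - α * p x) / (1 - α) := ⟨_, rfl⟩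
  have h1α : 0 < 1 - α := by linarith
  have hυ : IsP υ := by
    rw [hυdef]
    refine ⟨fun x => div_nonneg (by have := hle x; linarith) h1α.le, ?_⟩
    rw [← Finset.sum_div, Finset.sum_sub_distrib, ← Finset.mul_sum, hp.2, hq.2, mul_one]
    exact div_self h1α.ne'
  have e1 : q = fun x => α * p x + (1 - α) * υ x := by
    funext x
    rw [hυdef]
    field_simp
    ring
  have hA := hν.cv hκ
  have h1 := Ent_concave₂ α (1 - α) (cv (cv ν κ) p) (cv (cv ν κ) υ) hα0.le h1α.le (by ring)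
    (hA.cv hp).1 (hA.cv hυ).1
  rw [← cv_add_right, ← e1] at h1
  have h2 : Ent ν ≤ Ent (cv (cv ν κ) υ) :=
    (Ent_le_cv_left hν.1 hκ).trans (Ent_le_cv_left hA.1 hυ)
  have h3 : ∑ h, κ h * Ent (cv (cv ν (dl h)) p) ≤ Ent (cv (cv ν κ) p) := by
    have e3 : cv (cv ν κ) p = fun z => ∑ h, κ h * cv (cv ν (dl h)) p z := by
      rw [cv_eq_sum' ν κ, cv_sum_left]
    rw [e3]
    exact Ent_concave Finset.univ κ (fun h => cv (cv ν (dl h)) p) (fun h _ => hκ.1 h) hκ.2
      (fun h _ x => ((hν.cv (dl_isP h)).cv hp).1 x)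
  have e5 : ∑ h, κ h * gain ν p h = ∑ h, κ h * Ent (cv (cv ν (dl h)) p) - Ent ν := by
    unfold gain
    simp only [mul_sub, Finset.sum_sub_distrib]
    rw [← Finset.sum_mul, hκ.2, one_mul]
  rw [e5]
  nlinarith [mul_le_mul_of_nonneg_left h3 hα0.le, mul_le_mul_of_nonneg_left h2 h1α.le]

/-- one stage -/
theorem stage {ν κ p q : G → ℝ} (hν : IsP ν) (hκ : IsP κ) (hp : IsP p) (hq : IsP q) (α : ℝ)
    (hα0 : 0 < α) (hα1 : α < 1) (hle : ∀ x, α * p x ≤ q x) (T : ℕ) (hT : 1 ≤ T)
    (hmix : ∀ x, 1 / (2 * (Fintype.card G : ℝ)) ≤ pw p (2 * T) x)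
    (hr : 1 / 2 * (1 / (Fintype.card G : ℝ) * ∑ h, gain ν p h) ≤ ∑ h, κ h * gain ν p h) :
    dfc (cv (cv ν κ) q) ≤ (1 - α / (8 * T)) * dfc ν := by
  have hTR : (0 : ℝ) < T := by exact_mod_cast hT
  have h1 := gain_low hν hκ hp hq α hα0 hα1 hle
  have h2 := gain_mean hν hp (2 * T) hmix
  push_cast at h2
  obtain ⟨M, hM⟩ : ∃ M : ℝ, M = 1 / (Fintype.card G : ℝ) * ∑ h, gain ν p h := ⟨_, rfl⟩
  rw [← hM] at h2 hr
  have h3 : α * (1 / 2 * M) ≤ α * ∑ h, κ h * gain ν p h := mul_le_mul_of_nonneg_left hr hα0.le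
  have h4 : α / (8 * T) * dfc ν ≤ α * (1 / 2 * M) := by
    rw [div_mul_eq_mul_div, div_le_iff₀ (by positivity)]
    nlinarith [mul_le_mul_of_nonneg_left h2 hα0.le]
  unfold dfc at *
  linarith

end Pool.Agent.H48.MXN
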