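import Pool.Agent.H48.MXN.Odd

/-!
# Class two: three typical words
-/

set_option autoImplicit false
set_option linter.unusedSectionVars false

namespace Pool.Agent.H48.MXN

open Finset Pool.Agent.H70.MX
open scoped Classical

variable {G : Type} [Group G] [Fintype G] {A : Type} [Fintype A]

theorem im_fst {Ω : Type} [Fintype Ω] {ν : G → ℝ} (hν : IsP ν) (μ : Ω → ℝ) (f : Ω → G) :
    im (fun q : Ω × G => μ q.1 * ν q.2) (fun q => f q.1) = im μ f := by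
  funext x
  unfold im
  rw [Fintype.sum_prod_type]
  refine Finset.sum_congr rfl fun ω _ => ?_
  simp only
  by_cases hq : f ω = x
  · simp only [hq, if_true]
    rw [← Finset.mul_sum, hν.2, mul_one]
  · simp [hq]

theorem im_mul_left {Ω : Type} [Fintype Ω] {ν : G → ℝ} (hνs : iv ν = ν) (μ : Ω → ℝ) (f : Ω → G) :
    im (fun q : Ω × G => μ q.1 * ν q.2) (fun q => q.2⁻¹ * f q.1) = cv ν (im μ f) := by
  have e2 : im (fun q : Ω × G => μ q.1 * ν q.2) (fun q => q.2⁻¹ * f q.1) =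
      iv (cv (iv (im μ f)) ν) := by
    rw [← im_inv μ, ← im_mul_right (ν := ν) μ, ← im_inv]
    congr 1
    funext q
    group
  rw [e2, iv_cv, iv_iv, hνs]

/-- the two steps of the entropic triangle inequality for three correlated words -/
theorem corr_three {Ω : Type} [Fintype Ω] {ν : G → ℝ} {μ : Ω → ℝ} (hν : IsP ν) (hνs : iv ν = ν)
    (g0 : ∀ ω, 0 ≤ μ ω) (g1 : ∑ ω, μ ω = 1) (a b c : Ω → G) :
    Ent (im μ (fun ω => a ω * ((b ω)⁻¹ * c ω))) + 2 * Ent ν ≤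
      Ent (cv (im μ a) ν) + Ent (cv (cv ν (im μ b)) ν) + Ent (cv ν (im μ c)) := by
  have s1 := corr_ruzsa hν g0 g1 (fun ω => (a ω)⁻¹) (fun ω => (b ω)⁻¹ * c ω)
  simp only [inv_inv] at s1
  have e1 : Ent (cv ν (im μ (fun ω => (a ω)⁻¹))) = Ent (cv (im μ a) ν) := by
    rw [im_inv, ← Ent_iv (cv ν (iv (im μ a))), iv_cv, iv_iv, hνs]
  rw [e1] at s1
  obtain ⟨μ', hμ'⟩ : ∃ μ' : Ω × G → ℝ, μ' = fun q => μ q.1 * ν q.2 := ⟨_, rfl⟩
  have hμ0 : ∀ q, 0 ≤ μ' q := by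
    intro q
    rw [hμ']
    exact mul_nonneg (g0 _) (hν.1 _)
  have hμ1 : ∑ q, μ' q = 1 := by
    rw [hμ', Fintype.sum_prod_type]
    simp only [← Finset.mul_sum, hν.2, mul_one]
    exact g1
  have s2 := corr_ruzsa hν hμ0 hμ1 (fun q => b q.1 * q.2) (fun q => c q.1)
  have e2 : im μ' (fun q => (b q.1 * q.2)⁻¹ * c q.1) = cv ν (im μ (fun ω => (b ω)⁻¹ * c ω)) := by
    rw [← im_mul_left hνs μ (fun ω => (b ω)⁻¹ * c ω), hμ']
    congr 1
    funext q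
    group
  have e3 : im μ' (fun q => b q.1 * q.2) = cv (im μ b) ν := by
    rw [hμ', im_mul_right]
  have e4 : im μ' (fun q => c q.1) = im μ c := by
    rw [hμ', im_fst hν]
  rw [e2, e3, e4, ← cv_assoc] at s2
  linarith

theorem three_word (hcl : Cl2 G) {p ν : G → ℝ} (hp : IsP p) (hν : IsP ν) (hνs : iv ν = ν)
    (c₀ c₁ : A → G) (L : List (Option A)) :
    Ent (pw p (cnt L)) + 2 * Ent ν ≤ Ent (cv (push (h0 G) (Jt p c₀ c₁ L)) ν) +
      Ent (cv (cv ν (push (h2 G) (Jt p c₀ c₁ L))) ν) +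
      Ent (cv ν (push (h1 G) (Jt p c₀ c₁ L))) := by
  have hμ := Jt_isP hp c₀ c₁ L
  have s := corr_three hν hνs hμ.1 hμ.2 (fun x => h0 G x) (fun x => h2 G x) (fun x => h1 G x)
  obtain ⟨k, hk⟩ : ∃ k : G, k = uu c₀ L * (uu (fun s => c₀ s * c₁ s) L)⁻¹ * uu c₁ L := ⟨_, rfl⟩
  have e1 : im (Jt p c₀ c₁ L) (fun x => h0 G x * ((h2 G x)⁻¹ * h1 G x)) =
      im (Jt p c₀ c₁ L) (fun x => k * h3 G x) := by
    refine im_congr fun x hx => ?_
    rw [hk]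
    exact word_three hcl p c₀ c₁ L x hx
  have e2 : im (Jt p c₀ c₁ L) (fun x => k * h3 G x) = cv (dl k) (pw p (cnt L)) := by
    rw [← push_h3 p c₀ c₁ L]
    funext y
    rw [dl_cv]
    unfold im push
    refine Finset.sum_congr rfl fun x _ => ?_
    have e3 : (k * h3 G x = y) ↔ (h3 G x = k⁻¹ * y) := by rw [eq_inv_mul_iff_mul_eq]
    simp only [e3]
  rw [e1, e2, Ent_dl_cv] at s
  exact s

/-- powers of a law that is bounded below -/
theorem doeblin_dec {q : G → ℝ} (hq : IsP q) (m : ℕ) (c : ℝ) (hc1 : c < 1)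
    (h : ∀ x, c * (1 / (Fintype.card G : ℝ)) ≤ pw q m x) (j : ℕ) : ∃ σ : G → ℝ, IsP σ ∧
      pw q (j * m) = fun x => (1 - (1 - c) ^ j) * unif G x + (1 - c) ^ j * σ x := by
  have hc : 0 < 1 - c := by linarith
  obtain ⟨ρ, hρdef⟩ : ∃ ρ : G → ℝ, ρ = fun x => (pw q m x - c * unif G x) / (1 - c) := ⟨_, rfl⟩
  have hρ : IsP ρ := by
    rw [hρdef]
    refine ⟨fun x => div_nonneg (by have := h x; unfold unif; linarith) hc.le, ?_⟩
    rw [← Finset.sum_div, Finset.sum_sub_distrib, ← Finset.mul_sum, (pw_isP hq m).2,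
      (unif_isP (G := G)).2, mul_one]
    exact div_self hc.ne'
  have e1 : pw q m = fun x => c * unif G x + (1 - c) * ρ x := by
    funext x
    rw [hρdef]
    field_simp
    ring
  induction j with
  | zero =>
    refine ⟨dl 1, dl_isP 1, ?_⟩
    funext x
    simp [pw_zero]
  | succ j ih =>
    obtain ⟨σ, hσ, e2⟩ := ih
    refine ⟨cv σ ρ, hσ.cv hρ, ?_⟩
    have e3 : (j + 1) * m = j * m + m := by ring
    have e4 : pw q ((j + 1) * m) = fun x => c * unif G x + (1 - c) * cv (pw q (j * m)) ρ x := by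
      rw [e3, pw_add]
      have e5 : cv (pw q (j * m)) (pw q m) =
          cv (pw q (j * m)) (fun x => c * unif G x + (1 - c) * ρ x) := by rw [← e1]
      rw [e5, cv_add_right, cv_unif (pw_isP hq _)]
    rw [e4]
    have e6 : cv (pw q (j * m)) ρ =
        fun x => (1 - (1 - c) ^ j) * unif G x + (1 - c) ^ j * cv σ ρ x := by
      rw [e2, cv_add_left, cv_unif_left hρ]
    rw [e6]
    funext x
    rw [pow_succ]
    ring

theorem ent_run {p : G → ℝ} (hp : IsP p) (hps : iv p = p) (T : ℕ) (hmix : Mx p T) (j m : ℕ)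
    (hm : j * (2 * T) ≤ m) :
    (1 - (1 / 2) ^ j) * Real.log (Fintype.card G) ≤ Ent (pw p m) := by
  have h1 : ∀ x, (1 / 2 : ℝ) * (1 / (Fintype.card G : ℝ)) ≤ pw p (2 * T) x := by
    intro x
    have h := pw_half hp hps T hmix (2 * T) le_rfl x
    have hN : (0 : ℝ) < Fintype.card G := card_pos'
    have e : (1 / 2 : ℝ) * (1 / (Fintype.card G : ℝ)) = 1 / (2 * (Fintype.card G : ℝ)) := by
      field_simp
    rw [e]
    exact h
  obtain ⟨σ, hσ, e⟩ := doeblin_dec hp (2 * T) (1 / 2) (by norm_num) h1 j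
  refine le_trans ?_ (Ent_pw_mono hp _ m hm)
  rw [e]
  have e2 : (1 : ℝ) - 1 / 2 = 1 / 2 := by norm_num
  rw [e2]
  have hj0 : (0 : ℝ) ≤ (1 / 2) ^ j := by positivity
  have hj1 : (1 / 2 : ℝ) ^ j ≤ 1 := pow_le_one₀ (by norm_num) (by norm_num)
  have h2 := Ent_concave₂ (1 - (1 / 2 : ℝ) ^ j) ((1 / 2 : ℝ) ^ j) (unif G) σ (by linarith) hj0
    (by ring) unif_isP.1 hσ.1
  rw [Ent_unif] at h2
  have h3 := mul_nonneg hj0 (Ent_nonneg hσ.1 hσ.2)
  linarith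

/-- the letters of the three words -/
def cc₀ : Fin 3 × G → G := fun s => if s.1 = 0 then s.2 else if s.1 = 1 then 1 else s.2
def cc₁ : Fin 3 × G → G := fun s => if s.1 = 0 then 1 else if s.1 = 1 then s.2 else s.2⁻¹

theorem step_three (hcl : Cl2 G) {p q : G → ℝ} (hp : IsP p) (hps : iv p = p) (hq : IsP q)
    (hqs : iv q = q) (α : ℝ) (hα0 : 0 < α) (hα1 : α ≤ 1 / 4) (hle : ∀ x, α * p x ≤ q x)
    (hq1 : 1 / 2 ≤ q 1) (T : ℕ) (hmix : Mx p T) (j n t : ℕ) :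
    2 * dfc (pw q (t + n)) + dfc (pw q (2 * t + n)) ≤ 2 * dfc (pw q t) +
      Real.log (Fintype.card G) * ((1 / 2) ^ j + 2 ^ (j * (2 * T)) * (1 - α / 2) ^ n) := by
  obtain ⟨υ, hυ, hυs, hqυ⟩ := upsilon hp hps hq hqs α (by linarith) hle
  have hK : 0 ≤ Real.log (Fintype.card G) := Real.log_natCast_nonneg _
  -- `υ = 1/3 δ + 2/3 υ'`
  have hp1 : p 1 ≤ 1 := by
    rw [← hp.2]
    exact Finset.single_le_sum (fun y _ => hp.1 y) (Finset.mem_univ 1)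
  have hυ1 : 1 / 3 ≤ υ 1 := by
    have h := congrFun hqυ 1
    rw [h] at hq1
    nlinarith [hυ.1 1]
  obtain ⟨υ', hυ'def⟩ : ∃ υ' : G → ℝ, υ' = fun x => (υ x - 1 / 3 * dl 1 x) * (3 / 2) := ⟨_, rfl⟩
  have hυ'0 : ∀ x, 0 ≤ υ' x := by
    intro x
    rw [hυ'def]
    show 0 ≤ (υ x - 1 / 3 * dl 1 x) * (3 / 2)
    have hx : 1 / 3 * dl 1 x ≤ υ x := by
      unfold dl
      split_ifs with h
      · rw [h]; linarith
      · linarith [hυ.1 x]
    linarith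
  have hυ'1 : ∑ x, υ' x = 1 := by
    rw [hυ'def, ← Finset.sum_mul, Finset.sum_sub_distrib, ← Finset.mul_sum, hυ.2,
      (dl_isP (1 : G)).2]
    norm_num
  have hυ's : iv υ' = υ' := by
    funext x
    have h1 := congrFun hυs x
    have h2 := congrFun (iv_dl (1 : G)) x
    rw [inv_one] at h2
    unfold iv at h1 h2
    rw [hυ'def]
    show (υ x⁻¹ - 1 / 3 * dl 1 x⁻¹) * (3 / 2) = (υ x - 1 / 3 * dl 1 x) * (3 / 2)
    rw [h1, h2]
  obtain ⟨θ, hθdef⟩ : ∃ θ : Fin 3 × G → ℝ, θ = fun s => 1 / 3 * υ' s.2 := ⟨_, rfl⟩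
  have hθ0 : ∀ s, 0 ≤ θ s := by
    intro s
    rw [hθdef]
    have := hυ'0 s.2
    positivity
  have hθ1 : ∑ s, θ s = 1 := by
    rw [hθdef, Fintype.sum_prod_type]
    simp only [← Finset.mul_sum, hυ'1]
    simp
  -- marginals
  have hF : ∀ F : G → ℝ, ∑ g, υ g * F g = 1 / 3 * F 1 + 2 / 3 * ∑ g, υ' g * F g := by
    intro F
    rw [hυ'def]
    have e : ∀ g, (υ g - 1 / 3 * dl 1 g) * (3 / 2) * F g =
        3 / 2 * (υ g * F g) - 1 / 2 * (dl 1 g * F g) := fun g => by ring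
    simp only [e]
    rw [Finset.sum_sub_distrib, ← Finset.mul_sum, ← Finset.mul_sum]
    have e2 : ∑ g, dl (1 : G) g * F g = F 1 := by
      unfold dl
      simp
    rw [e2]
    ring
  have hsum3 : ∀ F : Fin 3 × G → ℝ, ∑ s, θ s * F s =
      1 / 3 * ∑ g, υ' g * F (0, g) + 1 / 3 * ∑ g, υ' g * F (1, g) +
        1 / 3 * ∑ g, υ' g * F (2, g) := by
    intro F
    rw [hθdef, Fintype.sum_prod_type, Fin.sum_univ_three, Finset.mul_sum, Finset.mul_sum,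
      Finset.mul_sum]
    simp only [mul_assoc]
  have hone : ∀ c : ℝ, ∑ g, υ' g * c = c := by
    intro c
    rw [← Finset.sum_mul, hυ'1, one_mul]
  have hm0 : ∀ F : G → ℝ, ∑ s, θ s * F (h0 G (cc₀ s, cc₁ s, cc₀ s * cc₁ s, 1)) =
      ∑ g, υ g * F g := by
    intro F
    rw [hsum3, hF]
    have e1 : ∀ g : G, h0 G (cc₀ ((0 : Fin 3), g), cc₁ ((0 : Fin 3), g),
      cc₀ ((0 : Fin 3), g) * cc₁ ((0 : Fin 3), g), 1) = g := fun g => rfl
    have e2 : ∀ g : G, h0 G (cc₀ ((1 : Fin 3), g), cc₁ ((1 : Fin 3), g),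
      cc₀ ((1 : Fin 3), g) * cc₁ ((1 : Fin 3), g), 1) = 1 := fun g => rfl
    have e3 : ∀ g : G, h0 G (cc₀ ((2 : Fin 3), g), cc₁ ((2 : Fin 3), g),
      cc₀ ((2 : Fin 3), g) * cc₁ ((2 : Fin 3), g), 1) = g := fun g => rfl
    simp only [e1, e2, e3]
    rw [hone]
    ring
  have hm1 : ∀ F : G → ℝ, ∑ s, θ s * F (h1 G (cc₀ s, cc₁ s, cc₀ s * cc₁ s, 1)) =
      ∑ g, υ g * F g := by
    intro F
    rw [hsum3, hF]
    have e1 : ∀ g : G, h1 G (cc₀ ((0 : Fin 3), g), cc₁ ((0 : Fin 3), g),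
      cc₀ ((0 : Fin 3), g) * cc₁ ((0 : Fin 3), g), 1) = 1 := fun g => rfl
    have e2 : ∀ g : G, h1 G (cc₀ ((1 : Fin 3), g), cc₁ ((1 : Fin 3), g),
      cc₀ ((1 : Fin 3), g) * cc₁ ((1 : Fin 3), g), 1) = g := fun g => rfl
    have e3 : ∀ g : G, h1 G (cc₀ ((2 : Fin 3), g), cc₁ ((2 : Fin 3), g),
      cc₀ ((2 : Fin 3), g) * cc₁ ((2 : Fin 3), g), 1) = g⁻¹ := fun g => rfl
    simp only [e1, e2, e3]
    rw [hone, sum_iv hυ's F]
    ring
  have hm2 : ∀ F : G → ℝ, ∑ s, θ s * F (h2 G (cc₀ s, cc₁ s, cc₀ s * cc₁ s, 1)) =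
      ∑ g, υ g * F g := by
    intro F
    rw [hsum3, hF]
    have e1 : ∀ g : G, h2 G (cc₀ ((0 : Fin 3), g), cc₁ ((0 : Fin 3), g),
      cc₀ ((0 : Fin 3), g) * cc₁ ((0 : Fin 3), g), 1) = g := fun g => mul_one g
    have e2 : ∀ g : G, h2 G (cc₀ ((1 : Fin 3), g), cc₁ ((1 : Fin 3), g),
      cc₀ ((1 : Fin 3), g) * cc₁ ((1 : Fin 3), g), 1) = g := fun g => one_mul g
    have e3 : ∀ g : G, h2 G (cc₀ ((2 : Fin 3), g), cc₁ ((2 : Fin 3), g),
      cc₀ ((2 : Fin 3), g) * cc₁ ((2 : Fin 3), g), 1) = 1 := fun g => mul_inv_cancel g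
    simp only [e1, e2, e3]
    rw [hone]
    ring
  obtain ⟨ν, hνdef⟩ : ∃ ν : G → ℝ, ν = pw q t := ⟨_, rfl⟩
  have hν : IsP ν := by rw [hνdef]; exact pw_isP hq t
  have hνs : iv ν = ν := by rw [hνdef]; exact iv_pw hqs t
  have ht0 := EE_typ hp hυ α hα0.le (by linarith) hqυ hθ0 cc₀ cc₁ (h0 G) rfl hm0 ν hν n (dl 1)
    (dl_isP 1)
  have ht1 := EE_typ hp hυ α hα0.le (by linarith) hqυ hθ0 cc₀ cc₁ (h1 G) rfl hm1 (dl 1) (dl_isP 1)
    n ν hν
  have ht2 := EE_typ hp hυ α hα0.le (by linarith) hqυ hθ0 cc₀ cc₁ (h2 G) rfl hm2 ν hν n ν hν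
  simp only [cv_dl_one] at ht1
  simp only [dl_one_cv] at ht0
  have f0 : cv (pw q n) ν = pw q (t + n) := by rw [hνdef, ← pw_add, Nat.add_comm]
  have f1 : cv ν (pw q n) = pw q (t + n) := by rw [hνdef, ← pw_add]
  have f2 : cv (cv ν (pw q n)) ν = pw q (2 * t + n) := by
    rw [hνdef, ← pw_add, ← pw_add]
    congr 1
    omega
  rw [f2] at ht2
  rw [f0] at ht0
  rw [f1] at ht1
  obtain ⟨P, hP⟩ : ∃ P : ℝ, P = EE α θ n (fun L => if j * (2 * T) ≤ cnt L then 1 else 0) :=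
    ⟨_, rfl⟩
  have hPlow : 1 - 2 ^ (j * (2 * T)) * (1 - α / 2) ^ n ≤ P := by
    rw [hP]
    exact EE_cnt hα0.le (by linarith) hθ1 n (j * (2 * T))
  have hmono := EE_mono (θ := θ) hα0.le (by linarith) hθ0 n
    (fun L => ((1 - (1 / 2) ^ j) * Real.log (Fintype.card G)) *
      (if j * (2 * T) ≤ cnt L then 1 else 0) + (2 * Ent ν) * 1)
    (fun L => 1 * (1 * Ent (cv (push (h0 G) (Jt p cc₀ cc₁ L)) ν) +
      1 * Ent (cv (cv ν (push (h2 G) (Jt p cc₀ cc₁ L))) ν)) +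
      1 * Ent (cv ν (push (h1 G) (Jt p cc₀ cc₁ L)))) (by
      intro L
      have g1 := three_word hcl hp hν hνs cc₀ cc₁ L
      split_ifs with hL
      · have g2 := ent_run hp hps T hmix j (cnt L) hL
        linarith
      · have g2 := Ent_nonneg (pw_isP hp (cnt L)).1 (pw_isP hp (cnt L)).2
        linarith)
  rw [EE_lin n (fun L => if j * (2 * T) ≤ cnt L then 1 else 0) (fun _ => 1), EE_const hθ1 1 n, ← hP,
    EE_lin n (fun L => 1 * Ent (cv (push (h0 G) (Jt p cc₀ cc₁ L)) ν) +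
      1 * Ent (cv (cv ν (push (h2 G) (Jt p cc₀ cc₁ L))) ν)), EE_lin n] at hmono
  have hj0 : (0 : ℝ) ≤ (1 / 2) ^ j := by positivity
  have hj1 : (1 / 2 : ℝ) ^ j ≤ 1 := pow_le_one₀ (by norm_num) (by norm_num)
  have h5 : Real.log (Fintype.card G) * (1 - (1 / 2) ^ j - 2 ^ (j * (2 * T)) * (1 - α / 2) ^ n) ≤
      ((1 - (1 / 2) ^ j) * Real.log (Fintype.card G)) * P := by
    have h6 : 1 - (1 / 2 : ℝ) ^ j - 2 ^ (j * (2 * T)) * (1 - α / 2) ^ n ≤ (1 - (1 / 2) ^ j) * P := by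
      have h7 : 0 ≤ 2 ^ (j * (2 * T)) * (1 - α / 2) ^ n :=
        mul_nonneg (by positivity) (pow_nonneg (by linarith) n)
      nlinarith [mul_le_mul_of_nonneg_left hPlow (show 0 ≤ 1 - (1 / 2 : ℝ) ^ j by linarith)]
    have h8 := mul_le_mul_of_nonneg_left h6 hK
    linarith
  rw [hνdef] at hmono
  rw [← hνdef] at hmono
  have h9 : Ent ν = Ent (pw q t) := by rw [hνdef]
  unfold dfc
  linarith

end Pool.Agent.H48.MXN
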