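import Pool.Agent.H48.MXN.Corr

/-!
# Words with random letters

A word of letters: `none` is a step with law `p`, common to all components; `some s` is a known
letter, equal to `c₀ s`, `c₁ s`, `c₀ s * c₁ s` in the components `0`, `1`, `2`; the last component
is the product of the `p`-steps alone.
-/

set_option autoImplicit false
set_option linter.unusedSectionVars false

namespace Pool.Agent.H48.MXN

open Finset Pool.Agent.H70.MX
open scoped Classical

variable {G : Type} [Group G] [Fintype G]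

theorem push_comp {H H' : Type} [Group H] [Fintype H] [Group H'] [Fintype H'] (φ : G →* H)
    (ψ : H →* H') (f : G → ℝ) : push ψ (push φ f) = push (ψ.comp φ) f := by
  funext y
  have h := sum_push_mul φ f (fun z => if ψ z = y then (1 : ℝ) else 0)
  unfold push at h ⊢
  simp only [mul_ite, mul_one, mul_zero] at h
  rw [h]
  rfl

theorem push_id (f : G → ℝ) : push (MonoidHom.id G) f = f := by
  funext y
  unfold push
  simp only [MonoidHom.id_apply]
  rw [Finset.sum_ite_eq']
  simp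

/-- the four components of a word -/
abbrev W4 (G : Type) := G × G × G × G

/-- the diagonal -/
def dg (G : Type) [Group G] : G →* W4 G :=
  (MonoidHom.id G).prod ((MonoidHom.id G).prod ((MonoidHom.id G).prod (MonoidHom.id G)))

def h0 (G : Type) [Group G] : W4 G →* G := MonoidHom.fst G _
def h1 (G : Type) [Group G] : W4 G →* G := (MonoidHom.fst G _).comp (MonoidHom.snd G _)
def h2 (G : Type) [Group G] : W4 G →* G :=
  (MonoidHom.fst G _).comp ((MonoidHom.snd G _).comp (MonoidHom.snd G _))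
def h3 (G : Type) [Group G] : W4 G →* G :=
  (MonoidHom.snd G _).comp ((MonoidHom.snd G _).comp (MonoidHom.snd G _))

variable {A : Type} [Fintype A]

/-- the law of a letter -/
noncomputable def lt (p : G → ℝ) (c₀ c₁ : A → G) : Option A → W4 G → ℝ
  | none => push (dg G) p
  | some s => dl (c₀ s, c₁ s, c₀ s * c₁ s, 1)

/-- the joint law of the four components of a word -/
noncomputable def Jt (p : G → ℝ) (c₀ c₁ : A → G) : List (Option A) → W4 G → ℝ
  | [] => dl 1
  | l :: L => cv (lt p c₀ c₁ l) (Jt p c₀ c₁ L)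

/-- number of `p`-steps of a word -/
def cnt : List (Option A) → ℕ
  | [] => 0
  | none :: L => cnt L + 1
  | some _ :: L => cnt L

theorem lt_isP {p : G → ℝ} (hp : IsP p) (c₀ c₁ : A → G) (l : Option A) : IsP (lt p c₀ c₁ l) := by
  cases l with
  | none => exact push_isP _ hp
  | some s => exact dl_isP _

theorem Jt_isP {p : G → ℝ} (hp : IsP p) (c₀ c₁ : A → G) (L : List (Option A)) :
    IsP (Jt p c₀ c₁ L) := by
  induction L with
  | nil => exact dl_isP 1
  | cons l L ih => exact (lt_isP hp c₀ c₁ l).cv ih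

theorem push_none (p : G → ℝ) (c₀ c₁ : A → G) (h : W4 G →* G)
    (hh : h.comp (dg G) = MonoidHom.id G) (L : List (Option A)) :
    push h (Jt p c₀ c₁ (none :: L)) = cv p (push h (Jt p c₀ c₁ L)) := by
  show push h (cv (push (dg G) p) (Jt p c₀ c₁ L)) = _
  rw [push_cv, push_comp, hh, push_id]

theorem push_some (p : G → ℝ) (c₀ c₁ : A → G) (h : W4 G →* G) (s : A) (L : List (Option A)) :
    push h (Jt p c₀ c₁ (some s :: L)) =
      cv (dl (h (c₀ s, c₁ s, c₀ s * c₁ s, 1))) (push h (Jt p c₀ c₁ L)) := by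
  show push h (cv (dl (c₀ s, c₁ s, c₀ s * c₁ s, 1)) (Jt p c₀ c₁ L)) = _
  rw [push_cv, push_dl]

theorem push_h3 (p : G → ℝ) (c₀ c₁ : A → G) (L : List (Option A)) :
    push (h3 G) (Jt p c₀ c₁ L) = pw p (cnt L) := by
  induction L with
  | nil =>
    show push (h3 G) (dl 1) = dl 1
    rw [push_dl, map_one]
  | cons l L ih =>
    cases l with
    | none =>
      rw [push_none p c₀ c₁ (h3 G) rfl, ih]
      rfl
    | some s =>
      rw [push_some, ih]
      show cv (dl 1) (pw p (cnt L)) = pw p (cnt L)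
      rw [dl_one_cv]

/-! ### expectation over the letters -/

/-- expectation over words of length `n`: each letter is `none` with probability `α`, `some s` with
probability `(1 - α) θ s` -/
noncomputable def EE (α : ℝ) (θ : A → ℝ) : ℕ → (List (Option A) → ℝ) → ℝ
  | 0, Φ => Φ []
  | n + 1, Φ => α * EE α θ n (fun L => Φ (none :: L)) +
      (1 - α) * ∑ s, θ s * EE α θ n (fun L => Φ (some s :: L))

theorem EE_mono {α : ℝ} {θ : A → ℝ} (hα0 : 0 ≤ α) (hα1 : α ≤ 1) (hθ : ∀ s, 0 ≤ θ s) (n : ℕ) :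
    ∀ Φ Ψ : List (Option A) → ℝ, (∀ L, Φ L ≤ Ψ L) → EE α θ n Φ ≤ EE α θ n Ψ := by
  induction n with
  | zero => intro Φ Ψ h; exact h []
  | succ n ih =>
    intro Φ Ψ h
    show _ * _ + _ ≤ _ * _ + _
    refine add_le_add (mul_le_mul_of_nonneg_left (ih _ _ fun L => h _) hα0)
      (mul_le_mul_of_nonneg_left (Finset.sum_le_sum fun s _ =>
        mul_le_mul_of_nonneg_left (ih _ _ fun L => h _) (hθ s)) (by linarith))

theorem EE_lin {α : ℝ} {θ : A → ℝ} (n : ℕ) : ∀ (Φ Ψ : List (Option A) → ℝ) (a b : ℝ),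
    EE α θ n (fun L => a * Φ L + b * Ψ L) = a * EE α θ n Φ + b * EE α θ n Ψ := by
  induction n with
  | zero => intro Φ Ψ a b; rfl
  | succ n ih =>
    intro Φ Ψ a b
    show α * EE α θ n (fun L => a * Φ (none :: L) + b * Ψ (none :: L)) +
      (1 - α) * ∑ s, θ s * EE α θ n (fun L => a * Φ (some s :: L) + b * Ψ (some s :: L)) =
      a * (α * EE α θ n (fun L => Φ (none :: L)) +
      (1 - α) * ∑ s, θ s * EE α θ n (fun L => Φ (some s :: L))) +
      b * (α * EE α θ n (fun L => Ψ (none :: L)) +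
      (1 - α) * ∑ s, θ s * EE α θ n (fun L => Ψ (some s :: L)))
    simp only [ih]
    have e1 : ∀ s, θ s * (a * EE α θ n (fun L => Φ (some s :: L)) +
        b * EE α θ n (fun L => Ψ (some s :: L))) =
        a * (θ s * EE α θ n (fun L => Φ (some s :: L))) +
        b * (θ s * EE α θ n (fun L => Ψ (some s :: L))) := fun s => by ring
    simp only [e1]
    rw [Finset.sum_add_distrib, ← Finset.mul_sum, ← Finset.mul_sum]
    ring

theorem EE_const {α : ℝ} {θ : A → ℝ} (hθ1 : ∑ s, θ s = 1) (c : ℝ) (n : ℕ) :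
    EE α θ n (fun _ => c) = c := by
  induction n with
  | zero => rfl
  | succ n ih =>
    show α * EE α θ n (fun _ => c) + (1 - α) * ∑ s, θ s * EE α θ n (fun _ => c) = c
    rw [ih, ← Finset.sum_mul, hθ1]
    ring

/-- the number of `p`-steps is large with high probability -/
theorem EE_cnt {α : ℝ} {θ : A → ℝ} (hα0 : 0 ≤ α) (hα1 : α ≤ 1) (hθ1 : ∑ s, θ s = 1) (n : ℕ) :
    ∀ k : ℕ, 1 - 2 ^ k * (1 - α / 2) ^ n ≤
      EE α θ n (fun L => if k ≤ cnt L then 1 else 0) := by
  induction n with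
  | zero =>
    intro k
    show _ ≤ (if k ≤ 0 then (1 : ℝ) else 0)
    have h1 : (1 : ℝ) ≤ 2 ^ k := one_le_pow₀ (by norm_num)
    rw [pow_zero, mul_one]
    split_ifs <;> linarith
  | succ n ih =>
    intro k
    have hρ : 0 ≤ (1 - α / 2) ^ n := pow_nonneg (by linarith) n
    cases k with
    | zero =>
      have e : (fun L : List (Option A) => if 0 ≤ cnt L then (1 : ℝ) else 0) = fun _ => 1 := by
        funext L
        simp
      rw [e, EE_const hθ1]
      have : 0 ≤ (1 - α / 2) ^ (n + 1) := pow_nonneg (by linarith) _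
      rw [pow_zero]
      linarith
    | succ k =>
      show _ ≤ α * EE α θ n (fun L => if k + 1 ≤ cnt L + 1 then 1 else 0) +
        (1 - α) * ∑ s, θ s * EE α θ n (fun L => if k + 1 ≤ cnt L then 1 else 0)
      rw [← Finset.sum_mul, hθ1, one_mul]
      have e1 : EE α θ n (fun L => if k + 1 ≤ cnt L + 1 then 1 else 0) =
          EE α θ n (fun L => if k ≤ cnt L then 1 else 0) := by
        congr 1
        funext L
        simp only [Nat.add_le_add_iff_right]
      rw [e1]
      have h2 := mul_le_mul_of_nonneg_left (ih k) hα0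
      have h3 := mul_le_mul_of_nonneg_left (ih (k + 1)) (show 0 ≤ 1 - α by linarith)
      refine le_trans (le_of_eq ?_) (add_le_add h2 h3)
      rw [pow_succ, pow_succ]
      ring

/-- the entropy along a typical component is at most the entropy of the walk -/
theorem EE_typ {p q υ : G → ℝ} {θ : A → ℝ} (hp : IsP p) (hυ : IsP υ) (α : ℝ) (hα0 : 0 ≤ α)
    (hα1 : α ≤ 1) (hq : q = fun x => α * p x + (1 - α) * υ x) (hθ : ∀ s, 0 ≤ θ s)
    (c₀ c₁ : A → G) (h : W4 G →* G) (hh : h.comp (dg G) = MonoidHom.id G)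
    (hm : ∀ F : G → ℝ, ∑ s, θ s * F (h (c₀ s, c₁ s, c₀ s * c₁ s, 1)) = ∑ g, υ g * F g)
    (ρ : G → ℝ) (hρ : IsP ρ) (n : ℕ) : ∀ ν : G → ℝ, IsP ν →
    EE α θ n (fun L => Ent (cv (cv ν (push h (Jt p c₀ c₁ L))) ρ)) ≤
      Ent (cv (cv ν (pw q n)) ρ) := by
  have h1α : 0 ≤ 1 - α := by linarith
  have hqP : IsP q := by
    rw [hq]
    refine ⟨fun x => add_nonneg (mul_nonneg hα0 (hp.1 x)) (mul_nonneg h1α (hυ.1 x)), ?_⟩
    rw [Finset.sum_add_distrib, ← Finset.mul_sum, ← Finset.mul_sum, hp.2, hυ.2]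
    ring
  induction n with
  | zero =>
    intro ν _
    show Ent (cv (cv ν (push h (dl 1))) ρ) ≤ _
    rw [push_dl, map_one]
    exact le_rfl
  | succ n ih =>
    intro ν hν
    show α * EE α θ n (fun L => Ent (cv (cv ν (push h (Jt p c₀ c₁ (none :: L)))) ρ)) +
      (1 - α) * ∑ s, θ s * EE α θ n
        (fun L => Ent (cv (cv ν (push h (Jt p c₀ c₁ (some s :: L)))) ρ)) ≤ _
    simp only [push_none p c₀ c₁ h hh, push_some]
    have e1 : ∀ (τ : G → ℝ) (L : List (Option A)),
        cv ν (cv τ (push h (Jt p c₀ c₁ L))) = cv (cv ν τ) (push h (Jt p c₀ c₁ L)) :=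
      fun τ L => (cv_assoc _ _ _).symm
    simp only [e1]
    have h2 := mul_le_mul_of_nonneg_left (ih (cv ν p) (hν.cv hp)) hα0
    have h3 : ∑ s, θ s * EE α θ n (fun L => Ent (cv (cv (cv ν
        (dl (h (c₀ s, c₁ s, c₀ s * c₁ s, 1)))) (push h (Jt p c₀ c₁ L))) ρ)) ≤
        ∑ g, υ g * Ent (cv (cv (cv ν (dl g)) (pw q n)) ρ) := by
      rw [← hm (fun g => Ent (cv (cv (cv ν (dl g)) (pw q n)) ρ))]
      exact Finset.sum_le_sum fun s _ =>
        mul_le_mul_of_nonneg_left (ih _ (hν.cv (dl_isP _))) (hθ s)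
    have h4 : ∑ g, υ g * Ent (cv (cv (cv ν (dl g)) (pw q n)) ρ) ≤
        Ent (cv (cv (cv ν υ) (pw q n)) ρ) := by
      have e2 : cv (cv (cv ν υ) (pw q n)) ρ =
          fun x => ∑ g, υ g * cv (cv (cv ν (dl g)) (pw q n)) ρ x := by
        rw [cv_eq_sum' ν υ, cv_sum_left, cv_sum_left]
      rw [e2]
      exact Ent_concave Finset.univ υ (fun g => cv (cv (cv ν (dl g)) (pw q n)) ρ)
        (fun g _ => hυ.1 g) hυ.2
        (fun g _ x => (((hν.cv (dl_isP g)).cv (pw_isP hqP n)).cv hρ).1 x)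
    have h5 := Ent_concave₂ α (1 - α) (cv (cv (cv ν p) (pw q n)) ρ)
      (cv (cv (cv ν υ) (pw q n)) ρ) hα0 h1α (by ring)
      (((hν.cv hp).cv (pw_isP hqP n)).cv hρ).1 (((hν.cv hυ).cv (pw_isP hqP n)).cv hρ).1
    have e3 : (fun x => α * cv (cv (cv ν p) (pw q n)) ρ x +
        (1 - α) * cv (cv (cv ν υ) (pw q n)) ρ x) = cv (cv ν (pw q (n + 1))) ρ := by
      rw [← cv_add_left, ← cv_add_left, ← cv_add_right, ← hq, pw_succ, cv_assoc ν q]
    rw [e3] at h5
    have h6 := mul_le_mul_of_nonneg_left (h3.trans h4) h1α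
    linarith

end Pool.Agent.H48.MXN
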